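import Mathlib
import Pool.Agent.N381.LH.Expand

/-!
N381/UG (helper381, MP_0430e4_lc): averages, shifts in the direction of functionals, selection of
bases.
-/

set_option autoImplicit false
set_option linter.unusedSectionVars false

namespace Pool.Agent.N381.UG

open Finset Matrix
open Pool.Agent.N381.LH

section av

variable {α β γ : Type*} [Fintype α] [Fintype β]

/-- the average -/
noncomputable def av (f : α → ℝ) : ℝ := (∑ x, f x) / Fintype.card α

lemma av_nonneg {f : α → ℝ} (h : ∀ x, 0 ≤ f x) : 0 ≤ av f :=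
  div_nonneg (Finset.sum_nonneg fun x _ => h x) (Nat.cast_nonneg _)

lemma av_mono {f g : α → ℝ} (h : ∀ x, f x ≤ g x) : av f ≤ av g :=
  div_le_div_of_nonneg_right (Finset.sum_le_sum fun x _ => h x) (Nat.cast_nonneg _)

lemma abs_av_le (f : α → ℝ) : |av f| ≤ av fun x => |f x| := by
  unfold av
  rw [abs_div, abs_of_nonneg (Nat.cast_nonneg _ : (0 : ℝ) ≤ Fintype.card α)]
  exact div_le_div_of_nonneg_right (Finset.abs_sum_le_sum_abs _ _) (Nat.cast_nonneg _)

lemma av_const [Nonempty α] (c : ℝ) : av (fun _ : α => c) = c := by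
  unfold av
  rw [Finset.sum_const, Finset.card_univ, nsmul_eq_mul]
  have : (Fintype.card α : ℝ) ≠ 0 := by exact_mod_cast Fintype.card_ne_zero
  field_simp

lemma av_mul_left (c : ℝ) (f : α → ℝ) : av (fun x => c * f x) = c * av f := by
  unfold av
  rw [← Finset.mul_sum]
  ring

lemma av_mul_right (c : ℝ) (f : α → ℝ) : av (fun x => f x * c) = av f * c := by
  unfold av
  rw [← Finset.sum_mul]
  ring

lemma av_add (f g : α → ℝ) : av (fun x => f x + g x) = av f + av g := by
  unfold av
  rw [Finset.sum_add_distrib, add_div]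

lemma av_sub (f g : α → ℝ) : av (fun x => f x - g x) = av f - av g := by
  unfold av
  rw [Finset.sum_sub_distrib, sub_div]

lemma av_sum {ι : Type*} (s : Finset ι) (f : ι → α → ℝ) :
    av (fun x => ∑ i ∈ s, f i x) = ∑ i ∈ s, av (f i) := by
  unfold av
  rw [Finset.sum_comm, Finset.sum_div]

lemma av_comm (f : α → β → ℝ) : av (fun x => av fun y => f x y) = av fun y => av fun x => f x y := by
  unfold av
  rw [← Finset.sum_div, ← Finset.sum_div, Finset.sum_comm, div_div, div_div, mul_comm]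

lemma av_equiv (e : α ≃ β) (f : β → ℝ) : av (fun x => f (e x)) = av f := by
  unfold av
  rw [Equiv.sum_comp e f, Fintype.card_congr e]

lemma av_add_right [AddGroup α] (a : α) (f : α → ℝ) : av (fun x => f (x + a)) = av f :=
  av_equiv (Equiv.addRight a) f

lemma av_add_left [AddGroup α] (a : α) (f : α → ℝ) : av (fun x => f (a + x)) = av f :=
  av_equiv (Equiv.addLeft a) f

lemma av_le_one [Nonempty α] {f : α → ℝ} (h : ∀ x, f x ≤ 1) : av f ≤ 1 :=
  (av_mono h).trans (av_const 1).le

lemma av_ind [DecidableEq α] (S : Finset α) : av (fun x => if x ∈ S then (1 : ℝ) else 0) =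
    S.card / Fintype.card α := by
  unfold av
  rw [Finset.sum_boole, Finset.filter_mem_eq_inter, Finset.univ_inter]

lemma av_prod_pi {r : ℕ} (g : Fin r → α → ℝ) :
    av (fun x : Fin r → α => ∏ i, g i (x i)) = ∏ i, av (g i) := by
  classical
  unfold av
  rw [Finset.prod_div_distrib, Finset.prod_const, Finset.card_univ, Fintype.card_fin,
    Fintype.card_fun, Fintype.card_fin, Finset.prod_univ_sum, Fintype.piFinset_univ]
  push_cast
  rfl

/-- Cauchy-Schwarz -/
lemma av_mul_le (f g : α → ℝ) : |av fun x => f x * g x| ≤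
    √(av fun x => f x ^ 2) * √(av fun x => g x ^ 2) := by
  unfold av
  have h := Finset.sum_mul_sq_le_sq_mul_sq (Finset.univ : Finset α) f g
  have hc : (0 : ℝ) ≤ Fintype.card α := Nat.cast_nonneg _
  rw [← Real.sqrt_mul (div_nonneg (Finset.sum_nonneg fun _ _ => sq_nonneg _) hc), ← Real.sqrt_sq_eq_abs]
  refine Real.sqrt_le_sqrt ?_
  rw [div_pow, div_mul_div_comm, ← sq]
  exact div_le_div_of_nonneg_right h (sq_nonneg _)

end av

variable {s n r : ℕ}

/-- the shift in the direction of a functional -/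
def tens (l : Fin r → Fin s → ZMod 2) (x : Matrix (Fin r) (Fin n) (ZMod 2)) :
    Matrix (Fin s) (Fin n) (ZMod 2) := (Matrix.of l)ᵀ * x

lemma vec_tens (l : Fin r → Fin s → ZMod 2) (x : Matrix (Fin r) (Fin n) (ZMod 2))
    (X : Matrix (Fin s) (Fin n) (ZMod 2)) (c : Fin s → ZMod 2) :
    c ᵥ* (X + tens l x) = c ᵥ* X + (fun i => c ⬝ᵥ l i) ᵥ* x := by
  unfold tens
  rw [Matrix.vecMul_add, ← Matrix.vecMul_vecMul]
  congr 2

/-- **Averaging over directions.** -/
lemma tool (l : Fin r → Fin s → ZMod 2) (Θ Ψ : Matrix (Fin s) (Fin n) (ZMod 2) → ℝ) {b : ℝ}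
    (hΘ : ∀ X x, Θ (X + tens l x) = Θ X)
    (hΨ : ∀ X, Θ X ≠ 0 → |av fun x : Matrix (Fin r) (Fin n) (ZMod 2) => Ψ (X + tens l x)| ≤ b) :
    |av fun X => Θ X * Ψ X| ≤ (av fun X => |Θ X|) * b := by
  have h1 : (av fun X => Θ X * Ψ X) = av fun X => Θ X *
      av fun x : Matrix (Fin r) (Fin n) (ZMod 2) => Ψ (X + tens l x) := by
    have h2 : ∀ x : Matrix (Fin r) (Fin n) (ZMod 2), (av fun X => Θ X * Ψ X) =
        av fun X => Θ X * Ψ (X + tens l x) := by
      intro x
      rw [← av_add_right (tens l x)]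
      refine congrArg av (funext fun X => ?_)
      rw [hΘ]
    calc (av fun X => Θ X * Ψ X) =
        av fun _ : Matrix (Fin r) (Fin n) (ZMod 2) => av fun X => Θ X * Ψ X := (av_const _).symm
      _ = av fun x : Matrix (Fin r) (Fin n) (ZMod 2) => av fun X => Θ X * Ψ (X + tens l x) :=
        congrArg av (funext fun x => h2 x)
      _ = _ := by
        rw [av_comm]
        refine congrArg av (funext fun X => ?_)
        exact av_mul_left _ _
  rw [h1]
  refine (abs_av_le _).trans ?_
  rw [← av_mul_right]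
  refine av_mono fun X => ?_
  rw [abs_mul]
  by_cases h0 : Θ X = 0
  · rw [h0, abs_zero, zero_mul, zero_mul]
  · exact mul_le_mul_of_nonneg_left (hΨ X h0) (abs_nonneg _)

/-- independent factors -/
lemma tool_ind (l c : Fin r → Fin s → ZMod 2) (hlc : ∀ i j, c i ⬝ᵥ l j = if i = j then 1 else 0)
    (Θ : Matrix (Fin s) (Fin n) (ZMod 2) → ℝ) (h : Fin r → (Fin n → ZMod 2) → ℝ)
    (hΘ : ∀ X x, Θ (X + tens l x) = Θ X) :
    |av fun X => Θ X * ∏ i, h i (c i ᵥ* X)| ≤ (av fun X => |Θ X|) * ∏ i, |av (h i)| := by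
  refine tool l Θ _ hΘ fun X _ => le_of_eq ?_
  rw [← Finset.abs_prod]
  congr 1
  have h1 : ∀ x : Matrix (Fin r) (Fin n) (ZMod 2), ∏ i, h i (c i ᵥ* (X + tens l x)) =
      ∏ i, h i (c i ᵥ* X + x i) := by
    intro x
    refine Finset.prod_congr rfl fun i _ => ?_
    rw [vec_tens]
    congr 2
    have : (fun j => c i ⬝ᵥ l j) = Pi.single i 1 := by
      funext j
      rw [hlc, Pi.single_apply]
      simp only [eq_comm]
    rw [this, Matrix.single_one_vecMul]
    rfl
  have h2 := av_prod_pi (α := Fin n → ZMod 2) (fun i => fun y => h i (c i ᵥ* X + y))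
  calc (av fun x : Matrix (Fin r) (Fin n) (ZMod 2) => ∏ i, h i (c i ᵥ* (X + tens l x))) =
      av fun x : Fin r → (Fin n → ZMod 2) => ∏ i, h i (c i ᵥ* X + x i) :=
        congrArg av (funext h1)
    _ = ∏ i, av fun y => h i (c i ᵥ* X + y) := h2
    _ = _ := Finset.prod_congr rfl fun i _ => av_add_left _ _

/-- a character which is not trivial in some direction -/
lemma tool_zero (l : Fin s → ZMod 2) (Θ : Matrix (Fin s) (Fin n) (ZMod 2) → ℝ)
    (Y : Matrix (Fin s) (Fin n) (ZMod 2)) (hl : l ᵥ* Y ≠ 0)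
    (hΘ : ∀ X (x : Matrix (Fin 1) (Fin n) (ZMod 2)), Θ (X + tens (fun _ => l) x) = Θ X) :
    av (fun X => Θ X * ch X Y) = 0 := by
  have h := tool (fun _ : Fin 1 => l) Θ (fun X => ch X Y) (b := 0) hΘ ?_
  · rw [mul_zero] at h
    exact abs_nonpos_iff.1 h
  · intro X _
    have h1 : ∀ x : Matrix (Fin 1) (Fin n) (ZMod 2), ch (X + tens (fun _ => l) x) Y =
        ch X Y * ch x (Matrix.of (fun _ : Fin 1 => l) * Y) := by
      intro x
      unfold tens
      rw [ch_add_left, ch_mul, Matrix.transpose_transpose]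
    rw [congrArg av (funext h1), av_mul_left]
    have h2 : (av fun x : Matrix (Fin 1) (Fin n) (ZMod 2) =>
        ch x (Matrix.of (fun _ : Fin 1 => l) * Y)) = 0 := by
      unfold av
      rw [sum_ch, if_neg, zero_div]
      intro h
      apply hl
      have := congrFun h 0
      rwa [Matrix.mul_apply_eq_vecMul] at this
    rw [h2, mul_zero, abs_zero]

end Pool.Agent.N381.UG
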