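import Mathlib
import Pool.Agent.N381.UG.Av

/-!
N381/UG (helper381, MP_0430e4_lc): selection of bases modulo subspaces, dual functionals.
-/

set_option autoImplicit false
set_option linter.unusedSectionVars false

namespace Pool.Agent.N381.UG

open Finset Matrix Module
open Pool.Agent.N381.LH

section sel

variable {E : Type*} [AddCommGroup E] [Module (ZMod 2) E] [FiniteDimensional (ZMod 2) E]

lemma finrank_sup_mkQ (M N : Submodule (ZMod 2) E) :
    finrank (ZMod 2) (M ⊔ N : Submodule (ZMod 2) E) =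
      finrank (ZMod 2) M + finrank (ZMod 2) (N.map M.mkQ) := by
  have h := LinearMap.finrank_range_add_finrank_ker (M.mkQ.domRestrict (M ⊔ N))
  have h1 : LinearMap.range (M.mkQ.domRestrict (M ⊔ N)) = N.map M.mkQ := by
    rw [LinearMap.range_domRestrict, Submodule.map_sup, Submodule.mkQ_map_self, bot_sup_eq]
  have h2 : LinearMap.ker (M.mkQ.domRestrict (M ⊔ N)) = M.comap (M ⊔ N).subtype := by
    ext x
    rw [LinearMap.mem_ker, LinearMap.domRestrict_apply, Submodule.mem_comap]
    exact Submodule.Quotient.mk_eq_zero M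
  rw [h1, h2] at h
  have h3 : finrank (ZMod 2) (M.comap (M ⊔ N).subtype) = finrank (ZMod 2) M :=
    (Submodule.comapSubtypeEquivOfLe (le_sup_left : M ≤ M ⊔ N)).finrank_eq
  omega

lemma exists_sel {ι : Type*} [DecidableEq ι] (M : Submodule (ZMod 2) E) (d : ι → E)
    (I : Finset ι) : ∃ J ⊆ I, LinearIndependent (ZMod 2) (fun j : J => M.mkQ (d j)) ∧
      M ⊔ Submodule.span (ZMod 2) (d '' (I : Set ι)) = M ⊔ Submodule.span (ZMod 2) (d '' (J : Set ι)) ∧
      finrank (ZMod 2) (M ⊔ Submodule.span (ZMod 2) (d '' (I : Set ι)) : Submodule (ZMod 2) E) =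
        finrank (ZMod 2) M + J.card := by
  classical
  obtain ⟨κ, a, ha, hspan, hli⟩ := exists_linearIndependent' (ZMod 2) (fun i : I => M.mkQ (d i))
  have : Finite κ := Finite.of_injective a ha
  have : Fintype κ := Fintype.ofFinite κ
  have hinj : Function.Injective (fun k => (a k : ι)) := Subtype.val_injective.comp ha
  let J : Finset ι := univ.image fun k => (a k : ι)
  let e : κ ≃ J := Equiv.ofBijective (fun k => ⟨(a k : ι), Finset.mem_image_of_mem _ (Finset.mem_univ k)⟩)
    ⟨fun x y h => hinj (by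
      have h' := congrArg (fun z : J => (z : ι)) h
      exact h'), fun y => by
      obtain ⟨k, -, hk⟩ := Finset.mem_image.1 y.2
      exact ⟨k, Subtype.ext hk⟩⟩
  have hJI : J ⊆ I := by
    intro x hx
    obtain ⟨k, -, rfl⟩ := Finset.mem_image.1 hx
    exact (a k).2
  have hli2 : LinearIndependent (ZMod 2) (fun j : J => M.mkQ (d j)) := by
    have h1 : (fun j : J => M.mkQ (d j)) = ((fun i : I => M.mkQ (d i)) ∘ a) ∘ e.symm := by
      funext j
      obtain ⟨k, rfl⟩ := e.surjective j
      simp only [Function.comp_apply, Equiv.symm_apply_apply]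
      rfl
    rw [h1]
    exact hli.comp _ e.symm.injective
  have hr1 : Set.range (fun i : I => M.mkQ (d i)) = M.mkQ '' (d '' (I : Set ι)) := by
    ext y
    constructor
    · rintro ⟨i, rfl⟩
      exact ⟨d i, ⟨i, i.2, rfl⟩, rfl⟩
    · rintro ⟨_, ⟨i, hi, rfl⟩, rfl⟩
      exact ⟨⟨i, hi⟩, rfl⟩
  have hr2 : Set.range ((fun i : I => M.mkQ (d i)) ∘ a) = M.mkQ '' (d '' (J : Set ι)) := by
    ext y
    constructor
    · rintro ⟨k, rfl⟩
      exact ⟨d (a k), ⟨(a k : ι), Finset.mem_image_of_mem _ (Finset.mem_univ k), rfl⟩, rfl⟩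
    · rintro ⟨_, ⟨i, hi, rfl⟩, rfl⟩
      obtain ⟨k, -, rfl⟩ := Finset.mem_image.1 (Finset.mem_coe.1 hi)
      exact ⟨k, rfl⟩
  have hmap : (Submodule.span (ZMod 2) (d '' (I : Set ι))).map M.mkQ =
      (Submodule.span (ZMod 2) (d '' (J : Set ι))).map M.mkQ := by
    rw [Submodule.map_span, Submodule.map_span, ← hr1, ← hr2, hspan]
  have heq : M ⊔ Submodule.span (ZMod 2) (d '' (I : Set ι)) =
      M ⊔ Submodule.span (ZMod 2) (d '' (J : Set ι)) := by
    rw [← Submodule.comap_map_mkQ, ← Submodule.comap_map_mkQ, hmap]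
  refine ⟨J, hJI, hli2, heq, ?_⟩
  rw [finrank_sup_mkQ, Submodule.map_span, ← hr1, ← hspan, finrank_span_eq_card hli]
  congr 1
  rw [← Fintype.card_coe]
  exact Fintype.card_congr e

end sel

variable {s n r : ℕ}

/-- dual functionals -/
lemma exists_dual (M : Submodule (ZMod 2) (Fin s → ZMod 2)) (c : Fin r → Fin s → ZMod 2)
    (hc : LinearIndependent (ZMod 2) (fun i => M.mkQ (c i))) :
    ∃ l : Fin r → Fin s → ZMod 2, (∀ i, ∀ x ∈ M, x ⬝ᵥ l i = 0) ∧
      ∀ i j, c i ⬝ᵥ l j = if i = j then 1 else 0 := by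
  obtain ⟨g, hg⟩ := (hc.repr).exists_extend
  have hg' : ∀ i, g (M.mkQ (c i)) = Finsupp.single i 1 := by
    intro i
    have h1 : M.mkQ (c i) ∈ Submodule.span (ZMod 2) (Set.range fun i => M.mkQ (c i)) :=
      Submodule.subset_span ⟨i, rfl⟩
    have h2 := LinearMap.congr_fun hg ⟨M.mkQ (c i), h1⟩
    rw [LinearMap.comp_apply, Submodule.subtype_apply] at h2
    rw [h2]
    exact hc.repr_eq_single i _ rfl
  let f : Fin r → (Fin s → ZMod 2) →ₗ[ZMod 2] ZMod 2 := fun j =>
    (Finsupp.lapply j).comp (g.comp M.mkQ)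
  have hf : ∀ j (x : Fin s → ZMod 2), x ⬝ᵥ (fun i => f j (Pi.single i 1)) = f j x := by
    intro j x
    conv_rhs => rw [LinearMap.pi_apply_eq_sum_univ (f j) x]
    unfold dotProduct
    refine Finset.sum_congr rfl fun i _ => ?_
    have h3 : (fun k => if i = k then (1 : ZMod 2) else 0) = Pi.single i 1 := by
      funext k
      rw [Pi.single_apply]
      simp only [eq_comm]
    rw [smul_eq_mul, h3]
  refine ⟨fun j i => f j (Pi.single i 1), ?_, ?_⟩
  · intro j x hx
    rw [hf]
    have h0 : M.mkQ x = 0 := (Submodule.Quotient.mk_eq_zero M).2 hx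
    have h1 : f j x = (g (M.mkQ x)) j := rfl
    rw [h1, h0, map_zero, Finsupp.zero_apply]
  · intro i j
    rw [hf]
    have h1 : f j (c i) = (g (M.mkQ (c i))) j := rfl
    rw [h1, hg', Finsupp.single_apply]

/-- invariance of a function of the values on a subspace -/
lemma vec_inv (M : Submodule (ZMod 2) (Fin s → ZMod 2)) (l : Fin r → Fin s → ZMod 2)
    (hl : ∀ i, ∀ x ∈ M, x ⬝ᵥ l i = 0) (X : Matrix (Fin s) (Fin n) (ZMod 2))
    (x : Matrix (Fin r) (Fin n) (ZMod 2)) {c : Fin s → ZMod 2} (hc : c ∈ M) :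
    c ᵥ* (X + tens l x) = c ᵥ* X := by
  rw [vec_tens]
  have : (fun i => c ⬝ᵥ l i) = 0 := funext fun i => hl i c hc
  rw [this, Matrix.zero_vecMul, add_zero]

/-- the rank and functionals -/
lemma rank_le_of (M : Submodule (ZMod 2) (Fin s → ZMod 2)) (Y : Matrix (Fin s) (Fin n) (ZMod 2))
    (h : ∀ l : Fin s → ZMod 2, (∀ x ∈ M, x ⬝ᵥ l = 0) → l ᵥ* Y = 0) :
    Y.rank ≤ finrank (ZMod 2) M := by
  classical
  obtain ⟨J, -, hJ1, -, hJ2⟩ := exists_sel M (fun i : Fin s => (Pi.single i 1 : Fin s → ZMod 2)) univ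
  have htop : M ⊔ Submodule.span (ZMod 2) ((fun i : Fin s => (Pi.single i 1 : Fin s → ZMod 2)) ''
      ((univ : Finset (Fin s)) : Set (Fin s))) = ⊤ := by
    rw [eq_top_iff]
    refine le_trans ?_ le_sup_right
    intro x _
    have : x = ∑ i, x i • (Pi.single i 1 : Fin s → ZMod 2) := by
      funext t
      simp [Finset.sum_apply, Pi.single_apply]
    rw [this]
    refine Submodule.sum_mem _ fun i _ => Submodule.smul_mem _ _ (Submodule.subset_span ?_)
    exact ⟨i, by simp, rfl⟩
  rw [htop, finrank_top, Module.finrank_fin_fun] at hJ2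
  let e : Fin J.card ≃ J := (Fintype.equivFinOfCardEq (by simp)).symm
  obtain ⟨l, hl1, hl2⟩ := exists_dual M
    (fun i => (Pi.single ((e i : J) : Fin s) 1 : Fin s → ZMod 2)) (hJ1.comp e e.injective)
  -- the functionals are independent
  have hli : LinearIndependent (ZMod 2) l := by
    rw [Fintype.linearIndependent_iff]
    intro g hg i
    have h1 := congrArg (fun v => (Pi.single ((e i : J) : Fin s) 1 : Fin s → ZMod 2) ⬝ᵥ v) hg
    simp only [dotProduct_sum, dotProduct_smul, dotProduct_zero, hl2, smul_eq_mul] at h1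
    simpa using h1
  have hker : ∀ i, l i ∈ LinearMap.ker (Matrix.vecMulLinear Y) := by
    intro i
    rw [LinearMap.mem_ker, Matrix.vecMulLinear_apply]
    exact h _ (hl1 i)
  have h2 : J.card ≤ finrank (ZMod 2) (LinearMap.ker (Matrix.vecMulLinear Y)) := by
    have h3 : LinearIndependent (ZMod 2)
        (fun i => (⟨l i, hker i⟩ : LinearMap.ker (Matrix.vecMulLinear Y))) :=
      LinearIndependent.of_comp (LinearMap.ker (Matrix.vecMulLinear Y)).subtype hli
    have := h3.fintype_card_le_finrank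
    rwa [Fintype.card_fin] at this
  have h4 := LinearMap.finrank_range_add_finrank_ker (Matrix.vecMulLinear Y)
  rw [Module.finrank_fin_fun] at h4
  have h5 : Y.rank = finrank (ZMod 2) (LinearMap.range (Matrix.vecMulLinear Y)) := by
    rw [← Matrix.rank_transpose]
    unfold Matrix.rank
    rw [Matrix.mulVecLin_transpose]
  omega

end Pool.Agent.N381.UG
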