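import Mathlib
import Pool.Agent.N381.UG.Lin

/-!
N381/UG (helper381, MP_0430e4_lc): the Fourier bound for forms of small nullity.
-/

set_option autoImplicit false
set_option linter.unusedSectionVars false

namespace Pool.Agent.N381.UG

open Finset Matrix Module
open Pool.Agent.N381.LH

variable {s n r k ρ : ℕ}

/-- the Fourier coefficients of a function on words -/
noncomputable def hatv (h : (Fin n → ZMod 2) → ℝ) (y : Fin n → ZMod 2) : ℝ :=
  av fun x => h x * sg (x ⬝ᵥ y)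

/-- the Fourier coefficients of a function on matrices -/
noncomputable def Hh (H : Matrix (Fin k) (Fin n) (ZMod 2) → ℝ) (z : Matrix (Fin k) (Fin n) (ZMod 2)) :
    ℝ := av fun w => H w * ch w z

lemma eq_of_add_eq_zero {X Y : Matrix (Fin k) (Fin n) (ZMod 2)} (h : X + Y = 0) : X = Y := by
  calc X = X + (Y + Y) := by rw [add_self, add_zero]
    _ = (X + Y) + Y := by rw [add_assoc]
    _ = Y := by rw [h, zero_add]

lemma inv_H (H : Matrix (Fin k) (Fin n) (ZMod 2) → ℝ) (w : Matrix (Fin k) (Fin n) (ZMod 2)) :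
    H w = ∑ z, Hh H z * ch w z := by
  unfold Hh
  have h1 : ∑ z, (av fun w' => H w' * ch w' z) * ch w z =
      av fun w' => H w' * ∑ z : Matrix (Fin k) (Fin n) (ZMod 2), ch z (w' + w) := by
    simp_rw [← av_mul_right]
    rw [← av_sum]
    refine congrArg av (funext fun w' => ?_)
    rw [Finset.mul_sum]
    refine Finset.sum_congr rfl fun z _ => ?_
    rw [ch_add_right, ch_comm z w', ch_comm z w]
    ring
  rw [h1]
  have hc : (Fintype.card (Matrix (Fin k) (Fin n) (ZMod 2)) : ℝ) ≠ 0 := by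
    exact_mod_cast Fintype.card_ne_zero
  unfold av
  rw [Finset.sum_eq_single w]
  · rw [sum_ch, if_pos (add_self w)]
    field_simp
  · intro b _ hb
    rw [sum_ch, if_neg (fun h => hb (eq_of_add_eq_zero h)), mul_zero]
  · intro h
    exact absurd (Finset.mem_univ _) h

lemma parseval_H (H : Matrix (Fin k) (Fin n) (ZMod 2) → ℝ) :
    ∑ z, Hh H z ^ 2 = av fun w => H w ^ 2 := by
  have h1 : (av fun w => H w ^ 2) = av fun w => ∑ z, Hh H z * (H w * ch w z) := by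
    refine congrArg av (funext fun w => ?_)
    conv_lhs => rw [sq]
    conv_lhs =>
      arg 2
      rw [inv_H H w]
    rw [Finset.mul_sum]
    exact Finset.sum_congr rfl fun z _ => by ring
  rw [h1, av_sum]
  refine Finset.sum_congr rfl fun z _ => ?_
  rw [av_mul_left, sq]
  rfl

/-- words as matrices with one row -/
lemma parseval_v (h : (Fin n → ZMod 2) → ℝ) : ∑ y, hatv h y ^ 2 = av fun x => h x ^ 2 := by
  have e1 : ∀ z : Matrix (Fin 1) (Fin n) (ZMod 2),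
      Hh (fun w : Matrix (Fin 1) (Fin n) (ZMod 2) => h (w 0)) z = hatv h (z 0) := by
    intro z
    unfold Hh hatv
    rw [← av_equiv (Equiv.funUnique (Fin 1) (Fin n → ZMod 2)) (fun x => h x * sg (x ⬝ᵥ z 0))]
    refine congrArg av (funext fun w => ?_)
    unfold ch pr
    rw [Fin.sum_univ_one]
    rfl
  have h1 := parseval_H (fun w : Matrix (Fin 1) (Fin n) (ZMod 2) => h (w 0))
  rw [Finset.sum_congr rfl fun z _ => by rw [e1 z]] at h1
  have h2 : ∑ z : Matrix (Fin 1) (Fin n) (ZMod 2), hatv h (z 0) ^ 2 = ∑ y, hatv h y ^ 2 :=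
    Equiv.sum_comp (Equiv.funUnique (Fin 1) (Fin n → ZMod 2)) (fun y => hatv h y ^ 2)
  have h3 : (av fun w : Matrix (Fin 1) (Fin n) (ZMod 2) => h (w 0) ^ 2) = av fun x => h x ^ 2 :=
    av_equiv (Equiv.funUnique (Fin 1) (Fin n → ZMod 2)) (fun x => h x ^ 2)
  rw [← h2, h1, h3]

lemma ch_prod (x m : Matrix (Fin ρ) (Fin n) (ZMod 2)) : ch x m = ∏ i, sg (x i ⬝ᵥ m i) := by
  unfold ch pr
  rw [sg_sum]
  rfl

/-- **The expansion.** -/
lemma expand (C : Matrix (Fin k) (Fin ρ) (ZMod 2)) (h : Fin ρ → (Fin n → ZMod 2) → ℝ)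
    (H : Matrix (Fin k) (Fin n) (ZMod 2) → ℝ) :
    (av fun x : Matrix (Fin ρ) (Fin n) (ZMod 2) => (∏ i, h i (x i)) * H (C * x)) =
      ∑ z, Hh H z * ∏ i, hatv (h i) ((Cᵀ * z) i) := by
  have h1 : ∀ x : Matrix (Fin ρ) (Fin n) (ZMod 2), (∏ i, h i (x i)) * H (C * x) =
      ∑ z, Hh H z * ∏ i, (h i (x i) * sg (x i ⬝ᵥ (Cᵀ * z) i)) := by
    intro x
    rw [inv_H H (C * x), Finset.mul_sum]
    refine Finset.sum_congr rfl fun z _ => ?_
    rw [ch_mul, ch_prod, Finset.prod_mul_distrib]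
    ring
  rw [congrArg av (funext h1), av_sum]
  refine Finset.sum_congr rfl fun z _ => ?_
  rw [av_mul_left]
  congr 1
  exact av_prod_pi fun i x => h i x * sg (x ⬝ᵥ (Cᵀ * z) i)

/-- sums over an injective family of coordinates -/
lemma inj_sum (d : Fin ρ → Fin k → ZMod 2) (J : Finset (Fin ρ))
    (hJ : Submodule.span (ZMod 2) (d '' (J : Set (Fin ρ))) = ⊤)
    (g : Fin ρ → (Fin n → ZMod 2) → ℝ) (hg : ∀ i y, 0 ≤ g i y)
    (K : Fin ρ → Finset (Fin n → ZMod 2)) (Z : Finset (Matrix (Fin k) (Fin n) (ZMod 2)))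
    (hZ : ∀ z ∈ Z, ∀ i ∈ J, d i ᵥ* z ∈ K i) :
    ∑ z ∈ Z, ∏ i ∈ J, g i (d i ᵥ* z) ≤ ∏ i ∈ J, ∑ y ∈ K i, g i y := by
  classical
  rw [← Finset.prod_coe_sort J (fun i => ∑ y ∈ K i, g i y)]
  have h1 := Finset.prod_univ_sum (fun i : J => K i) (fun i y => g (i : Fin ρ) y)
  rw [h1]
  let φ : Matrix (Fin k) (Fin n) (ZMod 2) → (J → (Fin n → ZMod 2)) := fun z i => d i ᵥ* z
  have hφ : Function.Injective φ := by
    intro z z' hzz
    have h2 : ∀ a : Fin k → ZMod 2, a ᵥ* z = a ᵥ* z' := by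
      have h3 : (⊤ : Submodule (ZMod 2) (Fin k → ZMod 2)) ≤
          LinearMap.ker (Matrix.vecMulLinear z - Matrix.vecMulLinear z') := by
        rw [← hJ, Submodule.span_le]
        rintro _ ⟨i, hi, rfl⟩
        rw [SetLike.mem_coe, LinearMap.mem_ker, LinearMap.sub_apply, Matrix.vecMulLinear_apply,
          Matrix.vecMulLinear_apply, sub_eq_zero]
        exact congrFun hzz ⟨i, hi⟩
      intro a
      have h4 := h3 (Submodule.mem_top : a ∈ _)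
      rwa [LinearMap.mem_ker, LinearMap.sub_apply, Matrix.vecMulLinear_apply,
          Matrix.vecMulLinear_apply, sub_eq_zero] at h4
    funext i
    have := h2 (Pi.single i 1)
    rwa [Matrix.single_one_vecMul, Matrix.single_one_vecMul] at this
  have h2 : ∀ z, ∏ i ∈ J, g i (d i ᵥ* z) = ∏ i : J, g i (φ z i) := by
    intro z
    rw [← Finset.prod_coe_sort J]
  rw [Finset.sum_congr rfl fun z _ => h2 z]
  have h3 : ∑ z ∈ Z, ∏ i : J, g i (φ z i) = ∑ p ∈ Z.image φ, ∏ i : J, g i (p i) := by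
    rw [Finset.sum_image fun a _ b _ h => hφ h]
  rw [h3]
  refine Finset.sum_le_sum_of_subset_of_nonneg ?_ fun p _ _ =>
    Finset.prod_nonneg fun _ _ => hg _ _
  intro p hp
  obtain ⟨z, hz, rfl⟩ := Finset.mem_image.1 hp
  exact Fintype.mem_piFinset.2 fun i => hZ z hz i i.2

lemma span_cols (C : Matrix (Fin k) (Fin ρ) (ZMod 2)) (hC : LinearIndependent (ZMod 2) C.row) :
    Submodule.span (ZMod 2) (Cᵀ '' ((univ : Finset (Fin ρ)) : Set (Fin ρ))) = ⊤ := by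
  obtain ⟨D, hD⟩ := exists_right_inv C hC
  rw [eq_top_iff]
  intro a _
  have h1 : (a ᵥ* Dᵀ) ᵥ* Cᵀ = a := by
    rw [Matrix.vecMul_vecMul, ← Matrix.transpose_mul, hD, Matrix.transpose_one, Matrix.vecMul_one]
  rw [← h1, Matrix.vecMul_eq_sum]
  refine Submodule.sum_mem _ fun i _ => Submodule.smul_mem _ _ (Submodule.subset_span ?_)
  exact ⟨i, by simp, rfl⟩

/-- **The Fourier bound.** -/
lemma four (C : Matrix (Fin k) (Fin ρ) (ZMod 2)) (hC : LinearIndependent (ZMod 2) C.row)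
    (h : Fin ρ → (Fin n → ZMod 2) → ℝ) (H : Matrix (Fin k) (Fin n) (ZMod 2) → ℝ) {β b : ℝ}
    (hβ : ∀ i y, |hatv (h i) y| ≤ β) (hb : ∀ i, (av fun x => h i x ^ 2) ≤ b) (hb0 : 0 ≤ b)
    (hH : (av fun w => H w ^ 2) ≤ b ^ k) :
    k ≤ ρ ∧ |av fun x : Matrix (Fin ρ) (Fin n) (ZMod 2) => (∏ i, h i (x i)) * H (C * x)| ≤
      β ^ (ρ - k) * b ^ k := by
  classical
  obtain ⟨J, -, -, hJ1, hJ2⟩ := exists_sel (⊥ : Submodule (ZMod 2) (Fin k → ZMod 2)) Cᵀ univ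
  rw [bot_sup_eq, bot_sup_eq, span_cols C hC] at hJ1
  rw [bot_sup_eq, span_cols C hC, finrank_top, Module.finrank_fin_fun, finrank_bot, zero_add] at hJ2
  have hkρ : k ≤ ρ := by
    rw [hJ2]
    simpa using Finset.card_le_univ J
  refine ⟨hkρ, ?_⟩
  rw [expand]
  have hβ0 : ∀ i : Fin ρ, 0 ≤ β := fun i => (abs_nonneg _).trans (hβ i 0)
  have e1 : |∑ z, Hh H z * ∏ i, hatv (h i) ((Cᵀ * z) i)| ≤
      β ^ (ρ - k) * ∑ z, |Hh H z| * ∏ i ∈ J, |hatv (h i) (Cᵀ i ᵥ* z)| := by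
    rw [Finset.mul_sum]
    refine (Finset.abs_sum_le_sum_abs _ _).trans (Finset.sum_le_sum fun z _ => ?_)
    rw [abs_mul, Finset.abs_prod]
    have h2 : ∏ i, |hatv (h i) ((Cᵀ * z) i)| =
        (∏ i ∈ J, |hatv (h i) (Cᵀ i ᵥ* z)|) * ∏ i ∈ Jᶜ, |hatv (h i) (Cᵀ i ᵥ* z)| := by
      rw [Finset.prod_mul_prod_compl]
      rfl
    rw [h2]
    have h3 : ∏ i ∈ Jᶜ, |hatv (h i) (Cᵀ i ᵥ* z)| ≤ β ^ (ρ - k) := by
      refine (Finset.prod_le_prod (fun _ _ => abs_nonneg _) fun i _ => hβ i _).trans ?_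
      rw [Finset.prod_const, Finset.card_compl, Fintype.card_fin, ← hJ2]
    have h4 : 0 ≤ ∏ i ∈ J, |hatv (h i) (Cᵀ i ᵥ* z)| := Finset.prod_nonneg fun _ _ => abs_nonneg _
    calc |Hh H z| * ((∏ i ∈ J, |hatv (h i) (Cᵀ i ᵥ* z)|) * ∏ i ∈ Jᶜ, |hatv (h i) (Cᵀ i ᵥ* z)|) ≤
        |Hh H z| * ((∏ i ∈ J, |hatv (h i) (Cᵀ i ᵥ* z)|) * β ^ (ρ - k)) := by
          refine mul_le_mul_of_nonneg_left (mul_le_mul_of_nonneg_left h3 h4) (abs_nonneg _)
      _ = _ := by ring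
  refine e1.trans ?_
  have hβp : 0 ≤ β ^ (ρ - k) := by
    rcases Nat.eq_zero_or_pos ρ with h0 | h0
    · have : ρ - k = 0 := by omega
      rw [this, pow_zero]
      exact zero_le_one
    · exact pow_nonneg (hβ0 ⟨0, h0⟩) _
  refine mul_le_mul_of_nonneg_left ?_ hβp
  have e2 : (∑ z, |Hh H z| * ∏ i ∈ J, |hatv (h i) (Cᵀ i ᵥ* z)|) ^ 2 ≤
      (∑ z, |Hh H z| ^ 2) * ∑ z, (∏ i ∈ J, |hatv (h i) (Cᵀ i ᵥ* z)|) ^ 2 :=
    Finset.sum_mul_sq_le_sq_mul_sq _ _ _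
  have e3 : ∑ z, |Hh H z| ^ 2 ≤ b ^ k := by
    simp_rw [sq_abs]
    rw [parseval_H]
    exact hH
  have e4 : ∑ z, (∏ i ∈ J, |hatv (h i) (Cᵀ i ᵥ* z)|) ^ 2 ≤ b ^ k := by
    have h2 : ∀ z : Matrix (Fin k) (Fin n) (ZMod 2), (∏ i ∈ J, |hatv (h i) (Cᵀ i ᵥ* z)|) ^ 2 =
        ∏ i ∈ J, hatv (h i) (Cᵀ i ᵥ* z) ^ 2 := by
      intro z
      rw [← Finset.prod_pow]
      exact Finset.prod_congr rfl fun i _ => sq_abs _
    rw [Finset.sum_congr rfl fun z _ => h2 z]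
    refine (inj_sum Cᵀ J hJ1.symm (fun i y => hatv (h i) y ^ 2) (fun _ _ => sq_nonneg _)
      (fun _ => univ) univ (fun _ _ _ _ => Finset.mem_univ _)).trans ?_
    refine (Finset.prod_le_prod (fun _ _ => Finset.sum_nonneg fun _ _ => sq_nonneg _)
      fun i _ => ?_).trans (le_of_eq (?_ : ∏ i ∈ J, b = b ^ k))
    · rw [parseval_v]
      exact hb i
    · rw [Finset.prod_const, ← hJ2]
  have e5 : 0 ≤ ∑ z, |Hh H z| * ∏ i ∈ J, |hatv (h i) (Cᵀ i ᵥ* z)| :=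
    Finset.sum_nonneg fun _ _ => mul_nonneg (abs_nonneg _) (Finset.prod_nonneg fun _ _ => abs_nonneg _)
  have e6 : (∑ z, |Hh H z| * ∏ i ∈ J, |hatv (h i) (Cᵀ i ᵥ* z)|) ^ 2 ≤ (b ^ k) ^ 2 := by
    refine e2.trans ?_
    rw [sq (b ^ k)]
    exact mul_le_mul e3 e4 (Finset.sum_nonneg fun _ _ => sq_nonneg _) (by positivity)
  exact (pow_le_pow_iff_left₀ e5 (by positivity) two_ne_zero).1 e6

end Pool.Agent.N381.UG
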