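import Mathlib
import Pool.Agent.N381.UG.Four

/-!
N381/UG (helper381, MP_0430e4_lc): the data, and the physical bound for minimal dense forms.
-/

set_option autoImplicit false
set_option linter.unusedSectionVars false

namespace Pool.Agent.N381.UG

open Finset Matrix Module
open Pool.Agent.N381.LH

variable {s n r k ρ : ℕ}

/-- indicator -/
def ind (S : Finset (Fin n → ZMod 2)) (x : Fin n → ZMod 2) : ℝ := if x ∈ S then 1 else 0

lemma ind_nonneg (S : Finset (Fin n → ZMod 2)) (x : Fin n → ZMod 2) : 0 ≤ ind S x := by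
  unfold ind
  split_ifs <;> norm_num

lemma ind_le (S : Finset (Fin n → ZMod 2)) (x : Fin n → ZMod 2) : ind S x ≤ 1 := by
  unfold ind
  split_ifs <;> norm_num

lemma ind_sq (S : Finset (Fin n → ZMod 2)) (x : Fin n → ZMod 2) : ind S x ^ 2 = ind S x := by
  unfold ind
  split_ifs <;> norm_num

/-- the data: a set `B` (the ball), a small subset `T`, a function `f` equal to `1` on `B`, and a
set of frequencies `Lo`. -/
structure Dat (n : ℕ) (P Z v : ℝ) (f : (Fin n → ZMod 2) → ℝ)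
    (B T Lo : Finset (Fin n → ZMod 2)) : Prop where
  hP : 0 < P
  hv0 : 0 < v
  hv1 : v ≤ 1
  hZ : 1 ≤ Z
  hvZ : 1 ≤ v * Z
  hPZ : P * Z ^ 40 ≤ 1
  zT : 0 ∈ T
  TB : T ⊆ B
  fB : ∀ x ∈ B, f x = 1
  f1 : ∀ x, |f x| ≤ 1
  fo : ∀ x, x ∉ B → |f x| ≤ P * Z
  fh : ∀ y, |hatv f y| ≤ P * v ^ 3
  cB : av (ind B) ≤ P
  cT : av (ind T) ≤ P / Z ^ 40
  sh : ∀ w, w ∉ T → (av fun x => ind B x * ind B (x + w)) ≤ P * v
  cL : (Lo.card : ℝ) ≤ Z
  bh : ∀ y, y ∉ Lo → |hatv (ind B) y| ≤ P * v ^ 3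

variable {P Z v : ℝ} {f : (Fin n → ZMod 2) → ℝ} {B T Lo : Finset (Fin n → ZMod 2)}

lemma Dat.Zv (D : Dat n P Z v f B T Lo) : 1 / Z ≤ v := by
  have hZ : 0 < Z := by linarith [D.hZ]
  rw [div_le_iff₀ hZ]
  exact D.hvZ

/-- `P * Z ≤ v ^ 39` -/
lemma Dat.PZv (D : Dat n P Z v f B T Lo) : P * Z ≤ v ^ 39 := by
  have hZ : 0 < Z := by linarith [D.hZ]
  have h1 : P * Z ≤ (1 / Z) ^ 39 := by
    rw [div_pow, one_pow, le_div_iff₀ (by positivity)]
    calc P * Z * Z ^ 39 = P * Z ^ 40 := by ring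
      _ ≤ 1 := D.hPZ
  exact h1.trans (pow_le_pow_left₀ (by positivity) D.Zv 39)

lemma Dat.PZ1 (D : Dat n P Z v f B T Lo) : P * Z ≤ 1 :=
  D.PZv.trans (pow_le_one₀ D.hv0.le D.hv1)

lemma Dat.PPZ (D : Dat n P Z v f B T Lo) : P ≤ P * Z :=
  le_mul_of_one_le_right D.hP.le D.hZ

lemma Dat.P1 (D : Dat n P Z v f B T Lo) : P ≤ 1 := D.PPZ.trans D.PZ1

lemma hatv_shift (h : (Fin n → ZMod 2) → ℝ) (a y : Fin n → ZMod 2) :
    |hatv (fun x => h (x + a)) y| = |hatv h y| := by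
  have h1 : hatv (fun x => h (x + a)) y = sg (a ⬝ᵥ y) * hatv h y := by
    unfold hatv
    rw [← av_mul_left, ← av_add_right a (fun x => sg (a ⬝ᵥ y) * (h x * sg (x ⬝ᵥ y)))]
    refine congrArg av (funext fun x => ?_)
    rw [add_dotProduct, sg_add]
    have := sg_sq (a ⬝ᵥ y)
    linear_combination (-(h (x + a) * sg (x ⬝ᵥ y))) * this
  rw [h1, abs_mul, sg_abs, one_mul]

lemma hatv_le_av (h : (Fin n → ZMod 2) → ℝ) (y : Fin n → ZMod 2) :
    |hatv h y| ≤ av fun x => |h x| := by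
  unfold hatv
  refine (abs_av_le _).trans (le_of_eq ?_)
  refine congrArg av (funext fun x => ?_)
  rw [abs_mul, sg_abs, mul_one]

/-- the dimension of a coordinate subspace plus a row space -/
lemma finrank_row_le {e : ℕ} (C : Matrix (Fin k) (Fin e) (ZMod 2)) (R I' I2 : Finset (Fin e))
    (hR : R = I'ᶜ) (h2I : I2 ⊆ I') (hI : Submodule.span (ZMod 2) (Cᵀ '' (I' : Set (Fin e))) =
      Submodule.span (ZMod 2) (Cᵀ '' (I2 : Set (Fin e)))) :
    finrank (ZMod 2) (Submodule.span (ZMod 2)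
      ((fun i : Fin e => (Pi.single i 1 : Fin e → ZMod 2)) '' (R : Set (Fin e))) ⊔
      Submodule.span (ZMod 2) (Set.range C.row) : Submodule (ZMod 2) (Fin e → ZMod 2)) ≤
      R.card + I2.card := by
  classical
  obtain ⟨M, hM⟩ : ∃ M : Submodule (ZMod 2) (Fin e → ZMod 2), M = Submodule.span (ZMod 2)
      ((fun i : Fin e => (Pi.single i 1 : Fin e → ZMod 2)) '' (R : Set (Fin e))) ⊔
      Submodule.span (ZMod 2) (Set.range C.row) := ⟨_, rfl⟩
  rw [← hM]
  have hy00 : ∀ y ∈ Submodule.span (ZMod 2)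
      ((fun i : Fin e => (Pi.single i 1 : Fin e → ZMod 2)) '' (R : Set (Fin e))),
      ∀ i, i ∉ R → y i = 0 := by
    intro y hy i hi
    induction hy using Submodule.span_induction with
    | mem w hw =>
      obtain ⟨j, hj, rfl⟩ := hw
      refine Pi.single_eq_of_ne ?_ _
      rintro rfl
      exact hi hj
    | zero => rfl
    | add a b _ _ ha hb => rw [Pi.add_apply, ha, hb, add_zero]
    | smul c a _ ha => rw [Pi.smul_apply, ha, smul_zero]
  have hker : ∀ x ∈ M, (∀ i ∈ I2 ∪ R, x i = 0) → x = 0 := by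
    intro x hx h0
    rw [hM] at hx
    obtain ⟨y, hy, z, hz, rfl⟩ := Submodule.mem_sup.1 hx
    have hy0 := hy00 y hy
    obtain ⟨c, hc⟩ := (Submodule.mem_span_range_iff_exists_fun (ZMod 2)).1 hz
    have hz0 : ∀ i, z i = c ⬝ᵥ Cᵀ i := by
      intro i
      rw [← hc, Finset.sum_apply]
      rfl
    have hI2 : ∀ i ∈ I2, c ⬝ᵥ Cᵀ i = 0 := by
      intro j hj
      have hjR : j ∉ R := by
        rw [hR]
        exact fun h => Finset.mem_compl.1 h (h2I hj)
      rw [← hz0]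
      have h2 := h0 j (Finset.mem_union_left _ hj)
      rwa [Pi.add_apply, hy0 j hjR, zero_add] at h2
    have hI3 : ∀ w ∈ Submodule.span (ZMod 2) (Cᵀ '' (I2 : Set (Fin e))), c ⬝ᵥ w = 0 := by
      intro w hw
      induction hw using Submodule.span_induction with
      | mem w hw =>
        obtain ⟨j, hj, rfl⟩ := hw
        exact hI2 j hj
      | zero => exact dotProduct_zero _
      | add a b _ _ ha hb => rw [dotProduct_add, ha, hb, add_zero]
      | smul t a _ ha => rw [dotProduct_smul, ha, smul_zero]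
    have hI0 : ∀ i ∈ I', c ⬝ᵥ Cᵀ i = 0 := by
      intro i hi
      refine hI3 _ ?_
      rw [← hI]
      exact Submodule.subset_span ⟨i, hi, rfl⟩
    funext i
    by_cases hi : i ∈ R
    · exact h0 i (Finset.mem_union_right _ hi)
    · rw [Pi.add_apply, hy0 i hi, zero_add, hz0]
      refine (hI0 i ?_).trans rfl
      by_contra h
      exact hi (hR ▸ Finset.mem_compl.2 h)
  let g : M →ₗ[ZMod 2] ((I2 ∪ R : Finset (Fin e)) → ZMod 2) :=
    (LinearMap.funLeft (ZMod 2) (ZMod 2) (fun i : (I2 ∪ R : Finset (Fin e)) => (i : Fin e))).comp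
      M.subtype
  have hg : Function.Injective g := by
    rw [← LinearMap.ker_eq_bot, LinearMap.ker_eq_bot']
    intro x hx
    apply Subtype.ext
    refine hker x x.2 fun i hi => ?_
    exact congrFun hx ⟨i, hi⟩
  have h1 := LinearMap.finrank_le_finrank_of_injective hg
  rw [Module.finrank_fintype_fun_eq_card, Fintype.card_coe] at h1
  refine h1.trans ((Finset.card_union_le _ _).trans ?_)
  omega

/-- a coordinate subspace plus a row space -/
def MR {e : ℕ} (C : Matrix (Fin k) (Fin e) (ZMod 2)) (R : Finset (Fin e)) :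
    Submodule (ZMod 2) (Fin e → ZMod 2) :=
  Submodule.span (ZMod 2)
      ((fun i : Fin e => (Pi.single i 1 : Fin e → ZMod 2)) '' (R : Set (Fin e))) ⊔
      Submodule.span (ZMod 2) (Set.range C.row)

lemma av_ind_shift (S : Finset (Fin n → ZMod 2)) (a : Fin n → ZMod 2) :
    av (fun x => ind S (x + a)) = av (ind S) := av_add_right a (ind S)

lemma low_num {e k i2 i3 ip rr : ℕ} (he : 2 ≤ e) (hk : k = e / 9 + 1) (h1 : ip + rr = e)
    (h2 : i2 ≤ ip) (h3 : i3 ≤ rr) (h4 : k = i2 + i3)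
    (h5 : e ≤ rr + i2 ∨ 8 * (rr + k) ≤ 9 * (rr + i2)) : 2 * e ≤ 39 * i2 + 6 * (rr - i3) := by
  rcases h5 with h5 | h5 <;> omega

lemma span_img_union {e : ℕ} (d : Fin e → Fin k → ZMod 2) (A A' : Finset (Fin e)) :
    Submodule.span (ZMod 2) (d '' ((A ∪ A' : Finset (Fin e)) : Set (Fin e))) =
      Submodule.span (ZMod 2) (d '' (A : Set (Fin e))) ⊔
        Submodule.span (ZMod 2) (d '' (A' : Set (Fin e))) := by
  rw [Finset.coe_union, Set.image_union, Submodule.span_union]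

/-- **The physical bound for minimal dense forms of rank at least two.** -/
lemma low_bound (D : Dat n P Z v f B T Lo) {e k : ℕ} (he : 2 ≤ e) (hk : k = e / 9 + 1)
    (C : Matrix (Fin k) (Fin e) (ZMod 2)) (hC : LinearIndependent (ZMod 2) C.row)
    (hered : ∀ R : Finset (Fin e), MR C R ≠ ⊤ →
      8 * (R.card + k) ≤ 9 * finrank (ZMod 2) (MR C R))
    (a : Fin e → Fin n → ZMod 2) (w : Fin k → Fin n → ZMod 2) :
    (av fun x : Matrix (Fin e) (Fin n) (ZMod 2) =>
      (∏ i, ind B (x i + a i)) * ∏ q, ind B ((C * x) q + w q)) ≤ 2 ^ e * (P * v) ^ e := by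
  classical
  have hP := D.hP
  have hv := D.hv0
  have hZ : 0 < Z := by linarith [D.hZ]
  obtain ⟨bB, hbB⟩ : ∃ bB : (Fin n → ZMod 2) → ℝ, bB = fun y => |hatv (ind B) y| := ⟨_, rfl⟩
  have hb0 : ∀ y, 0 ≤ bB y := fun y => by rw [hbB]; exact abs_nonneg _
  have hbP : ∀ y, bB y ≤ P := by
    intro y
    rw [hbB]
    refine (hatv_le_av _ _).trans (le_trans (le_of_eq ?_) D.cB)
    exact congrArg av (funext fun x => abs_of_nonneg (ind_nonneg B x))
  have hbL : ∀ y, y ∉ Lo → bB y ≤ P * v ^ 3 := by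
    intro y hy
    rw [hbB]
    exact D.bh y hy
  have hsq : ∑ y, bB y ^ 2 ≤ P := by
    rw [hbB]
    simp_rw [sq_abs]
    rw [parseval_v]
    refine le_trans (le_of_eq ?_) D.cB
    exact congrArg av (funext fun x => ind_sq B x)
  have hsqL : ∑ y ∈ Lo, bB y ^ 2 ≤ Z * P ^ 2 := by
    refine (Finset.sum_le_sum fun y _ => pow_le_pow_left₀ (hb0 y) (hbP y) 2).trans ?_
    rw [Finset.sum_const, nsmul_eq_mul]
    exact mul_le_mul_of_nonneg_right D.cL (by positivity)
  obtain ⟨H, hH⟩ : ∃ H : Matrix (Fin k) (Fin n) (ZMod 2) → ℝ,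
    H = fun w' => ∏ q, ind B (w' q + w q) := ⟨_, rfl⟩
  have hHP : ∑ z, |Hh H z| ^ 2 ≤ P ^ k := by
    simp_rw [sq_abs]
    rw [parseval_H]
    have h1 : ∀ w', H w' ^ 2 = ∏ q, ind B (w' q + w q) := by
      intro w'
      rw [hH]
      simp only
      rw [← Finset.prod_pow]
      exact Finset.prod_congr rfl fun q _ => ind_sq B _
    rw [congrArg av (funext h1)]
    have h2 := av_prod_pi (α := Fin n → ZMod 2) (fun (q : Fin k) x => ind B (x + w q))
    refine (le_of_eq (h2 : _)).trans ?_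
    refine (Finset.prod_le_prod (fun _ _ => av_nonneg fun _ => ind_nonneg _ _) fun q _ => ?_).trans
      (le_of_eq (?_ : ∏ q : Fin k, P = P ^ k))
    · rw [av_ind_shift]
      exact D.cB
    · rw [Finset.prod_const, Finset.card_univ, Fintype.card_fin]
  have hd : ∀ i y, |hatv (fun x => ind B (x + a i)) y| = bB y := by
    intro i y
    rw [hbB]
    exact hatv_shift (ind B) (a i) y
  have e0 : (av fun x : Matrix (Fin e) (Fin n) (ZMod 2) =>
      (∏ i, ind B (x i + a i)) * ∏ q, ind B ((C * x) q + w q)) ≤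
      ∑ z, |Hh H z| * ∏ i, bB (Cᵀ i ᵥ* z) := by
    have h1 := expand C (fun i x => ind B (x + a i)) H
    rw [hH] at h1
    simp only at h1
    rw [h1, ← hH]
    refine (le_abs_self _).trans ((Finset.abs_sum_le_sum_abs _ _).trans
      (le_of_eq (Finset.sum_congr rfl fun z _ => ?_)))
    rw [abs_mul, Finset.abs_prod]
    congr 1
    exact Finset.prod_congr rfl fun i _ => hd i _
  refine e0.trans ?_
  rw [← Finset.sum_fiberwise univ (fun z => univ.filter fun i => Cᵀ i ᵥ* z ∈ Lo)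
    (fun z => |Hh H z| * ∏ i, bB (Cᵀ i ᵥ* z))]
  have key : ∀ I' : Finset (Fin e), ∑ z ∈ univ.filter (fun z : Matrix (Fin k) (Fin n) (ZMod 2) =>
      (univ.filter fun i => Cᵀ i ᵥ* z ∈ Lo) = I'), |Hh H z| * ∏ i, bB (Cᵀ i ᵥ* z) ≤
        (P * v) ^ e := by
    intro I'
    obtain ⟨Zs, hZs⟩ : ∃ Zs, Zs = univ.filter (fun z : Matrix (Fin k) (Fin n) (ZMod 2) =>
      (univ.filter fun i => Cᵀ i ᵥ* z ∈ Lo) = I') := ⟨_, rfl⟩
    rw [← hZs]
    have hZs1 : ∀ z ∈ Zs, ∀ i ∈ I', Cᵀ i ᵥ* z ∈ Lo := by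
      intro z hz i hi
      rw [hZs] at hz
      rw [← (Finset.mem_filter.1 hz).2] at hi
      exact (Finset.mem_filter.1 hi).2
    have hZs2 : ∀ z ∈ Zs, ∀ i ∈ I'ᶜ, Cᵀ i ᵥ* z ∉ Lo := by
      intro z hz i hi h
      rw [hZs] at hz
      apply Finset.mem_compl.1 hi
      rw [← (Finset.mem_filter.1 hz).2]
      exact Finset.mem_filter.2 ⟨Finset.mem_univ _, h⟩
    obtain ⟨I2, h2I, -, hs2, hc2⟩ := exists_sel (⊥ : Submodule (ZMod 2) (Fin k → ZMod 2)) Cᵀ I'
    rw [bot_sup_eq, bot_sup_eq] at hs2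
    rw [bot_sup_eq, finrank_bot, zero_add] at hc2
    obtain ⟨I3, h3I, -, hs3, hc3⟩ := exists_sel
      (Submodule.span (ZMod 2) (Cᵀ '' (I' : Set (Fin e)))) Cᵀ I'ᶜ
    have htop : Submodule.span (ZMod 2) (Cᵀ '' (I' : Set (Fin e))) ⊔
        Submodule.span (ZMod 2) (Cᵀ '' ((I'ᶜ : Finset (Fin e)) : Set (Fin e))) = ⊤ := by
      refine (span_img_union Cᵀ I' I'ᶜ).symm.trans ?_
      rw [Finset.union_compl]
      exact span_cols C hC
    rw [htop] at hs3
    rw [htop, finrank_top, Module.finrank_fin_fun, hc2] at hc3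
    have hdis : Disjoint I2 I3 := by
      refine Finset.disjoint_of_subset_left h2I (Finset.disjoint_of_subset_right h3I ?_)
      exact disjoint_compl_right
    have hJs : Submodule.span (ZMod 2) (Cᵀ '' ((I2 ∪ I3 : Finset (Fin e)) : Set (Fin e))) = ⊤ := by
      refine (span_img_union Cᵀ I2 I3).trans ?_
      rw [← hs2, ← hs3]
    have hdim := finrank_row_le C I'ᶜ I' I2 rfl h2I hs2
    have hc2' := Finset.card_le_card h2I
    have hc3' := Finset.card_le_card h3I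
    have hce : I'.card + (I'ᶜ).card = e := by
      rw [Finset.card_add_card_compl, Fintype.card_fin]
    have hnum := low_num he hk hce hc2' hc3' hc3 (by
      by_cases hM : MR C I'ᶜ = ⊤
      · left
        have h1 : finrank (ZMod 2) (MR C I'ᶜ) = e := by
          rw [hM, finrank_top, Module.finrank_fin_fun]
        exact h1.symm.le.trans hdim
      · right
        exact (hered _ hM).trans (Nat.mul_le_mul_left _ hdim))
    -- the product
    obtain ⟨KK, hKK⟩ : ∃ KK : ℝ, KK = P ^ (I'.card - I2.card) * (P * v ^ 3) ^ (I'ᶜ.card - I3.card) :=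
      ⟨_, rfl⟩
    have hKK0 : 0 ≤ KK := by rw [hKK]; positivity
    have f1 : ∀ z ∈ Zs, |Hh H z| * ∏ i, bB (Cᵀ i ᵥ* z) ≤
        KK * (|Hh H z| * ∏ i ∈ I2 ∪ I3, bB (Cᵀ i ᵥ* z)) := by
      intro z hz
      have g1 : ∏ i, bB (Cᵀ i ᵥ* z) = (∏ i ∈ I', bB (Cᵀ i ᵥ* z)) * ∏ i ∈ I'ᶜ, bB (Cᵀ i ᵥ* z) :=
        (Finset.prod_mul_prod_compl I' _).symm
      have g2 : ∏ i ∈ I', bB (Cᵀ i ᵥ* z) ≤
          P ^ (I'.card - I2.card) * ∏ i ∈ I2, bB (Cᵀ i ᵥ* z) := by
        rw [← Finset.prod_sdiff h2I]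
        refine mul_le_mul_of_nonneg_right ?_ (Finset.prod_nonneg fun _ _ => hb0 _)
        refine (Finset.prod_le_prod (fun _ _ => hb0 _) fun i _ => hbP _).trans (le_of_eq ?_)
        rw [Finset.prod_const, Finset.card_sdiff_of_subset h2I]
      have g3 : ∏ i ∈ I'ᶜ, bB (Cᵀ i ᵥ* z) ≤
          (P * v ^ 3) ^ (I'ᶜ.card - I3.card) * ∏ i ∈ I3, bB (Cᵀ i ᵥ* z) := by
        rw [← Finset.prod_sdiff h3I]
        refine mul_le_mul_of_nonneg_right ?_ (Finset.prod_nonneg fun _ _ => hb0 _)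
        refine (Finset.prod_le_prod (fun _ _ => hb0 _) fun i hi =>
          hbL _ (hZs2 z hz i (Finset.mem_sdiff.1 hi).1)).trans (le_of_eq ?_)
        rw [Finset.prod_const, Finset.card_sdiff_of_subset h3I]
      rw [g1, Finset.prod_union hdis, hKK]
      calc |Hh H z| * ((∏ i ∈ I', bB (Cᵀ i ᵥ* z)) * ∏ i ∈ I'ᶜ, bB (Cᵀ i ᵥ* z)) ≤
          |Hh H z| * ((P ^ (I'.card - I2.card) * ∏ i ∈ I2, bB (Cᵀ i ᵥ* z)) *
            ((P * v ^ 3) ^ (I'ᶜ.card - I3.card) * ∏ i ∈ I3, bB (Cᵀ i ᵥ* z))) := by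
            refine mul_le_mul_of_nonneg_left ?_ (abs_nonneg _)
            refine mul_le_mul g2 g3 (Finset.prod_nonneg fun _ _ => hb0 _) ?_
            exact mul_nonneg (by positivity) (Finset.prod_nonneg fun _ _ => hb0 _)
        _ = _ := by ring
    have f2 : ∑ z ∈ Zs, |Hh H z| * ∏ i, bB (Cᵀ i ᵥ* z) ≤
        KK * ∑ z ∈ Zs, |Hh H z| * ∏ i ∈ I2 ∪ I3, bB (Cᵀ i ᵥ* z) := by
      rw [Finset.mul_sum]
      exact Finset.sum_le_sum f1
    obtain ⟨S1, hS1⟩ : ∃ S1, S1 = ∑ z ∈ Zs, |Hh H z| * ∏ i ∈ I2 ∪ I3, bB (Cᵀ i ᵥ* z) := ⟨_, rfl⟩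
    rw [← hS1] at f2
    have hS10 : 0 ≤ S1 := hS1 ▸ Finset.sum_nonneg fun _ _ =>
      mul_nonneg (abs_nonneg _) (Finset.prod_nonneg fun _ _ => hb0 _)
    have f3 : S1 ^ 2 ≤ P ^ k * ((Z * P ^ 2) ^ I2.card * P ^ I3.card) := by
      rw [hS1]
      refine (Finset.sum_mul_sq_le_sq_mul_sq _ _ _).trans ?_
      refine mul_le_mul ((Finset.sum_le_sum_of_subset_of_nonneg (Finset.subset_univ _)
        fun _ _ _ => sq_nonneg _).trans hHP) ?_ (Finset.sum_nonneg fun _ _ => sq_nonneg _)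
        (by positivity)
      have g1 : ∀ z : Matrix (Fin k) (Fin n) (ZMod 2), (∏ i ∈ I2 ∪ I3, bB (Cᵀ i ᵥ* z)) ^ 2 =
          ∏ i ∈ I2 ∪ I3, bB (Cᵀ i ᵥ* z) ^ 2 := fun z => (Finset.prod_pow _ _ _).symm
      rw [Finset.sum_congr rfl fun z _ => g1 z]
      refine (inj_sum Cᵀ (I2 ∪ I3) hJs (fun i y => bB y ^ 2) (fun _ _ => sq_nonneg _)
        (fun i => if i ∈ I2 then Lo else univ) Zs ?_).trans ?_
      · intro z hz i _
        split_ifs with h
        · exact hZs1 z hz i (h2I h)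
        · exact Finset.mem_univ _
      · rw [Finset.prod_union hdis]
        refine mul_le_mul ?_ ?_ (Finset.prod_nonneg fun _ _ => Finset.sum_nonneg fun _ _ =>
          sq_nonneg _) (by positivity)
        · refine (Finset.prod_le_prod (fun _ _ => Finset.sum_nonneg fun _ _ => sq_nonneg _)
            fun i hi => ?_).trans (le_of_eq (Finset.prod_const (Z * P ^ 2)))
          rw [if_pos hi]
          exact hsqL
        · refine (Finset.prod_le_prod (fun _ _ => Finset.sum_nonneg fun _ _ => sq_nonneg _)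
            fun i hi => ?_).trans (le_of_eq (Finset.prod_const P))
          rw [if_neg (Finset.disjoint_right.1 hdis hi)]
          exact hsq
    have f4 : (KK * S1) ^ 2 ≤ ((P * v) ^ e) ^ 2 := by
      rw [mul_pow]
      refine (mul_le_mul_of_nonneg_left f3 (sq_nonneg _)).trans ?_
      have g1 : KK ^ 2 * (P ^ k * ((Z * P ^ 2) ^ I2.card * P ^ I3.card)) =
          P ^ (2 * e) * ((P * Z) ^ I2.card * v ^ (6 * (I'ᶜ.card - I3.card))) := by
        obtain ⟨u1, hu1⟩ := Nat.exists_eq_add_of_le hc2'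
        obtain ⟨u2, hu2⟩ := Nat.exists_eq_add_of_le hc3'
        have g2 : 2 * e = 2 * u1 + 2 * u2 + 2 * I2.card + 2 * I3.card := by omega
        rw [hKK, g2, hc3, hu1, hu2, Nat.add_sub_cancel_left, Nat.add_sub_cancel_left]
        ring
      rw [g1]
      have g3 : (P * Z) ^ I2.card * v ^ (6 * (I'ᶜ.card - I3.card)) ≤ v ^ (2 * e) := by
        calc (P * Z) ^ I2.card * v ^ (6 * (I'ᶜ.card - I3.card)) ≤
            (v ^ 39) ^ I2.card * v ^ (6 * (I'ᶜ.card - I3.card)) := by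
              refine mul_le_mul_of_nonneg_right (pow_le_pow_left₀ (by positivity) D.PZv _)
                (by positivity)
          _ = v ^ (39 * I2.card + 6 * (I'ᶜ.card - I3.card)) := by
              rw [← pow_mul, ← pow_add]
          _ ≤ v ^ (2 * e) := pow_le_pow_of_le_one hv.le D.hv1 hnum
      calc P ^ (2 * e) * ((P * Z) ^ I2.card * v ^ (6 * (I'ᶜ.card - I3.card))) ≤
          P ^ (2 * e) * v ^ (2 * e) := mul_le_mul_of_nonneg_left g3 (by positivity)
        _ = ((P * v) ^ e) ^ 2 := by ring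
    exact f2.trans ((pow_le_pow_iff_left₀ (mul_nonneg hKK0 hS10) (by positivity) two_ne_zero).1 f4)
  refine (Finset.sum_le_sum fun I' _ => key I').trans (le_of_eq ?_)
  rw [Finset.sum_const, nsmul_eq_mul, Finset.card_univ, Fintype.card_finset, Fintype.card_fin]
  push_cast
  rfl

end Pool.Agent.N381.UG
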