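import Mathlib
import Pool.Agent.N381.UG.Low

/-!
N381/UG (helper381, MP_0430e4_lc): physical bounds for dense forms at good tuples.
-/

set_option autoImplicit false
set_option linter.unusedSectionVars false

namespace Pool.Agent.N381.UG

open Finset Matrix Module
open Pool.Agent.N381.LH

variable {s n r k ρ : ℕ}

open Classical in
/-- all nonzero combinations in `M` avoid `T` -/
noncomputable def gd (T : Finset (Fin n → ZMod 2)) (M : Submodule (ZMod 2) (Fin s → ZMod 2))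
    (X : Matrix (Fin s) (Fin n) (ZMod 2)) : ℝ :=
  if ∀ c ∈ M, c ≠ 0 → c ᵥ* X ∉ T then 1 else 0

lemma gd_nonneg (T : Finset (Fin n → ZMod 2)) (M : Submodule (ZMod 2) (Fin s → ZMod 2))
    (X : Matrix (Fin s) (Fin n) (ZMod 2)) : 0 ≤ gd T M X := by
  unfold gd
  split_ifs <;> norm_num

lemma gd_le (T : Finset (Fin n → ZMod 2)) (M : Submodule (ZMod 2) (Fin s → ZMod 2))
    (X : Matrix (Fin s) (Fin n) (ZMod 2)) : gd T M X ≤ 1 := by
  unfold gd
  split_ifs <;> norm_num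

lemma gd_mono (T : Finset (Fin n → ZMod 2)) {M M' : Submodule (ZMod 2) (Fin s → ZMod 2)}
    (h : M' ≤ M) (X : Matrix (Fin s) (Fin n) (ZMod 2)) : gd T M X ≤ gd T M' X := by
  unfold gd
  by_cases h1 : ∀ c ∈ M, c ≠ 0 → c ᵥ* X ∉ T
  · rw [if_pos h1, if_pos fun c hc => h1 c (h hc)]
  · rw [if_neg h1]
    split_ifs <;> norm_num

lemma gd_inv (T : Finset (Fin n → ZMod 2)) (M : Submodule (ZMod 2) (Fin s → ZMod 2))
    (l : Fin r → Fin s → ZMod 2) (hl : ∀ i, ∀ x ∈ M, x ⬝ᵥ l i = 0)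
    (X : Matrix (Fin s) (Fin n) (ZMod 2)) (x : Matrix (Fin r) (Fin n) (ZMod 2)) :
    gd T M (X + tens l x) = gd T M X := by
  have h : (∀ c ∈ M, c ≠ 0 → c ᵥ* (X + tens l x) ∉ T) ↔ (∀ c ∈ M, c ≠ 0 → c ᵥ* X ∉ T) :=
    forall_congr' fun c => forall_congr' fun hc => by rw [vec_inv M l hl X x hc]
  unfold gd
  by_cases h1 : ∀ c ∈ M, c ≠ 0 → c ᵥ* X ∉ T
  · rw [if_pos h1, if_pos (h.2 h1)]
  · rw [if_neg h1, if_neg fun h2 => h1 (h.1 h2)]

open Classical in
/-- the elements in a subspace -/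
noncomputable def ci (A : Finset (Fin s → ZMod 2)) (M : Submodule (ZMod 2) (Fin s → ZMod 2)) :
    Finset (Fin s → ZMod 2) := A.filter fun c => c ∈ M

lemma mem_ci {A : Finset (Fin s → ZMod 2)} {M : Submodule (ZMod 2) (Fin s → ZMod 2)}
    {c : Fin s → ZMod 2} : c ∈ ci A M ↔ c ∈ A ∧ c ∈ M := by
  classical
  unfold ci
  exact Finset.mem_filter

lemma ci_mono (A : Finset (Fin s → ZMod 2)) {M M' : Submodule (ZMod 2) (Fin s → ZMod 2)}
    (h : M' ≤ M) : ci A M' ⊆ ci A M := fun _ hc =>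
  mem_ci.2 ⟨(mem_ci.1 hc).1, h (mem_ci.1 hc).2⟩

/-- a product of values -/
noncomputable def pd (g : (Fin n → ZMod 2) → ℝ) (A : Finset (Fin s → ZMod 2))
    (X : Matrix (Fin s) (Fin n) (ZMod 2)) : ℝ := ∏ c ∈ A, g (c ᵥ* X)

lemma pd_nonneg {g : (Fin n → ZMod 2) → ℝ} (hg : ∀ x, 0 ≤ g x) (A : Finset (Fin s → ZMod 2))
    (X : Matrix (Fin s) (Fin n) (ZMod 2)) : 0 ≤ pd g A X := Finset.prod_nonneg fun _ _ => hg _

lemma pd_le_of_subset {g : (Fin n → ZMod 2) → ℝ} (hg : ∀ x, 0 ≤ g x) (hg1 : ∀ x, g x ≤ 1)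
    {A A' : Finset (Fin s → ZMod 2)} (h : A' ⊆ A) (X : Matrix (Fin s) (Fin n) (ZMod 2)) :
    pd g A X ≤ pd g A' X := by
  classical
  unfold pd
  rw [← Finset.prod_sdiff h]
  have h1 : ∏ c ∈ A \ A', g (c ᵥ* X) ≤ 1 := Finset.prod_le_one (fun _ _ => hg _) fun _ _ => hg1 _
  calc (∏ c ∈ A \ A', g (c ᵥ* X)) * ∏ c ∈ A', g (c ᵥ* X) ≤ 1 * ∏ c ∈ A', g (c ᵥ* X) :=
        mul_le_mul_of_nonneg_right h1 (Finset.prod_nonneg fun _ _ => hg _)
    _ = _ := one_mul _

lemma pd_inv (g : (Fin n → ZMod 2) → ℝ) (A : Finset (Fin s → ZMod 2))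
    (M : Submodule (ZMod 2) (Fin s → ZMod 2)) (hA : ∀ c ∈ A, c ∈ M)
    (l : Fin r → Fin s → ZMod 2) (hl : ∀ i, ∀ x ∈ M, x ⬝ᵥ l i = 0)
    (X : Matrix (Fin s) (Fin n) (ZMod 2)) (x : Matrix (Fin r) (Fin n) (ZMod 2)) :
    pd g A (X + tens l x) = pd g A X := by
  unfold pd
  refine Finset.prod_congr rfl fun c hc => ?_
  rw [vec_inv M l hl X x (hA c hc)]

/-- products over an enumerated set -/
lemma pd_enum (g : (Fin n → ZMod 2) → ℝ) (J : Finset (Fin s → ZMod 2)) (e : Fin r ≃ J)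
    (X : Matrix (Fin s) (Fin n) (ZMod 2)) :
    pd g J X = ∏ i, g (((e i : J) : Fin s → ZMod 2) ᵥ* X) := by
  unfold pd
  rw [← Finset.prod_coe_sort J, ← Equiv.prod_comp e]

variable {P Z v : ℝ} {f : (Fin n → ZMod 2) → ℝ} {B T Lo : Finset (Fin n → ZMod 2)}

/-- the good part on a subspace -/
noncomputable def Ph1 (B T : Finset (Fin n → ZMod 2)) (A : Finset (Fin s → ZMod 2))
    (M : Submodule (ZMod 2) (Fin s → ZMod 2)) (X : Matrix (Fin s) (Fin n) (ZMod 2)) : ℝ :=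
  gd T M X * pd (ind B) (ci A M) X

lemma Ph1_nonneg (B T : Finset (Fin n → ZMod 2)) (A : Finset (Fin s → ZMod 2))
    (M : Submodule (ZMod 2) (Fin s → ZMod 2)) (X : Matrix (Fin s) (Fin n) (ZMod 2)) :
    0 ≤ Ph1 B T A M X := mul_nonneg (gd_nonneg _ _ _) (pd_nonneg (ind_nonneg B) _ _)

lemma Ph1_inv (A : Finset (Fin s → ZMod 2)) (M : Submodule (ZMod 2) (Fin s → ZMod 2))
    (l : Fin r → Fin s → ZMod 2) (hl : ∀ i, ∀ x ∈ M, x ⬝ᵥ l i = 0)
    (X : Matrix (Fin s) (Fin n) (ZMod 2)) (x : Matrix (Fin r) (Fin n) (ZMod 2)) :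
    Ph1 B T A M (X + tens l x) = Ph1 B T A M X := by
  unfold Ph1
  rw [gd_inv T M l hl, pd_inv (ind B) _ M (fun c hc => (mem_ci.1 hc).2) l hl]

lemma span_id (A : Finset (Fin s → ZMod 2)) :
    ((fun c : Fin s → ZMod 2 => c) '' (A : Set (Fin s → ZMod 2))) = (A : Set (Fin s → ZMod 2)) :=
  Set.image_id' _

/-- selection of a subset independent modulo a subspace -/
lemma exists_sel' (M : Submodule (ZMod 2) (Fin s → ZMod 2)) (A : Finset (Fin s → ZMod 2)) :
    ∃ J ⊆ A, LinearIndependent (ZMod 2) (fun j : J => M.mkQ (j : Fin s → ZMod 2)) ∧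
      M ⊔ Submodule.span (ZMod 2) (A : Set (Fin s → ZMod 2)) =
        M ⊔ Submodule.span (ZMod 2) (J : Set (Fin s → ZMod 2)) ∧
      finrank (ZMod 2) (M ⊔ Submodule.span (ZMod 2) (A : Set (Fin s → ZMod 2)) :
        Submodule (ZMod 2) (Fin s → ZMod 2)) = finrank (ZMod 2) M + J.card := by
  classical
  obtain ⟨J, h1, h2, h3, h4⟩ := exists_sel M (fun c : Fin s → ZMod 2 => c) A
  rw [span_id] at h3 h4
  rw [span_id] at h3
  exact ⟨J, h1, h2, h3, h4⟩

/-- a step of dimension one -/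
lemma step_one (D : Dat n P Z v f B T Lo) (A : Finset (Fin s → ZMod 2))
    (M0 M : Submodule (ZMod 2) (Fin s → ZMod 2)) (hle : M0 ≤ M)
    (he : finrank (ZMod 2) M = finrank (ZMod 2) M0 + 1)
    (hc : (ci A M0).card + 2 ≤ (ci A M).card) :
    av (Ph1 B T A M) ≤ av (Ph1 B T A M0) * (P * v) := by
  classical
  have hcard : 2 ≤ (ci A M \ ci A M0).card := by
    have := Finset.card_sdiff_add_card_eq_card (ci_mono A hle)
    omega
  obtain ⟨c1, h1, c2, h2, h12⟩ := Finset.one_lt_card.1 (lt_of_lt_of_le one_lt_two hcard)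
  have hc1 : c1 ∈ M ∧ c1 ∉ M0 := by
    obtain ⟨h3, h4⟩ := Finset.mem_sdiff.1 h1
    exact ⟨(mem_ci.1 h3).2, fun h5 => h4 (mem_ci.2 ⟨(mem_ci.1 h3).1, h5⟩)⟩
  have hc2 : c2 ∈ M ∧ c2 ∉ M0 := by
    obtain ⟨h3, h4⟩ := Finset.mem_sdiff.1 h2
    exact ⟨(mem_ci.1 h3).2, fun h5 => h4 (mem_ci.2 ⟨(mem_ci.1 h3).1, h5⟩)⟩
  have hli : LinearIndependent (ZMod 2) (fun _ : Fin 1 => M0.mkQ c1) := by
    rw [linearIndependent_unique_iff]
    intro h
    exact hc1.2 ((Submodule.Quotient.mk_eq_zero M0).1 h)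
  obtain ⟨l, hl1, hl2⟩ := exists_dual M0 (fun _ : Fin 1 => c1) hli
  have hMeq : M0 ⊔ Submodule.span (ZMod 2) {c1} = M := by
    refine Submodule.eq_of_le_of_finrank_eq (sup_le hle
      ((Submodule.span_singleton_le_iff_mem _ _).2 hc1.1)) ?_
    obtain ⟨J, hJ1, hJ2, hJ3, hJ4⟩ := exists_sel' M0 {c1}
    rw [Finset.coe_singleton] at hJ4
    rw [he, hJ4]
    have h3 : J.Nonempty := by
      rw [Finset.nonempty_iff_ne_empty]
      rintro rfl
      rw [Finset.coe_singleton, Finset.coe_empty, Submodule.span_empty, sup_bot_eq] at hJ3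
      apply hc1.2
      rw [← hJ3]
      exact Submodule.mem_sup_right (Submodule.mem_span_singleton_self c1)
    have h4 := Finset.card_le_card hJ1
    have h5 := h3.card_pos
    rw [Finset.card_singleton] at h4
    omega
  obtain ⟨m, hm, hmc⟩ : ∃ m ∈ M0, c2 = m + c1 := by
    have h3 : c2 ∈ M0 ⊔ Submodule.span (ZMod 2) {c1} := hMeq ▸ hc2.1
    obtain ⟨y, hy, z, hz, hyz⟩ := Submodule.mem_sup.1 h3
    obtain ⟨a, rfl⟩ := Submodule.mem_span_singleton.1 hz
    rcases zmod2_cases a with rfl | rfl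
    · rw [zero_smul, add_zero] at hyz
      exact absurd (hyz ▸ hy) hc2.2
    · rw [one_smul] at hyz
      exact ⟨y, hy, hyz.symm⟩
  have hl0 : c1 ⬝ᵥ l 0 = 1 := by
    have := hl2 0 0
    rwa [if_pos rfl] at this
  have hl0' : c2 ⬝ᵥ l 0 = 1 := by
    rw [hmc, add_dotProduct, hl1 0 m hm, zero_add, hl0]
  have hpt : ∀ X, Ph1 B T A M X ≤ Ph1 B T A M0 X * (ind B (c1 ᵥ* X) * ind B (c2 ᵥ* X)) := by
    intro X
    unfold Ph1
    have h3 : pd (ind B) (ci A M) X ≤ pd (ind B) (insert c1 (insert c2 (ci A M0))) X := by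
      refine pd_le_of_subset (ind_nonneg B) (ind_le B) ?_ X
      intro c hc
      rcases Finset.mem_insert.1 hc with rfl | hc
      · exact (Finset.mem_sdiff.1 h1).1
      · rcases Finset.mem_insert.1 hc with rfl | hc
        · exact (Finset.mem_sdiff.1 h2).1
        · exact ci_mono A hle hc
    have h4 : pd (ind B) (insert c1 (insert c2 (ci A M0))) X =
        ind B (c1 ᵥ* X) * (ind B (c2 ᵥ* X) * pd (ind B) (ci A M0) X) := by
      unfold pd
      rw [Finset.prod_insert, Finset.prod_insert (Finset.mem_sdiff.1 h2).2]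
      rw [Finset.mem_insert]
      rintro (h | h)
      · exact h12 h
      · exact (Finset.mem_sdiff.1 h1).2 h
    calc gd T M X * pd (ind B) (ci A M) X ≤ gd T M0 X *
        (ind B (c1 ᵥ* X) * (ind B (c2 ᵥ* X) * pd (ind B) (ci A M0) X)) :=
          mul_le_mul (gd_mono T hle X) (h3.trans h4.le) (pd_nonneg (ind_nonneg B) _ _)
            (gd_nonneg _ _ _)
      _ = _ := by ring
  refine (av_mono hpt).trans ((le_abs_self _).trans ?_)
  refine (tool l (Ph1 B T A M0) (fun X => ind B (c1 ᵥ* X) * ind B (c2 ᵥ* X)) (b := P * v)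
    (fun X x => Ph1_inv A M0 l hl1 X x) ?_).trans (le_of_eq ?_)
  · intro X hX
    have hw : (c1 + c2) ᵥ* X ∉ T := by
      have h3 : gd T M0 X ≠ 0 := left_ne_zero_of_mul hX
      have h4 : ∀ c ∈ M0, c ≠ 0 → c ᵥ* X ∉ T := by
        by_contra h5
        unfold gd at h3
        rw [if_neg h5] at h3
        exact h3 rfl
      refine h4 _ ?_ ?_
      · rw [hmc]
        have : c1 + (m + c1) = m := by
          rw [add_comm m c1, ← add_assoc]
          have h6 : c1 + c1 = 0 := by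
            funext i
            exact CharTwo.add_self_eq_zero _
          rw [h6, zero_add]
        rw [this]
        exact hm
      · intro h6
        apply h12
        have h7 : c2 + c2 = 0 := by
          funext i
          exact CharTwo.add_self_eq_zero _
        calc c1 = c1 + (c2 + c2) := by rw [h7, add_zero]
          _ = (c1 + c2) + c2 := by rw [add_assoc]
          _ = c2 := by rw [h6, zero_add]
    rw [abs_of_nonneg (av_nonneg fun _ => mul_nonneg (ind_nonneg _ _) (ind_nonneg _ _))]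
    have h3 : ∀ x : Matrix (Fin 1) (Fin n) (ZMod 2), ind B (c1 ᵥ* (X + tens l x)) *
        ind B (c2 ᵥ* (X + tens l x)) =
        (fun y : Fin n → ZMod 2 => ind B (c1 ᵥ* X + y) * ind B (c2 ᵥ* X + y))
          (Equiv.funUnique (Fin 1) (Fin n → ZMod 2) x) := by
      intro x
      have h4 : ∀ c : Fin s → ZMod 2, c ⬝ᵥ l 0 = 1 → (fun i => c ⬝ᵥ l i) ᵥ* x = x 0 := by
        intro c hc
        have : (fun i => c ⬝ᵥ l i) = Pi.single 0 1 := by
          funext i
          rw [Subsingleton.elim i 0, hc, Pi.single_eq_same]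
        rw [this, Matrix.single_one_vecMul]
        rfl
      rw [vec_tens, vec_tens, h4 c1 hl0, h4 c2 hl0']
      rfl
    have h5 : (av fun x : Matrix (Fin 1) (Fin n) (ZMod 2) =>
        (fun y : Fin n → ZMod 2 => ind B (c1 ᵥ* X + y) * ind B (c2 ᵥ* X + y))
          (Equiv.funUnique (Fin 1) (Fin n → ZMod 2) x)) =
        av fun y : Fin n → ZMod 2 => ind B (c1 ᵥ* X + y) * ind B (c2 ᵥ* X + y) :=
      av_equiv (Equiv.funUnique (Fin 1) (Fin n → ZMod 2))
        (fun y : Fin n → ZMod 2 => ind B (c1 ᵥ* X + y) * ind B (c2 ᵥ* X + y))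
    refine (le_of_eq ((congrArg av (funext h3)).trans h5)).trans ?_
    refine le_trans (le_of_eq ?_) (D.sh _ hw)
    rw [← av_add_left (c1 ᵥ* X) (fun y => ind B y * ind B (y + (c1 + c2) ᵥ* X))]
    refine congrArg av (funext fun y => ?_)
    congr 2
    rw [Matrix.add_vecMul]
    have h6 : c1 ᵥ* X + c1 ᵥ* X = 0 := by
      funext i
      exact CharTwo.add_self_eq_zero _
    calc c2 ᵥ* X + y = (c1 ᵥ* X + c1 ᵥ* X) + (c2 ᵥ* X + y) := by rw [h6, zero_add]
      _ = c1 ᵥ* X + y + (c1 ᵥ* X + c2 ᵥ* X) := by abel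
  · congr 1
    exact congrArg av (funext fun X => abs_of_nonneg (Ph1_nonneg _ _ _ _ _))

end Pool.Agent.N381.UG
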