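import Mathlib
import Pool.Agent.N381.UG.Phys

/-!
N381/UG (helper381, MP_0430e4_lc): minimal dense steps.
-/

set_option autoImplicit false
set_option linter.unusedSectionVars false

namespace Pool.Agent.N381.UG

open Finset Matrix Module
open Pool.Agent.N381.LH

variable {s n r k ρ : ℕ}

/-- coordinates modulo a subspace -/
lemma coord_mem (M0 : Submodule (ZMod 2) (Fin s → ZMod 2)) (c l : Fin r → Fin s → ZMod 2)
    (hl1 : ∀ i, ∀ x ∈ M0, x ⬝ᵥ l i = 0) (hl2 : ∀ i j, c i ⬝ᵥ l j = if i = j then 1 else 0)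
    (x : Fin s → ZMod 2) (hx : x ∈ M0 ⊔ Submodule.span (ZMod 2) (Set.range c)) :
    x - ∑ i, (x ⬝ᵥ l i) • c i ∈ M0 := by
  obtain ⟨y, hy, z, hz, rfl⟩ := Submodule.mem_sup.1 hx
  obtain ⟨g, rfl⟩ := (Submodule.mem_span_range_iff_exists_fun (ZMod 2)).1 hz
  have h1 : ∀ j, (y + ∑ i, g i • c i) ⬝ᵥ l j = g j := by
    intro j
    rw [add_dotProduct, hl1 j y hy, zero_add, sum_dotProduct]
    simp_rw [smul_dotProduct, hl2, smul_eq_mul]
    simp
  have h2 : y + ∑ i, g i • c i - ∑ i, ((y + ∑ i, g i • c i) ⬝ᵥ l i) • c i = y := by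
    have h3 : ∑ i, ((y + ∑ i, g i • c i) ⬝ᵥ l i) • c i = ∑ i, g i • c i :=
      Finset.sum_congr rfl fun i _ => by rw [h1 i]
    rw [h3, add_sub_cancel_right]
  rw [h2]
  exact hy

lemma pd_union {g : (Fin n → ZMod 2) → ℝ} {A A' : Finset (Fin s → ZMod 2)} (h : Disjoint A A')
    (X : Matrix (Fin s) (Fin n) (ZMod 2)) : pd g (A ∪ A') X = pd g A X * pd g A' X := by
  classical
  unfold pd
  rw [Finset.prod_union h]

variable {P Z v : ℝ} {f : (Fin n → ZMod 2) → ℝ} {B T Lo : Finset (Fin n → ZMod 2)}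

/-- the dimension of a coordinate subspace plus a row space, in the quotient -/
lemma finrank_MR {e : ℕ} (M0 : Submodule (ZMod 2) (Fin s → ZMod 2)) (c1 : Fin e → Fin s → ZMod 2)
    (c2 : Fin k → Fin s → ZMod 2) (hli : LinearIndependent (ZMod 2) (fun i => M0.mkQ (c1 i)))
    (C : Matrix (Fin k) (Fin e) (ZMod 2))
    (hC : ∀ q, M0.mkQ (c2 q) = M0.mkQ (∑ i, C q i • c1 i)) (R : Finset (Fin e)) :
    finrank (ZMod 2) (M0 ⊔ Submodule.span (ZMod 2) (c1 '' (R : Set (Fin e)) ∪ Set.range c2) :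
      Submodule (ZMod 2) (Fin s → ZMod 2)) =
      finrank (ZMod 2) M0 + finrank (ZMod 2) (MR C R) := by
  classical
  rw [finrank_sup_mkQ]
  congr 1
  obtain ⟨ψ, hψ⟩ : ∃ ψ, ψ = Fintype.linearCombination (ZMod 2) (fun i => M0.mkQ (c1 i)) := ⟨_, rfl⟩
  have hinj : Function.Injective ψ := by
    rw [hψ]
    exact linearIndependent_iff_injective_fintypeLinearCombination.1 hli
  have h1 : (MR C R).map ψ = (Submodule.span (ZMod 2)
      (c1 '' (R : Set (Fin e)) ∪ Set.range c2)).map M0.mkQ := by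
    unfold MR
    rw [Submodule.map_sup, Submodule.map_span, Submodule.map_span, Submodule.map_span,
      Set.image_union, Submodule.span_union]
    congr 1
    · congr 1
      ext z
      constructor
      · rintro ⟨_, ⟨i, hi, rfl⟩, rfl⟩
        refine ⟨c1 i, ⟨i, hi, rfl⟩, ?_⟩
        rw [hψ, Fintype.linearCombination_apply_single, one_smul]
      · rintro ⟨_, ⟨i, hi, rfl⟩, rfl⟩
        refine ⟨Pi.single i 1, ⟨i, hi, rfl⟩, ?_⟩
        rw [hψ, Fintype.linearCombination_apply_single, one_smul]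
    · congr 1
      have h2 : ∀ q, ψ (C q) = M0.mkQ (c2 q) := by
        intro q
        rw [hψ, Fintype.linearCombination_apply, hC q, map_sum]
        exact Finset.sum_congr rfl fun i _ => (map_smul _ _ _).symm
      ext z
      constructor
      · rintro ⟨_, ⟨q, rfl⟩, rfl⟩
        exact ⟨c2 q, ⟨q, rfl⟩, (h2 q).symm⟩
      · rintro ⟨_, ⟨q, rfl⟩, rfl⟩
        exact ⟨C q, ⟨q, rfl⟩, h2 q⟩
  rw [← h1]
  exact ((Submodule.equivMapOfInjective ψ hinj (MR C R)).finrank_eq).symm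

lemma step (D : Dat n P Z v f B T Lo) (A : Finset (Fin s → ZMod 2))
    (M0 M : Submodule (ZMod 2) (Fin s → ZMod 2)) (hle : M0 ≤ M) {e : ℕ} (he2 : 2 ≤ e)
    (he : finrank (ZMod 2) M = finrank (ZMod 2) M0 + e)
    (hc : 8 * (ci A M0).card + 9 * e < 8 * (ci A M).card)
    (hmin : ∀ M', M0 ≤ M' → M' ≤ M → M' ≠ M →
      8 * (ci A M').card + 9 * finrank (ZMod 2) M0 ≤
        8 * (ci A M0).card + 9 * finrank (ZMod 2) M') :
    av (Ph1 B T A M) ≤ av (Ph1 B T A M0) * (2 ^ e * (P * v) ^ e) := by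
  classical
  obtain ⟨A1, hA1⟩ : ∃ A1, A1 = ci A M \ ci A M0 := ⟨_, rfl⟩
  have hcA1 : A1.card + (ci A M0).card = (ci A M).card := by
    rw [hA1]
    exact Finset.card_sdiff_add_card_eq_card (ci_mono A hle)
  have hA1M : ∀ c ∈ A1, c ∈ ci A M := by
    intro c hc
    rw [hA1] at hc
    exact (Finset.mem_sdiff.1 hc).1
  have hA1d : Disjoint (ci A M0) A1 := by
    rw [hA1]
    exact Finset.disjoint_sdiff
  have hgen : ∀ S ⊆ A1, ∀ M', M0 ≤ M' → M' ≤ M → M' ≠ M → (∀ c ∈ S, c ∈ M') →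
      8 * S.card + 9 * finrank (ZMod 2) M0 ≤ 9 * finrank (ZMod 2) M' := by
    intro S hS M' h1 h2 h3 h4
    have h5 := hmin M' h1 h2 h3
    have h6 : (ci A M0 ∪ S).card ≤ (ci A M').card := by
      refine Finset.card_le_card fun c hc => ?_
      rcases Finset.mem_union.1 hc with hc | hc
      · exact ci_mono A h1 hc
      · exact mem_ci.2 ⟨(mem_ci.1 (hA1M c (hS hc))).1, h4 c hc⟩
    rw [Finset.card_union_of_disjoint (Finset.disjoint_of_subset_right hS hA1d)] at h6
    omega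
  have hspanM : ∀ S ⊆ A1, M0 ⊔ Submodule.span (ZMod 2) (S : Set (Fin s → ZMod 2)) ≤ M := by
    intro S hS
    refine sup_le hle (Submodule.span_le.2 fun c hc => ?_)
    exact (mem_ci.1 (hA1M c (hS hc))).2
  have hmemS : ∀ S : Finset (Fin s → ZMod 2), ∀ c ∈ S,
      c ∈ M0 ⊔ Submodule.span (ZMod 2) (S : Set (Fin s → ZMod 2)) := fun S c hc =>
    Submodule.mem_sup_right (Submodule.subset_span hc)
  have htop : M0 ⊔ Submodule.span (ZMod 2) (A1 : Set (Fin s → ZMod 2)) = M := by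
    by_contra h
    have h1 := hgen A1 (Finset.Subset.refl _) _ le_sup_left (hspanM A1 (Finset.Subset.refl _)) h
      (hmemS A1)
    have h2 := Submodule.finrank_mono (hspanM A1 (Finset.Subset.refl _))
    omega
  obtain ⟨J1, hJ1, hli1, hsp1, hfr1⟩ := exists_sel' M0 A1
  rw [htop] at hsp1 hfr1
  have hcJ1 : J1.card = e := by omega
  obtain ⟨A2, hA2⟩ : ∃ A2, A2 = A1 \ J1 := ⟨_, rfl⟩
  have hA2A : A2 ⊆ A1 := by rw [hA2]; exact Finset.sdiff_subset
  have hcA2 : A2.card + J1.card = A1.card := by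
    rw [hA2]
    exact Finset.card_sdiff_add_card_eq_card hJ1
  obtain ⟨J2, hJ2, hli2, hsp2, hfr2⟩ := exists_sel' M0 A2
  have hk : e / 9 + 1 ≤ J2.card := by
    by_cases h : M0 ⊔ Submodule.span (ZMod 2) (A2 : Set (Fin s → ZMod 2)) = M
    · rw [h] at hfr2
      omega
    · have h1 := hgen A2 hA2A _ le_sup_left (hspanM A2 hA2A) h (hmemS A2)
      omega
  obtain ⟨Q, hQ, hcQ⟩ := Finset.exists_subset_card_eq hk
  obtain ⟨k, hk'⟩ : ∃ k, k = e / 9 + 1 := ⟨_, rfl⟩
  rw [← hk'] at hcQ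
  let e1 : Fin e ≃ J1 := (Fintype.equivFinOfCardEq (by simp [hcJ1])).symm
  let e2 : Fin k ≃ Q := (Fintype.equivFinOfCardEq (by simp [hcQ])).symm
  let c1 : Fin e → Fin s → ZMod 2 := fun i => ((e1 i : J1) : Fin s → ZMod 2)
  let c2 : Fin k → Fin s → ZMod 2 := fun i => ((e2 i : Q) : Fin s → ZMod 2)
  have hc1J : ∀ i, c1 i ∈ J1 := fun i => (e1 i).2
  have hc2Q : ∀ i, c2 i ∈ Q := fun i => (e2 i).2
  have hQA2 : Q ⊆ A2 := hQ.trans hJ2
  have hr1 : Set.range c1 = (J1 : Set (Fin s → ZMod 2)) := by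
    ext y
    constructor
    · rintro ⟨i, rfl⟩
      exact hc1J i
    · intro hy
      refine ⟨e1.symm ⟨y, hy⟩, ?_⟩
      change ((e1 (e1.symm ⟨y, hy⟩) : J1) : Fin s → ZMod 2) = y
      rw [e1.apply_symm_apply]
  have hlc1 : LinearIndependent (ZMod 2) (fun i => M0.mkQ (c1 i)) := hli1.comp e1 e1.injective
  have hlc2 : LinearIndependent (ZMod 2) (fun i => M0.mkQ (c2 i)) := by
    have h1 : LinearIndependent (ZMod 2) (fun j : Q => M0.mkQ (j : Fin s → ZMod 2)) :=
      hli2.comp (fun j : Q => (⟨j, hQ j.2⟩ : J2)) fun a b h => Subtype.ext (congrArg (fun z : J2 => (z : Fin s → ZMod 2)) h)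
    exact h1.comp e2 e2.injective
  obtain ⟨l, hl1, hl2⟩ := exists_dual M0 c1 hlc1
  have hMspan : M = M0 ⊔ Submodule.span (ZMod 2) (Set.range c1) := by rw [hr1, hsp1]
  have hc2M : ∀ q, c2 q ∈ M0 ⊔ Submodule.span (ZMod 2) (Set.range c1) := by
    intro q
    rw [← hMspan]
    exact (mem_ci.1 (hA1M _ (hA2A (hQA2 (hc2Q q))))).2
  let C : Matrix (Fin k) (Fin e) (ZMod 2) := Matrix.of fun q i => c2 q ⬝ᵥ l i
  have hCm : ∀ q, M0.mkQ (c2 q) = M0.mkQ (∑ i, C q i • c1 i) := by
    intro q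
    rw [← sub_eq_zero, ← map_sub]
    exact (Submodule.Quotient.mk_eq_zero M0).2 (coord_mem M0 c1 l hl1 hl2 _ (hc2M q))
  have hC : LinearIndependent (ZMod 2) C.row := by
    rw [Fintype.linearIndependent_iff]
    intro g hg
    refine Fintype.linearIndependent_iff.1 hlc2 g ?_
    have h1 : ∑ q, g q • M0.mkQ (c2 q) = M0.mkQ (∑ i, (∑ q, g q * C q i) • c1 i) := by
      simp_rw [hCm, Finset.sum_smul, mul_smul]
      rw [Finset.sum_comm, map_sum]
      refine Finset.sum_congr rfl fun q _ => ?_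
      rw [← map_smul, Finset.smul_sum]
    have h2 : ∀ i, ∑ q, g q * C q i = 0 := by
      intro i
      have := congrFun hg i
      rw [Finset.sum_apply] at this
      exact this
    rw [h1]
    simp only [h2, zero_smul, Finset.sum_const_zero, map_zero]
  have hJQ : Disjoint J1 Q := by
    rw [Finset.disjoint_left]
    intro c h1 h2
    have h3 := hQA2 h2
    rw [hA2] at h3
    exact (Finset.mem_sdiff.1 h3).2 h1
  have hJQA : J1 ∪ Q ⊆ A1 := Finset.union_subset hJ1 (hQA2.trans hA2A)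
  have hc1inj : Function.Injective c1 := Subtype.val_injective.comp e1.injective
  have hc2inj : Function.Injective c2 := Subtype.val_injective.comp e2.injective
  have hered : ∀ R : Finset (Fin e), MR C R ≠ ⊤ →
      8 * (R.card + k) ≤ 9 * finrank (ZMod 2) (MR C R) := by
    intro R hR
    obtain ⟨S, hS⟩ : ∃ S, S = R.image c1 ∪ Q := ⟨_, rfl⟩
    have hRJ : R.image c1 ⊆ J1 := by
      intro x hx
      obtain ⟨i, -, rfl⟩ := Finset.mem_image.1 hx
      exact hc1J i
    have hSc : S.card = R.card + k := by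
      rw [hS, Finset.card_union_of_disjoint (Finset.disjoint_of_subset_left hRJ hJQ),
        Finset.card_image_of_injective _ hc1inj, hcQ]
    have hSA : S ⊆ A1 := by
      rw [hS]
      exact (Finset.union_subset_union_left hRJ).trans hJQA
    have hSset : (S : Set (Fin s → ZMod 2)) = c1 '' (R : Set (Fin e)) ∪ Set.range c2 := by
      rw [hS, Finset.coe_union, Finset.coe_image]
      congr 1
      ext y
      constructor
      · intro hy
        refine ⟨e2.symm ⟨y, hy⟩, ?_⟩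
        change ((e2 (e2.symm ⟨y, hy⟩) : Q) : Fin s → ZMod 2) = y
        rw [e2.apply_symm_apply]
      · rintro ⟨i, rfl⟩
        exact hc2Q i
    have hfin := finrank_MR M0 c1 c2 hlc1 C hCm R
    rw [← hSset] at hfin
    have hne : M0 ⊔ Submodule.span (ZMod 2) (S : Set (Fin s → ZMod 2)) ≠ M := by
      intro h
      rw [h, he] at hfin
      apply hR
      apply Submodule.eq_top_of_finrank_eq
      rw [Module.finrank_fin_fun]
      omega
    have h1 := hgen S hSA _ le_sup_left (hspanM S hSA) hne (hmemS S)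
    omega
  have hpt : ∀ X, Ph1 B T A M X ≤ Ph1 B T A M0 X *
      ((∏ i, ind B (c1 i ᵥ* X)) * ∏ q, ind B (c2 q ᵥ* X)) := by
    intro X
    unfold Ph1
    have h3 : pd (ind B) (ci A M) X ≤ pd (ind B) (ci A M0 ∪ (J1 ∪ Q)) X := by
      refine pd_le_of_subset (ind_nonneg B) (ind_le B) ?_ X
      intro c hc
      rcases Finset.mem_union.1 hc with hc | hc
      · exact ci_mono A hle hc
      · exact hA1M c (hJQA hc)
    rw [pd_union (Finset.disjoint_of_subset_right hJQA hA1d), pd_union hJQ,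
      pd_enum (ind B) J1 e1, pd_enum (ind B) Q e2] at h3
    calc gd T M X * pd (ind B) (ci A M) X ≤ gd T M0 X *
        (pd (ind B) (ci A M0) X * ((∏ i, ind B (c1 i ᵥ* X)) * ∏ q, ind B (c2 q ᵥ* X))) :=
          mul_le_mul (gd_mono T hle X) h3 (pd_nonneg (ind_nonneg B) _ _)
            (gd_nonneg _ _ _)
      _ = _ := by ring
  refine (av_mono hpt).trans ((le_abs_self _).trans ?_)
  refine (tool l (Ph1 B T A M0) (fun X => (∏ i, ind B (c1 i ᵥ* X)) * ∏ q, ind B (c2 q ᵥ* X))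
    (b := 2 ^ e * (P * v) ^ e) (fun X x => Ph1_inv A M0 l hl1 X x) ?_).trans (le_of_eq ?_)
  · intro X _
    rw [abs_of_nonneg (av_nonneg fun _ => mul_nonneg (Finset.prod_nonneg fun _ _ => ind_nonneg _ _)
      (Finset.prod_nonneg fun _ _ => ind_nonneg _ _))]
    refine le_trans (le_of_eq ?_) (low_bound D he2 hk' C hC hered (fun i => c1 i ᵥ* X)
      (fun q => c2 q ᵥ* X))
    refine congrArg av (funext fun x => ?_)
    congr 1
    · refine Finset.prod_congr rfl fun i _ => ?_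
      rw [vec_tens]
      have : (fun j => c1 i ⬝ᵥ l j) = Pi.single i 1 := by
        funext j
        rw [hl2, Pi.single_apply]
        simp only [eq_comm]
      rw [this, Matrix.single_one_vecMul, add_comm]
      rfl
    · refine Finset.prod_congr rfl fun q _ => ?_
      rw [vec_tens, add_comm]
      rfl
  · congr 1
    exact congrArg av (funext fun X => abs_of_nonneg (Ph1_nonneg _ _ _ _ _))

/-- **The chain.** -/
lemma chain (D : Dat n P Z v f B T Lo) (A : Finset (Fin s → ZMod 2))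
    (N : Submodule (ZMod 2) (Fin s → ZMod 2)) :
    ∃ M0 ≤ N, av (Ph1 B T A M0) ≤ (2 * (P * v)) ^ finrank (ZMod 2) M0 ∧
      ∀ M, M0 ≤ M → M ≤ N → 8 * (ci A M).card + 9 * finrank (ZMod 2) M0 ≤
        8 * (ci A M0).card + 9 * finrank (ZMod 2) M := by
  classical
  obtain ⟨M0, ⟨h1, h2⟩, h3⟩ := Set.exists_max_image
    {M : Submodule (ZMod 2) (Fin s → ZMod 2) | M ≤ N ∧
      av (Ph1 B T A M) ≤ (2 * (P * v)) ^ finrank (ZMod 2) M} (fun M => finrank (ZMod 2) M)
    (Set.toFinite _) ⟨⊥, bot_le, by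
      rw [finrank_bot, pow_zero]
      refine av_le_one fun X => ?_
      unfold Ph1
      exact mul_le_one₀ (gd_le _ _ _) (pd_nonneg (ind_nonneg B) _ _)
        (Finset.prod_le_one (fun _ _ => ind_nonneg _ _) fun _ _ => ind_le _ _)⟩
  refine ⟨M0, h1, h2, ?_⟩
  by_contra hcon
  push Not at hcon
  obtain ⟨M, ⟨h4, h5, h6⟩, h7⟩ := Set.exists_min_image
    {M : Submodule (ZMod 2) (Fin s → ZMod 2) | M0 ≤ M ∧ M ≤ N ∧
      8 * (ci A M0).card + 9 * finrank (ZMod 2) M <
      8 * (ci A M).card + 9 * finrank (ZMod 2) M0} (fun M => finrank (ZMod 2) M)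
    (Set.toFinite _) hcon
  have hP := D.hP
  have hv := D.hv0
  obtain ⟨e, he⟩ := Nat.exists_eq_add_of_le (Submodule.finrank_mono h4)
  have hmin : ∀ M', M0 ≤ M' → M' ≤ M → M' ≠ M →
      8 * (ci A M').card + 9 * finrank (ZMod 2) M0 ≤
        8 * (ci A M0).card + 9 * finrank (ZMod 2) M' := by
    intro M' h8 h9 h10
    by_contra h11
    push Not at h11
    have h12 := h7 M' ⟨h8, h9.trans h5, h11⟩
    exact absurd (Submodule.finrank_lt_finrank_of_lt (lt_of_le_of_ne h9 h10)) (not_lt.2 h12)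
  have hkey : av (Ph1 B T A M) ≤ av (Ph1 B T A M0) * (2 * (P * v)) ^ e := by
    rcases Nat.lt_or_ge e 1 with he0 | he0
    · have : e = 0 := by omega
      subst this
      have hMM : M0 = M := Submodule.eq_of_le_of_finrank_eq h4 (by omega)
      rw [hMM, pow_zero, mul_one]
    · rcases Nat.lt_or_ge e 2 with he1 | he1
      · have : e = 1 := by omega
        subst this
        refine (step_one D A M0 M h4 he (by omega)).trans ?_
        rw [pow_one]
        refine mul_le_mul_of_nonneg_left ?_ (av_nonneg fun _ => Ph1_nonneg _ _ _ _ _)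
        have : 0 < P * v := mul_pos hP hv
        linarith
      · rw [mul_pow]
        exact step D A M0 M h4 he1 he (by omega) hmin
  have h8 : av (Ph1 B T A M) ≤ (2 * (P * v)) ^ finrank (ZMod 2) M := by
    refine hkey.trans ((mul_le_mul_of_nonneg_right h2 (by positivity)).trans (le_of_eq ?_))
    rw [he, pow_add]
  have h9 := h3 M ⟨h5, h8⟩
  have : e = 0 := by omega
  subst this
  have hMM : M0 = M := Submodule.eq_of_le_of_finrank_eq h4 (by omega)
  rw [hMM] at h6
  omega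

end Pool.Agent.N381.UG
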