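import Mathlib
import Pool.Agent.N381.UG.Step

/-!
N381/UG (helper381, MP_0430e4_lc): the bound for dense parts.
-/

set_option autoImplicit false
set_option linter.unusedSectionVars false

namespace Pool.Agent.N381.UG

open Finset Matrix Module
open Pool.Agent.N381.LH

variable {s n r k ρ : ℕ}

variable {P Z v : ℝ} {f : (Fin n → ZMod 2) → ℝ} {B T Lo : Finset (Fin n → ZMod 2)}

/-- functions of the values on a subspace -/
def Inv (M : Submodule (ZMod 2) (Fin s → ZMod 2)) (Θ : Matrix (Fin s) (Fin n) (ZMod 2) → ℝ) : Prop :=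
  ∀ (r : ℕ) (l : Fin r → Fin s → ZMod 2), (∀ i, ∀ x ∈ M, x ⬝ᵥ l i = 0) →
    ∀ (X : Matrix (Fin s) (Fin n) (ZMod 2)) (x : Matrix (Fin r) (Fin n) (ZMod 2)),
      Θ (X + tens l x) = Θ X

lemma Inv.mul {M : Submodule (ZMod 2) (Fin s → ZMod 2)}
    {Θ Ψ : Matrix (Fin s) (Fin n) (ZMod 2) → ℝ} (h : Inv M Θ) (h' : Inv M Ψ) :
    Inv M (fun X => Θ X * Ψ X) := by
  intro r l hl X x
  show Θ (X + tens l x) * Ψ (X + tens l x) = Θ X * Ψ X
  rw [h r l hl, h' r l hl]

lemma Inv.mono {M M' : Submodule (ZMod 2) (Fin s → ZMod 2)}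
    {Θ : Matrix (Fin s) (Fin n) (ZMod 2) → ℝ} (h : Inv M Θ) (hle : M ≤ M') : Inv M' Θ :=
  fun r l hl X x => h r l (fun i y hy => hl i y (hle hy)) X x

lemma Inv.pd {M : Submodule (ZMod 2) (Fin s → ZMod 2)} (g : (Fin n → ZMod 2) → ℝ)
    {A : Finset (Fin s → ZMod 2)} (hA : ∀ c ∈ A, c ∈ M) : Inv M (pd g A) :=
  fun _ l hl X x => pd_inv g A M hA l hl X x

lemma Inv.gd (T : Finset (Fin n → ZMod 2)) (M : Submodule (ZMod 2) (Fin s → ZMod 2)) :
    Inv M (gd T M) := fun _ l hl X x => gd_inv T M l hl X x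

lemma Inv.ph1 (B T : Finset (Fin n → ZMod 2)) (A : Finset (Fin s → ZMod 2))
    (M : Submodule (ZMod 2) (Fin s → ZMod 2)) : Inv M (Ph1 B T A M) :=
  fun _ l hl X x => Ph1_inv A M l hl X x

/-- independent factors -/
lemma tool_J (M : Submodule (ZMod 2) (Fin s → ZMod 2)) (J : Finset (Fin s → ZMod 2))
    (hJ : LinearIndependent (ZMod 2) (fun j : J => M.mkQ (j : Fin s → ZMod 2)))
    {Θ : Matrix (Fin s) (Fin n) (ZMod 2) → ℝ} (h0 : ∀ X, 0 ≤ Θ X) (hΘ : Inv M Θ)
    {g : (Fin n → ZMod 2) → ℝ} (hg : ∀ x, 0 ≤ g x) :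
    av (fun X => Θ X * pd g J X) ≤ av Θ * av g ^ J.card := by
  classical
  let e : Fin J.card ≃ J := (Fintype.equivFinOfCardEq (by simp)).symm
  obtain ⟨l, hl1, hl2⟩ := exists_dual M (fun i => ((e i : J) : Fin s → ZMod 2)) (hJ.comp e e.injective)
  have h1 := tool_ind l (fun i => ((e i : J) : Fin s → ZMod 2)) hl2 Θ (fun _ => g)
    (fun X x => hΘ _ l hl1 X x)
  have h2 : (av fun X => |Θ X|) = av Θ := congrArg av (funext fun X => abs_of_nonneg (h0 X))
  rw [h2, Finset.prod_const, Finset.card_univ, Fintype.card_fin, abs_of_nonneg (av_nonneg hg)] at h1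
  refine (le_abs_self _).trans (le_trans (le_of_eq ?_) h1)
  congr 2
  funext X
  rw [pd_enum g J e]

lemma disj_sel (M : Submodule (ZMod 2) (Fin s → ZMod 2)) (A J : Finset (Fin s → ZMod 2))
    (hJ : LinearIndependent (ZMod 2) (fun j : J => M.mkQ (j : Fin s → ZMod 2))) :
    Disjoint (ci A M) J := by
  rw [Finset.disjoint_left]
  intro c h1 h2
  exact hJ.ne_zero ⟨c, h2⟩ ((Submodule.Quotient.mk_eq_zero M).2 (mem_ci.1 h1).2)

lemma dense_num (D : Dat n P Z v f B T Lo) {a ρ σ : ℕ} (h : ρ + 10 * σ ≤ 8 * a) :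
    (P * Z) ^ a * P ^ ρ ≤ (P * v) ^ (ρ + σ) := by
  have hP := D.hP
  have hv := D.hv0
  have hZ : 0 < Z := by linarith [D.hZ]
  have h1 : P * Z * P ^ 8 ≤ (P * v) ^ 8 := by
    rw [mul_pow, mul_comm]
    refine mul_le_mul_of_nonneg_left (D.PZv.trans ?_) (by positivity)
    exact pow_le_pow_of_le_one hv.le D.hv1 (by norm_num)
  have h2 : (P * Z) ^ 10 ≤ (P * v) ^ 8 := by
    have h3 : P * Z ^ 5 ≤ (1 / Z) ^ 4 := by
      rw [div_pow, one_pow, le_div_iff₀ (by positivity)]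
      calc P * Z ^ 5 * Z ^ 4 = P * Z ^ 9 := by ring
        _ ≤ P * Z ^ 40 := mul_le_mul_of_nonneg_left (pow_le_pow_right₀ D.hZ (by norm_num)) hP.le
        _ ≤ 1 := D.hPZ
    have h4 : P * Z ^ 5 ≤ v ^ 4 := h3.trans (pow_le_pow_left₀ (by positivity) D.Zv 4)
    have h5 : (P * Z ^ 5) ^ 2 ≤ (v ^ 4) ^ 2 := pow_le_pow_left₀ (by positivity) h4 2
    calc (P * Z) ^ 10 = P ^ 8 * (P * Z ^ 5) ^ 2 := by ring
      _ ≤ P ^ 8 * (v ^ 4) ^ 2 := mul_le_mul_of_nonneg_left h5 (by positivity)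
      _ = _ := by ring
  have h3 : ((P * Z) ^ a * P ^ ρ) ^ 8 ≤ ((P * v) ^ (ρ + σ)) ^ 8 := by
    calc ((P * Z) ^ a * P ^ ρ) ^ 8 = (P * Z) ^ (8 * a) * P ^ (8 * ρ) := by ring
      _ ≤ (P * Z) ^ (ρ + 10 * σ) * P ^ (8 * ρ) := by
        refine mul_le_mul_of_nonneg_right ?_ (by positivity)
        exact pow_le_pow_of_le_one (by positivity) D.PZ1 h
      _ = (P * Z * P ^ 8) ^ ρ * ((P * Z) ^ 10) ^ σ := by ring
      _ ≤ ((P * v) ^ 8) ^ ρ * ((P * v) ^ 8) ^ σ :=
        mul_le_mul (pow_le_pow_left₀ (by positivity) h1 _) (pow_le_pow_left₀ (by positivity) h2 _)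
          (by positivity) (by positivity)
      _ = _ := by ring
  exact (pow_le_pow_iff_left₀ (by positivity) (by positivity) (by norm_num)).1 h3

/-- **The bound for dense parts.** -/
lemma dense (D : Dat n P Z v f B T Lo) (A : Finset (Fin s → ZMod 2))
    (N : Submodule (ZMod 2) (Fin s → ZMod 2)) (hAN : ∀ c ∈ A, c ∈ N)
    (hA : ∀ M, M ≤ N → 4 * (ci A M).card + 5 * finrank (ZMod 2) N ≤
      4 * A.card + 5 * finrank (ZMod 2) M) :
    av (fun X => gd T N X * pd (fun x => ind B x + P * Z) A X) ≤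
      2 ^ A.card * (2 * (P * v)) ^ finrank (ZMod 2) N := by
  classical
  have hP := D.hP
  have hv := D.hv0
  have hZ : 0 < Z := by linarith [D.hZ]
  have h1 : ∀ X : Matrix (Fin s) (Fin n) (ZMod 2), gd T N X * pd (fun x => ind B x + P * Z) A X =
      ∑ A' ∈ A.powerset, gd T N X * pd (ind B) A' X * (P * Z) ^ (A \ A').card := by
    intro X
    unfold pd
    rw [Finset.prod_add, Finset.mul_sum]
    refine Finset.sum_congr rfl fun A' _ => ?_
    rw [Finset.prod_const]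
    ring
  rw [congrArg av (funext h1), av_sum]
  have h2 : (2 : ℝ) ^ A.card * (2 * (P * v)) ^ finrank (ZMod 2) N =
      ∑ A' ∈ A.powerset, (2 * (P * v)) ^ finrank (ZMod 2) N := by
    rw [Finset.sum_const, Finset.card_powerset, nsmul_eq_mul]
    push_cast
    rfl
  rw [h2]
  refine Finset.sum_le_sum fun A' hA' => ?_
  have hsub := Finset.mem_powerset.1 hA'
  rw [av_mul_right]
  obtain ⟨M0, hM0N, hM0, hch⟩ := chain D A' N
  obtain ⟨J, hJA, hli, hsp, hfr⟩ := exists_sel' M0 A'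
  have hdis := disj_sel M0 A' J hli
  have hM1 : M0 ⊔ Submodule.span (ZMod 2) (A' : Set (Fin s → ZMod 2)) ≤ N :=
    sup_le hM0N (Submodule.span_le.2 fun c hc => hAN c (hsub hc))
  have h3 := hch _ le_sup_left hM1
  have hci : ci A' (M0 ⊔ Submodule.span (ZMod 2) (A' : Set (Fin s → ZMod 2))) = A' := by
    ext c
    rw [mem_ci]
    exact ⟨fun h => h.1, fun h => ⟨h, Submodule.mem_sup_right (Submodule.subset_span h)⟩⟩
  rw [hci] at h3
  have h4 := hA M0 hM0N
  have h5 : (ci A' M0).card ≤ (ci A M0).card := Finset.card_le_card fun c hc =>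
    mem_ci.2 ⟨hsub (mem_ci.1 hc).1, (mem_ci.1 hc).2⟩
  have h6 : (A \ A').card + A'.card = A.card := Finset.card_sdiff_add_card_eq_card hsub
  have h7 := Submodule.finrank_mono hM1
  obtain ⟨σ, hσ⟩ := Nat.exists_eq_add_of_le h7
  have hav : av (fun X => gd T N X * pd (ind B) A' X) ≤
      (2 * (P * v)) ^ finrank (ZMod 2) M0 * P ^ J.card := by
    have h8 : ∀ X : Matrix (Fin s) (Fin n) (ZMod 2), gd T N X * pd (ind B) A' X ≤
        Ph1 B T A' M0 X * pd (ind B) J X := by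
      intro X
      have h9 : pd (ind B) A' X ≤ pd (ind B) (ci A' M0 ∪ J) X := by
        refine pd_le_of_subset (ind_nonneg B) (ind_le B) ?_ X
        intro c hc
        rcases Finset.mem_union.1 hc with hc | hc
        · exact (mem_ci.1 hc).1
        · exact hJA hc
      rw [pd_union hdis] at h9
      unfold Ph1
      calc gd T N X * pd (ind B) A' X ≤ gd T M0 X * (pd (ind B) (ci A' M0) X * pd (ind B) J X) :=
            mul_le_mul (gd_mono T hM0N X) h9 (pd_nonneg (ind_nonneg B) _ _) (gd_nonneg _ _ _)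
        _ = _ := by ring
    have h10 := tool_J M0 J hli (Θ := Ph1 B T A' M0) (g := ind B) (Ph1_nonneg B T A' M0)
      (Inv.ph1 B T A' M0) (ind_nonneg B)
    refine (av_mono h8).trans (h10.trans ?_)
    refine mul_le_mul hM0 (pow_le_pow_left₀ (av_nonneg (ind_nonneg B)) D.cB _)
      (pow_nonneg (av_nonneg (ind_nonneg B)) _) (by positivity)
  have hnum := dense_num D (a := (A \ A').card) (ρ := J.card) (σ := σ) (by omega)
  have hrr : finrank (ZMod 2) N = finrank (ZMod 2) M0 + (J.card + σ) := by omega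
  calc av (fun X => gd T N X * pd (ind B) A' X) * (P * Z) ^ (A \ A').card ≤
      (2 * (P * v)) ^ finrank (ZMod 2) M0 * P ^ J.card * (P * Z) ^ (A \ A').card :=
        mul_le_mul_of_nonneg_right hav (by positivity)
    _ = (2 * (P * v)) ^ finrank (ZMod 2) M0 * ((P * Z) ^ (A \ A').card * P ^ J.card) := by ring
    _ ≤ (2 * (P * v)) ^ finrank (ZMod 2) M0 * (P * v) ^ (J.card + σ) :=
        mul_le_mul_of_nonneg_left hnum (by positivity)
    _ ≤ (2 * (P * v)) ^ finrank (ZMod 2) M0 * (2 * (P * v)) ^ (J.card + σ) := by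
        refine mul_le_mul_of_nonneg_left (pow_le_pow_left₀ (by positivity) ?_ _) (by positivity)
        have : 0 < P * v := mul_pos hP hv
        linarith
    _ = (2 * (P * v)) ^ (finrank (ZMod 2) M0 + (J.card + σ)) := (pow_add _ _ _).symm
    _ = _ := by rw [hrr]

end Pool.Agent.N381.UG
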