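import Mathlib
import Pool.Agent.N381.UG.Dense

/-!
N381/UG (helper381, MP_0430e4_lc): the Fourier step for sparse parts.
-/

set_option autoImplicit false
set_option linter.unusedSectionVars false

namespace Pool.Agent.N381.UG

open Finset Matrix Module
open Pool.Agent.N381.LH

variable {s n r k ρ : ℕ}

variable {P Z v : ℝ} {f : (Fin n → ZMod 2) → ℝ} {B T Lo : Finset (Fin n → ZMod 2)}

/-- the function without its values on `T` -/
def g1 (f : (Fin n → ZMod 2) → ℝ) (T : Finset (Fin n → ZMod 2)) (x : Fin n → ZMod 2) : ℝ :=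
  f x - ind T x

lemma g1_in (D : Dat n P Z v f B T Lo) {x : Fin n → ZMod 2} (hx : x ∈ B) : |g1 f T x| ≤ 1 := by
  unfold g1 ind
  rw [D.fB x hx]
  split_ifs <;> norm_num

lemma g1_out (D : Dat n P Z v f B T Lo) {x : Fin n → ZMod 2} (hx : x ∉ B) :
    |g1 f T x| ≤ P * Z := by
  unfold g1 ind
  rw [if_neg (fun h => hx (D.TB h)), sub_zero]
  exact D.fo x hx

lemma g1_le (D : Dat n P Z v f B T Lo) (x : Fin n → ZMod 2) : |g1 f T x| ≤ ind B x + P * Z := by
  have hPZ : 0 ≤ P * Z := mul_nonneg D.hP.le (by linarith [D.hZ])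
  by_cases hx : x ∈ B
  · have := g1_in D hx
    unfold ind
    rw [if_pos hx]
    linarith
  · have := g1_out D hx
    unfold ind
    rw [if_neg hx]
    linarith

lemma g1_one (D : Dat n P Z v f B T Lo) (x : Fin n → ZMod 2) : |g1 f T x| ≤ 1 := by
  by_cases hx : x ∈ B
  · exact g1_in D hx
  · exact (g1_out D hx).trans D.PZ1

lemma g1_hat (D : Dat n P Z v f B T Lo) (y : Fin n → ZMod 2) :
    |hatv (g1 f T) y| ≤ 2 * (P * v ^ 3) := by
  have hZ : 0 < Z := by linarith [D.hZ]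
  have h1 : hatv (g1 f T) y = hatv f y - hatv (ind T) y := by
    unfold hatv g1
    rw [← av_sub]
    exact congrArg av (funext fun x => by ring)
  have h2 : |hatv (ind T) y| ≤ P * v ^ 3 := by
    refine (hatv_le_av _ _).trans (le_trans (le_of_eq ?_) (D.cT.trans ?_))
    · exact congrArg av (funext fun x => abs_of_nonneg (ind_nonneg T x))
    · rw [div_eq_mul_one_div]
      refine mul_le_mul_of_nonneg_left ?_ D.hP.le
      have h3 : 1 / Z ^ 40 = (1 / Z) ^ 40 := by rw [div_pow, one_pow]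
      rw [h3]
      exact (pow_le_pow_left₀ (by positivity) D.Zv 40).trans
        (pow_le_pow_of_le_one D.hv0.le D.hv1 (by norm_num))
  rw [h1]
  refine (abs_sub _ _).trans ?_
  have := D.fh y
  linarith

lemma g1_sq (D : Dat n P Z v f B T Lo) : (av fun x => g1 f T x ^ 2) ≤ 2 * P := by
  have hP := D.hP
  have hZ : 0 < Z := by linarith [D.hZ]
  have h1 : ∀ x, g1 f T x ^ 2 ≤ ind B x + (P * Z) ^ 2 := by
    intro x
    by_cases hx : x ∈ B
    · have h2 := g1_in D hx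
      have h3 : g1 f T x ^ 2 ≤ 1 := by
        rw [← sq_abs]
        exact pow_le_one₀ (abs_nonneg _) h2
      unfold ind
      rw [if_pos hx]
      have : 0 ≤ (P * Z) ^ 2 := sq_nonneg _
      linarith
    · have h2 := g1_out D hx
      have h3 : g1 f T x ^ 2 ≤ (P * Z) ^ 2 := by
        rw [← sq_abs]
        exact pow_le_pow_left₀ (abs_nonneg _) h2 2
      unfold ind
      rw [if_neg hx]
      linarith
  refine (av_mono h1).trans ?_
  rw [av_add (ind B) (fun _ => (P * Z) ^ 2), av_const]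
  have h2 : (P * Z) ^ 2 ≤ P := by
    have h3 : P * Z ^ 2 ≤ 1 := (mul_le_mul_of_nonneg_left (pow_le_pow_right₀ D.hZ (by norm_num))
      hP.le).trans D.hPZ
    calc (P * Z) ^ 2 = P * (P * Z ^ 2) := by ring
      _ ≤ P * 1 := mul_le_mul_of_nonneg_left h3 hP.le
      _ = P := mul_one _
  have := D.cB
  linarith

lemma g1_av (D : Dat n P Z v f B T Lo) : (av fun x => |g1 f T x|) ≤ 2 * (P * Z) := by
  refine (av_mono (g1_le D)).trans ?_
  rw [av_add (ind B) (fun _ => P * Z), av_const]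
  have := D.cB
  have := D.PPZ
  linarith

/-- **The Fourier step.** -/
lemma peel (D : Dat n P Z v f B T Lo) (M : Submodule (ZMod 2) (Fin s → ZMod 2))
    (S J : Finset (Fin s → ZMod 2)) (hJS : J ⊆ S)
    (hJ : LinearIndependent (ZMod 2) (fun j : J => M.mkQ (j : Fin s → ZMod 2)))
    (hcard : 8 * S.card ≤ 11 * J.card) (Θ : Matrix (Fin s) (Fin n) (ZMod 2) → ℝ) (hΘ : Inv M Θ)
    (Y : Matrix (Fin s) (Fin n) (ZMod 2)) :
    |av fun X => Θ X * (pd (g1 f T) S X * ch X Y)| ≤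
      (av fun X => |Θ X|) * (2 * (P * v)) ^ J.card := by
  classical
  have hP := D.hP
  have hv := D.hv0
  obtain ⟨ρ, hρ⟩ : ∃ ρ, ρ = J.card := ⟨_, rfl⟩
  rw [← hρ] at hcard ⊢
  let e : Fin ρ ≃ J := (Fintype.equivFinOfCardEq (by simp [hρ])).symm
  obtain ⟨l, hl1, hl2⟩ := exists_dual M (fun i => ((e i : J) : Fin s → ZMod 2)) (hJ.comp e e.injective)
  refine tool l Θ (fun X => pd (g1 f T) S X * ch X Y) (hΘ _ l hl1) fun X _ => ?_
  obtain ⟨Q, hQ⟩ : ∃ Q, Q = S \ J := ⟨_, rfl⟩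
  have hcQ : Q.card + J.card = S.card := by
    rw [hQ]
    exact Finset.card_sdiff_add_card_eq_card hJS
  obtain ⟨a, ha⟩ : ∃ a : (Fin s → ZMod 2) → (Fin ρ → ZMod 2), a = fun q i => q ⬝ᵥ l i := ⟨_, rfl⟩
  obtain ⟨J4, hJ4, hli4, hsp4, -⟩ := exists_sel (⊥ : Submodule (ZMod 2) (Fin ρ → ZMod 2)) a Q
  rw [bot_sup_eq, bot_sup_eq] at hsp4
  obtain ⟨m, hm⟩ : ∃ m, m = J4.card := ⟨_, rfl⟩
  have hmQ : m ≤ Q.card := hm ▸ Finset.card_le_card hJ4
  let e4 : Fin m ≃ J4 := (Fintype.equivFinOfCardEq (by simp [hm])).symm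
  let C : Matrix (Fin m) (Fin ρ) (ZMod 2) := Matrix.of fun t i => a ((e4 t : J4) : Fin s → ZMod 2) i
  have hCrow : ∀ t, C.row t = a ((e4 t : J4) : Fin s → ZMod 2) := fun t => rfl
  have hC : LinearIndependent (ZMod 2) C.row := by
    have h1 : LinearIndependent (ZMod 2) (fun t => (⊥ : Submodule (ZMod 2) (Fin ρ → ZMod 2)).mkQ
        (C.row t)) := hli4.comp e4 e4.injective
    exact LinearIndependent.of_comp _ h1
  have hrange : Set.range C.row = a '' (J4 : Set (Fin s → ZMod 2)) := by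
    ext y
    constructor
    · rintro ⟨t, rfl⟩
      exact ⟨_, (e4 t).2, rfl⟩
    · rintro ⟨c, hc, rfl⟩
      refine ⟨e4.symm ⟨c, hc⟩, ?_⟩
      rw [hCrow, e4.apply_symm_apply]
  have hex : ∀ q ∈ Q, ∃ b : Fin m → ZMod 2, b ᵥ* C = a q := by
    intro q hq
    have h1 : a q ∈ Submodule.span (ZMod 2) (Set.range C.row) := by
      rw [hrange, ← hsp4]
      exact Submodule.subset_span ⟨q, hq, rfl⟩
    obtain ⟨c, hc⟩ := (Submodule.mem_span_range_iff_exists_fun (ZMod 2)).1 h1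
    refine ⟨c, ?_⟩
    rw [Matrix.vecMul_eq_sum, ← hc]
    rfl
  choose! b hb using hex
  have hb4 : ∀ t, b ((e4 t : J4) : Fin s → ZMod 2) = Pi.single t 1 := by
    intro t
    have h1 := hb _ (hJ4 (e4 t).2)
    have h2 : (Pi.single t 1 : Fin m → ZMod 2) ᵥ* C = a ((e4 t : J4) : Fin s → ZMod 2) := by
      rw [Matrix.single_one_vecMul]
      rfl
    have h3 : Function.Injective fun c : Fin m → ZMod 2 => c ᵥ* C := Matrix.vecMul_injective_iff.2 hC
    exact h3 (h1.trans h2.symm)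
  obtain ⟨H, hH⟩ : ∃ H : Matrix (Fin m) (Fin n) (ZMod 2) → ℝ,
    H = fun w => ∏ q ∈ Q, g1 f T (q ᵥ* X + b q ᵥ* w) := ⟨_, rfl⟩
  obtain ⟨y', hy'⟩ : ∃ y' : Matrix (Fin ρ) (Fin n) (ZMod 2), y' = Matrix.of l * Y := ⟨_, rfl⟩
  obtain ⟨h, hh⟩ : ∃ h : Fin ρ → (Fin n → ZMod 2) → ℝ,
    h = fun i x => g1 f T (x + ((e i : J) : Fin s → ZMod 2) ᵥ* X) * sg (x ⬝ᵥ y' i) := ⟨_, rfl⟩
  have hβ : ∀ i y, |hatv (h i) y| ≤ 2 * (P * v ^ 3) := by
    intro i y
    have h1 : hatv (h i) y =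
        hatv (fun x => g1 f T (x + ((e i : J) : Fin s → ZMod 2) ᵥ* X)) (y' i + y) := by
      unfold hatv
      refine congrArg av (funext fun x => ?_)
      rw [hh, dotProduct_add, sg_add]
      ring
    rw [h1, hatv_shift]
    exact g1_hat D _
  have hb2 : ∀ i, (av fun x => h i x ^ 2) ≤ 2 * P := by
    intro i
    refine le_trans (le_of_eq ?_) (g1_sq D)
    rw [← av_add_right (((e i : J) : Fin s → ZMod 2) ᵥ* X) (fun x => g1 f T x ^ 2)]
    refine congrArg av (funext fun x => ?_)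
    rw [hh]
    simp only
    rw [mul_pow]
    have h1 : sg (x ⬝ᵥ y' i) ^ 2 = 1 := by rw [sq, sg_sq]
    rw [h1, mul_one]
  have hHb : (av fun w => H w ^ 2) ≤ (2 * P) ^ m := by
    have h1 : ∀ w : Matrix (Fin m) (Fin n) (ZMod 2), H w ^ 2 ≤
        ∏ t, g1 f T (((e4 t : J4) : Fin s → ZMod 2) ᵥ* X + w t) ^ 2 := by
      intro w
      rw [hH]
      simp only
      rw [← Finset.prod_pow, ← Finset.prod_sdiff hJ4]
      have h2 : ∏ q ∈ Q \ J4, g1 f T (q ᵥ* X + b q ᵥ* w) ^ 2 ≤ 1 := by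
        refine Finset.prod_le_one (fun _ _ => sq_nonneg _) fun q _ => ?_
        rw [← sq_abs]
        exact pow_le_one₀ (abs_nonneg _) (g1_one D _)
      have h3 : ∏ q ∈ J4, g1 f T (q ᵥ* X + b q ᵥ* w) ^ 2 =
          ∏ t, g1 f T (((e4 t : J4) : Fin s → ZMod 2) ᵥ* X + w t) ^ 2 := by
        rw [← Finset.prod_coe_sort J4, ← Equiv.prod_comp e4]
        refine Finset.prod_congr rfl fun t _ => ?_
        rw [hb4, Matrix.single_one_vecMul]
        rfl
      rw [h3]
      refine (mul_le_mul_of_nonneg_right h2 (Finset.prod_nonneg fun _ _ => sq_nonneg _)).trans ?_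
      rw [one_mul]
    refine (av_mono h1).trans ?_
    have h2 := av_prod_pi (α := Fin n → ZMod 2)
      (fun (t : Fin m) x => g1 f T (((e4 t : J4) : Fin s → ZMod 2) ᵥ* X + x) ^ 2)
    refine (le_of_eq (h2 : _)).trans ?_
    refine (Finset.prod_le_prod (fun _ _ => av_nonneg fun _ => sq_nonneg _) fun t _ => ?_).trans
      (le_of_eq (?_ : ∏ t : Fin m, 2 * P = (2 * P) ^ m))
    · refine le_trans (le_of_eq ?_) (g1_sq D)
      exact av_add_left (((e4 t : J4) : Fin s → ZMod 2) ᵥ* X) (fun x => g1 f T x ^ 2)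
    · rw [Finset.prod_const, Finset.card_univ, Fintype.card_fin]
  obtain ⟨hmρ, hfour⟩ := four C hC h H hβ hb2 (by positivity) hHb
  have hint : ∀ x : Matrix (Fin ρ) (Fin n) (ZMod 2),
      pd (g1 f T) S (X + tens l x) * ch (X + tens l x) Y =
        ch X Y * ((∏ i, h i (x i)) * H (C * x)) := by
    intro x
    have h1 : ch (X + tens l x) Y = ch X Y * ∏ i, sg (x i ⬝ᵥ y' i) := by
      unfold tens
      rw [ch_add_left, ch_mul, Matrix.transpose_transpose, ← hy', ch_prod x y']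
    have h2 : pd (g1 f T) S (X + tens l x) =
        (∏ i, g1 f T (x i + ((e i : J) : Fin s → ZMod 2) ᵥ* X)) * H (C * x) := by
      have h3 : S = J ∪ Q := by rw [hQ, Finset.union_sdiff_of_subset hJS]
      rw [h3, pd_union (by rw [hQ]; exact Finset.disjoint_sdiff), pd_enum (g1 f T) J e]
      congr 1
      · refine Finset.prod_congr rfl fun i _ => ?_
        rw [vec_tens]
        have h4 : (fun j => ((e i : J) : Fin s → ZMod 2) ⬝ᵥ l j) = Pi.single i 1 := by
          funext j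
          rw [hl2, Pi.single_apply]
          simp only [eq_comm]
        rw [h4, Matrix.single_one_vecMul, add_comm]
        rfl
      · rw [hH]
        unfold pd
        refine Finset.prod_congr rfl fun q hq => ?_
        rw [vec_tens, ← Matrix.vecMul_vecMul, hb q hq, ha]
    rw [h1, h2, hh]
    simp only
    rw [Finset.prod_mul_distrib]
    ring
  rw [congrArg av (funext hint), av_mul_left, abs_mul, ch_abs, one_mul]
  refine hfour.trans ?_
  obtain ⟨u, hu⟩ := Nat.exists_eq_add_of_le hmρ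
  have h1 : (2 * (P * v ^ 3)) ^ (ρ - m) * (2 * P) ^ m = (2 * P) ^ ρ * v ^ (3 * u) := by
    rw [hu, Nat.add_sub_cancel_left]
    ring
  have h2 : v ^ (3 * u) ≤ v ^ ρ := pow_le_pow_of_le_one hv.le D.hv1 (by omega)
  calc (2 * (P * v ^ 3)) ^ (ρ - m) * (2 * P) ^ m = (2 * P) ^ ρ * v ^ (3 * u) := h1
    _ ≤ (2 * P) ^ ρ * v ^ ρ := mul_le_mul_of_nonneg_left h2 (by positivity)
    _ = _ := by ring

end Pool.Agent.N381.UG
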