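import Mathlib
import Pool.Agent.N381.UG.Peel

/-!
N381/UG (helper381, MP_0430e4_lc): the Fourier coefficients of the product over all combinations.
-/

set_option autoImplicit false
set_option linter.unusedSectionVars false

namespace Pool.Agent.N381.UG

open Finset Matrix Module
open Pool.Agent.N381.LH

variable {s n r k ρ : ℕ}

variable {P Z v : ℝ} {f : (Fin n → ZMod 2) → ℝ} {B T Lo : Finset (Fin n → ZMod 2)}

lemma pd_abs (g : (Fin n → ZMod 2) → ℝ) (A : Finset (Fin s → ZMod 2))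
    (X : Matrix (Fin s) (Fin n) (ZMod 2)) : |pd g A X| = pd (fun x => |g x|) A X := by
  unfold pd
  rw [Finset.abs_prod]

lemma finrank_le_s (M : Submodule (ZMod 2) (Fin s → ZMod 2)) : finrank (ZMod 2) M ≤ s := by
  have := Submodule.finrank_le M
  rwa [Module.finrank_fin_fun] at this

lemma exists_best (S : Finset (Fin s → ZMod 2)) (N : Submodule (ZMod 2) (Fin s → ZMod 2))
    (a b : ℕ) : ∃ N', N ≤ N' ∧ ∀ M, N ≤ M →
      a * (ci S M).card + b * finrank (ZMod 2) N' ≤ a * (ci S N').card + b * finrank (ZMod 2) M := by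
  classical
  obtain ⟨N', h1, h2⟩ := Set.exists_max_image {M : Submodule (ZMod 2) (Fin s → ZMod 2) | N ≤ M}
    (fun M => (a * (ci S M).card : ℤ) - b * finrank (ZMod 2) M) (Set.toFinite _) ⟨N, (le_refl N : N ≤ N)⟩
  refine ⟨N', h1, fun M hM => ?_⟩
  have h3 := h2 M hM
  zify
  linarith

/-- the numerical bound -/
lemma term_num (D : Dat n P Z v f B T Lo) {j t : ℕ} (h : t ≤ 10 * j) :
    (P / Z ^ 40) ^ j * (P * Z) ^ t ≤ (P * v) ^ (j + t) := by
  have hP := D.hP
  have hv := D.hv0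
  have hZ : 0 < Z := by linarith [D.hZ]
  have h1 : (P / Z ^ 40) ^ j * (P * Z) ^ t = P ^ (j + t) * (Z ^ t / Z ^ (40 * j)) := by
    rw [div_pow, mul_pow, pow_add, pow_mul]
    field_simp
  rw [h1, mul_pow]
  refine mul_le_mul_of_nonneg_left ?_ (by positivity)
  calc Z ^ t / Z ^ (40 * j) ≤ Z ^ (10 * j) / Z ^ (40 * j) := by
        refine div_le_div_of_nonneg_right (pow_le_pow_right₀ D.hZ h) (by positivity)
    _ = (1 / Z) ^ (30 * j) := by
        have : 40 * j = 30 * j + 10 * j := by omega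
        rw [this, pow_add, div_pow, one_pow]
        field_simp
    _ ≤ v ^ (30 * j) := pow_le_pow_left₀ (by positivity) D.Zv _
    _ ≤ v ^ (j + t) := pow_le_pow_of_le_one hv.le D.hv1 (by omega)

lemma PvP (D : Dat n P Z v f B T Lo) : P * v ≤ 1 := by
  calc P * v ≤ 1 * 1 := mul_le_mul D.P1 D.hv1 D.hv0.le zero_le_one
    _ = 1 := one_mul 1

/-- **One term.** -/
lemma term (D : Dat n P Z v f B T Lo) (S L : Finset (Fin s → ZMod 2))
    (N : Submodule (ZMod 2) (Fin s → ZMod 2))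
    (hN : ∀ M, 4 * (ci S M).card + 5 * finrank (ZMod 2) N ≤
      4 * (ci S N).card + 5 * finrank (ZMod 2) M)
    (Y : Matrix (Fin s) (Fin n) (ZMod 2)) :
    |av fun X => gd T N X * pd (ind T) L X * pd (g1 f T) S X * ch X Y| ≤
      2 ^ S.card * 2 ^ s * (P * v) ^ Y.rank := by
  classical
  have hP := D.hP
  have hv := D.hv0
  have hZ : 0 < Z := by linarith [D.hZ]
  obtain ⟨N1, hN1⟩ : ∃ N1, N1 = N ⊔ Submodule.span (ZMod 2) (L : Set (Fin s → ZMod 2)) := ⟨_, rfl⟩
  obtain ⟨JL, hJL, hliL, -, hfrL⟩ := exists_sel' N L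
  rw [← hN1] at hfrL
  obtain ⟨N2, hN12, hbest⟩ := exists_best S N1 8 11
  obtain ⟨J2, hJ2, hli2, hsp2, hfr2⟩ := exists_sel' N1 (ci S N2)
  have hN2eq : N1 ⊔ Submodule.span (ZMod 2) ((ci S N2 : Finset (Fin s → ZMod 2)) :
      Set (Fin s → ZMod 2)) = N2 := by
    have h1 : N1 ⊔ Submodule.span (ZMod 2) ((ci S N2 : Finset (Fin s → ZMod 2)) :
      Set (Fin s → ZMod 2)) ≤ N2 :=
      sup_le hN12 (Submodule.span_le.2 fun c hc => (mem_ci.1 (Finset.mem_coe.1 hc)).2)
    refine Submodule.eq_of_le_of_finrank_le h1 ?_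
    have h2 := hbest _ (le_sup_left : N1 ≤ N1 ⊔ Submodule.span (ZMod 2)
      ((ci S N2 : Finset (Fin s → ZMod 2)) : Set (Fin s → ZMod 2)))
    have h3 : (ci S N2).card ≤ (ci S (N1 ⊔ Submodule.span (ZMod 2)
      ((ci S N2 : Finset (Fin s → ZMod 2)) : Set (Fin s → ZMod 2)))).card := by
      refine Finset.card_le_card fun c hc => ?_
      exact mem_ci.2 ⟨(mem_ci.1 hc).1, Submodule.mem_sup_right (Submodule.subset_span hc)⟩
    omega
  rw [hN2eq] at hfr2
  obtain ⟨M, hM⟩ : ∃ M, M = N2 ⊔ Submodule.span (ZMod 2) (S : Set (Fin s → ZMod 2)) := ⟨_, rfl⟩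
  obtain ⟨J3, hJ3, hli3, -, hfr3⟩ := exists_sel' N2 S
  rw [← hM] at hfr3
  have hSM : ∀ c ∈ S, c ∈ M := fun c hc => by
    rw [hM]
    exact Submodule.mem_sup_right (Submodule.subset_span hc)
  have hN2M : N2 ≤ M := hM ▸ le_sup_left
  have hNN1 : N ≤ N1 := hN1 ▸ le_sup_left
  have hLN1 : ∀ c ∈ L, c ∈ N1 := fun c hc => by
    rw [hN1]
    exact Submodule.mem_sup_right (Submodule.subset_span hc)
  obtain ⟨S3, hS3⟩ : ∃ S3, S3 = S \ ci S N2 := ⟨_, rfl⟩
  have hciS : ci S N2 ⊆ S := fun c hc => (mem_ci.1 hc).1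
  have hcS3 : S3.card + (ci S N2).card = S.card := by
    rw [hS3]
    exact Finset.card_sdiff_add_card_eq_card hciS
  have hdis3 := disj_sel N2 S J3 hli3
  have hJ3S : J3 ⊆ S3 := by
    intro c hc
    rw [hS3]
    exact Finset.mem_sdiff.2 ⟨hJ3 hc, fun h => Finset.disjoint_left.1 hdis3 h hc⟩
  have hciSM : ci S M = S := by
    ext c
    rw [mem_ci]
    exact ⟨fun h => h.1, fun h => ⟨h, hSM c h⟩⟩
  have hb1 := hbest M (hN12.trans hN2M)
  rw [hciSM] at hb1
  have hcard3 : 8 * S3.card ≤ 11 * J3.card := by omega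
  have hb2 := hbest N1 le_rfl
  have hb3 := hN N2
  have hb4 : (ci S N).card ≤ (ci S N1).card := Finset.card_le_card (ci_mono S hNN1)
  have hJ210 : J2.card ≤ 10 * JL.card := by omega
  -- the zero case
  by_cases hrank : finrank (ZMod 2) M < Y.rank
  · obtain ⟨l, hl1, hl2⟩ : ∃ l : Fin s → ZMod 2, (∀ x ∈ M, x ⬝ᵥ l = 0) ∧ l ᵥ* Y ≠ 0 := by
      by_contra hcon
      push Not at hcon
      exact absurd (rank_le_of M Y hcon) (not_le.2 hrank)
    have hinv : Inv M (fun X : Matrix (Fin s) (Fin n) (ZMod 2) =>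
        gd T N X * pd (ind T) L X * pd (g1 f T) S X) :=
      (((Inv.gd T N).mono (hNN1.trans (hN12.trans hN2M))).mul
        (Inv.pd (ind T) fun c hc => hN2M (hN12 (hLN1 c hc)))).mul (Inv.pd (g1 f T) hSM)
    rw [tool_zero l _ Y hl2 (fun X x => hinv 1 (fun _ => l) (fun _ => hl1) X x), abs_zero]
    positivity
  push Not at hrank
  -- the Fourier step
  obtain ⟨Θ2, hΘ2⟩ : ∃ Θ2 : Matrix (Fin s) (Fin n) (ZMod 2) → ℝ,
    Θ2 = fun X => gd T N X * pd (ind T) L X * pd (g1 f T) (ci S N2) X := ⟨_, rfl⟩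
  have hΘ2i : Inv N2 Θ2 := by
    rw [hΘ2]
    exact (((Inv.gd T N).mono (hNN1.trans hN12)).mul
        (Inv.pd (ind T) fun c hc => hN12 (hLN1 c hc))).mul
        (Inv.pd (g1 f T) fun c hc => (mem_ci.1 hc).2)
  have e1 : ∀ X : Matrix (Fin s) (Fin n) (ZMod 2),
      gd T N X * pd (ind T) L X * pd (g1 f T) S X * ch X Y =
        Θ2 X * (pd (g1 f T) S3 X * ch X Y) := by
    intro X
    have h1 : S = ci S N2 ∪ S3 := by rw [hS3, Finset.union_sdiff_of_subset hciS]
    have h2 : pd (g1 f T) S X = pd (g1 f T) (ci S N2) X * pd (g1 f T) S3 X := by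
      conv_lhs => rw [h1]
      rw [pd_union]
      rw [hS3]
      exact Finset.disjoint_sdiff
    rw [hΘ2, h2]
    ring
  rw [congrArg av (funext e1)]
  refine (peel D N2 S3 J3 hJ3S hli3 hcard3 Θ2 hΘ2i Y).trans ?_
  -- the rest
  have hdis2 := disj_sel N1 S J2 hli2
  have hg0 : ∀ x : Fin n → ZMod 2, 0 ≤ |g1 f T x| := fun x => abs_nonneg _
  obtain ⟨Θ0, hΘ0⟩ : ∃ Θ0 : Matrix (Fin s) (Fin n) (ZMod 2) → ℝ,
    Θ0 = fun X => gd T N X * pd (fun x => |g1 f T x|) (ci S N) X := ⟨_, rfl⟩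
  have hΘ0n : ∀ X, 0 ≤ Θ0 X := fun X => by
    rw [hΘ0]
    exact mul_nonneg (gd_nonneg _ _ _) (pd_nonneg hg0 _ _)
  have hΘ0i : Inv N Θ0 := by
    rw [hΘ0]
    exact (Inv.gd T N).mul (Inv.pd _ fun c hc => (mem_ci.1 hc).2)
  obtain ⟨Θ1, hΘ1⟩ : ∃ Θ1 : Matrix (Fin s) (Fin n) (ZMod 2) → ℝ,
    Θ1 = fun X => Θ0 X * pd (ind T) JL X := ⟨_, rfl⟩
  have hΘ1n : ∀ X, 0 ≤ Θ1 X := fun X => by
    rw [hΘ1]
    exact mul_nonneg (hΘ0n X) (pd_nonneg (ind_nonneg T) _ _)
  have hΘ1i : Inv N1 Θ1 := by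
    rw [hΘ1]
    exact (hΘ0i.mono hNN1).mul (Inv.pd _ fun c hc => hLN1 c (hJL hc))
  have e2 : (av fun X => |Θ2 X|) ≤ av fun X => Θ1 X * pd (fun x => |g1 f T x|) J2 X := by
    refine av_mono fun X => ?_
    have h1 : |Θ2 X| = gd T N X * pd (ind T) L X * pd (fun x => |g1 f T x|) (ci S N2) X := by
      rw [hΘ2]
      simp only
      rw [abs_mul, abs_mul, abs_of_nonneg (gd_nonneg _ _ _),
        abs_of_nonneg (pd_nonneg (ind_nonneg T) _ _), pd_abs]
    have h2 : pd (ind T) L X ≤ pd (ind T) JL X :=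
      pd_le_of_subset (ind_nonneg T) (ind_le T) hJL X
    have hdis : Disjoint (ci S N) J2 :=
      Finset.disjoint_of_subset_left (ci_mono S hNN1) hdis2
    have h3 : pd (fun x => |g1 f T x|) (ci S N2) X ≤
        pd (fun x => |g1 f T x|) (ci S N) X * pd (fun x => |g1 f T x|) J2 X := by
      rw [← pd_union hdis]
      refine pd_le_of_subset hg0 (g1_one D) ?_ X
      intro c hc
      rcases Finset.mem_union.1 hc with hc | hc
      · exact ci_mono S (hNN1.trans hN12) hc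
      · exact hJ2 hc
    rw [h1, hΘ1, hΘ0]
    calc gd T N X * pd (ind T) L X * pd (fun x => |g1 f T x|) (ci S N2) X ≤
        gd T N X * pd (ind T) JL X *
          (pd (fun x => |g1 f T x|) (ci S N) X * pd (fun x => |g1 f T x|) J2 X) :=
          mul_le_mul (mul_le_mul_of_nonneg_left h2 (gd_nonneg _ _ _)) h3 (pd_nonneg hg0 _ _)
            (mul_nonneg (gd_nonneg _ _ _) (pd_nonneg (ind_nonneg T) _ _))
      _ = _ := by ring
  have e3 := tool_J N1 J2 hli2 hΘ1n hΘ1i hg0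
  have e4 := tool_J N JL hliL hΘ0n hΘ0i (ind_nonneg T)
  have e5 : av Θ0 ≤ 2 ^ S.card * (2 * (P * v)) ^ finrank (ZMod 2) N := by
    have h1 : av Θ0 ≤ av fun X => gd T N X * pd (fun x => ind B x + P * Z) (ci S N) X := by
      refine av_mono fun X => ?_
      rw [hΘ0]
      refine mul_le_mul_of_nonneg_left ?_ (gd_nonneg _ _ _)
      unfold pd
      exact Finset.prod_le_prod (fun _ _ => abs_nonneg _) fun c _ => g1_le D _
    refine h1.trans ((dense D (ci S N) N (fun c hc => (mem_ci.1 hc).2) fun M' hM' => ?_).trans ?_)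
    · have h2 := hN M'
      have h3 : (ci (ci S N) M').card ≤ (ci S M').card := Finset.card_le_card fun c hc =>
        mem_ci.2 ⟨(mem_ci.1 (mem_ci.1 hc).1).1, (mem_ci.1 hc).2⟩
      omega
    · refine mul_le_mul_of_nonneg_right ?_ (by positivity)
      refine pow_le_pow_right₀ one_le_two (Finset.card_le_card fun c hc => (mem_ci.1 hc).1)
  have hcT : av (ind T) ^ JL.card ≤ (P / Z ^ 40) ^ JL.card :=
    pow_le_pow_left₀ (av_nonneg (ind_nonneg T)) D.cT _
  have hcg : (av fun x => |g1 f T x|) ^ J2.card ≤ (2 * (P * Z)) ^ J2.card :=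
    pow_le_pow_left₀ (av_nonneg hg0) (g1_av D) _
  have e6 : (av fun X => |Θ2 X|) ≤ 2 ^ S.card * (2 * (P * v)) ^ finrank (ZMod 2) N *
      (P / Z ^ 40) ^ JL.card * (2 * (P * Z)) ^ J2.card := by
    refine e2.trans (e3.trans ?_)
    refine mul_le_mul ?_ hcg (pow_nonneg (av_nonneg hg0) _) (by positivity)
    rw [hΘ1]
    refine e4.trans ?_
    exact mul_le_mul e5 hcT (pow_nonneg (av_nonneg (ind_nonneg T)) _) (by positivity)
  have hnum := term_num D hJ210
  have hfr : finrank (ZMod 2) M = finrank (ZMod 2) N + (JL.card + J2.card) + J3.card := by omega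
  have hMs := finrank_le_s M
  have hPv0 : 0 ≤ P * v := by positivity
  calc (av fun X => |Θ2 X|) * (2 * (P * v)) ^ J3.card ≤
      2 ^ S.card * (2 * (P * v)) ^ finrank (ZMod 2) N *
      (P / Z ^ 40) ^ JL.card * (2 * (P * Z)) ^ J2.card * (2 * (P * v)) ^ J3.card :=
        mul_le_mul_of_nonneg_right e6 (by positivity)
    _ = 2 ^ S.card * (2 * (P * v)) ^ finrank (ZMod 2) N *
      (2 ^ J2.card * ((P / Z ^ 40) ^ JL.card * (P * Z) ^ J2.card)) * (2 * (P * v)) ^ J3.card := by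
        rw [mul_pow 2 (P * Z)]
        ring
    _ ≤ 2 ^ S.card * (2 * (P * v)) ^ finrank (ZMod 2) N *
      (2 ^ (JL.card + J2.card) * (P * v) ^ (JL.card + J2.card)) * (2 * (P * v)) ^ J3.card := by
        refine mul_le_mul_of_nonneg_right (mul_le_mul_of_nonneg_left ?_ (by positivity))
          (by positivity)
        exact mul_le_mul (pow_le_pow_right₀ one_le_two (by omega)) hnum (by positivity)
          (by positivity)
    _ = 2 ^ S.card * (2 ^ finrank (ZMod 2) M * (P * v) ^ finrank (ZMod 2) M) := by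
        rw [hfr, mul_pow, mul_pow]
        ring
    _ ≤ 2 ^ S.card * (2 ^ s * (P * v) ^ Y.rank) := by
        refine mul_le_mul_of_nonneg_left ?_ (by positivity)
        exact mul_le_mul (pow_le_pow_right₀ one_le_two hMs)
          (pow_le_pow_of_le_one hPv0 (PvP D) hrank) (by positivity) (by positivity)
    _ = _ := by ring

/-- the product over all nonzero combinations -/
noncomputable def Wf (f : (Fin n → ZMod 2) → ℝ) (X : Matrix (Fin s) (Fin n) (ZMod 2)) : ℝ :=
  ∏ c ∈ (univ : Finset (Fin s → ZMod 2)).erase 0, (1 - f (c ᵥ* X))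

lemma split_T (T : Finset (Fin n → ZMod 2)) (N : Submodule (ZMod 2) (Fin s → ZMod 2))
    (X : Matrix (Fin s) (Fin n) (ZMod 2)) :
    ∏ c ∈ (univ : Finset (Fin s → ZMod 2)).erase 0, (1 - ind T (c ᵥ* X)) =
      ∑ L ∈ (((univ : Finset (Fin s → ZMod 2)).erase 0) \ ci (univ.erase 0) N).powerset,
        (-1 : ℝ) ^ L.card * (gd T N X * pd (ind T) L X) := by
  classical
  have hsub : ci (univ.erase 0) N ⊆ (univ : Finset (Fin s → ZMod 2)).erase 0 :=
    fun c hc => (mem_ci.1 hc).1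
  rw [← Finset.prod_sdiff hsub]
  have h1 : ∏ c ∈ ci (univ.erase 0) N, (1 - ind T (c ᵥ* X)) = gd T N X := by
    unfold gd
    split_ifs with h
    · refine Finset.prod_eq_one fun c hc => ?_
      have := h c (mem_ci.1 hc).2 (Finset.mem_erase.1 (mem_ci.1 hc).1).1
      unfold ind
      rw [if_neg this, sub_zero]
    · push Not at h
      obtain ⟨c, hc1, hc2, hc3⟩ := h
      refine Finset.prod_eq_zero (i := c) (mem_ci.2 ⟨Finset.mem_erase.2 ⟨hc2, Finset.mem_univ _⟩,
        hc1⟩) ?_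
      unfold ind
      rw [if_pos hc3, sub_self]
  have h2 : ∏ c ∈ ((univ : Finset (Fin s → ZMod 2)).erase 0) \ ci (univ.erase 0) N,
      (1 - ind T (c ᵥ* X)) =
      ∑ L ∈ (((univ : Finset (Fin s → ZMod 2)).erase 0) \ ci (univ.erase 0) N).powerset,
        (-1 : ℝ) ^ L.card * pd (ind T) L X := by
    have h3 : ∀ c : Fin s → ZMod 2, 1 - ind T (c ᵥ* X) = 1 + (-1) * ind T (c ᵥ* X) := fun c => by
      ring
    rw [Finset.prod_congr rfl fun c _ => h3 c, Finset.prod_one_add]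
    refine Finset.sum_congr rfl fun L _ => ?_
    rw [Finset.prod_mul_distrib, Finset.prod_const]
    rfl
  rw [h1, h2, Finset.sum_mul]
  exact Finset.sum_congr rfl fun L _ => by ring

lemma split_f (D : Dat n P Z v f B T Lo) (X : Matrix (Fin s) (Fin n) (ZMod 2)) :
    Wf f X = ∑ S ∈ ((univ : Finset (Fin s → ZMod 2)).erase 0).powerset,
      (-1 : ℝ) ^ S.card * (pd (g1 f T) S X *
        ∏ c ∈ (univ : Finset (Fin s → ZMod 2)).erase 0, (1 - ind T (c ᵥ* X))) := by
  classical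
  have h1 : ∀ x, 1 - f x = (1 + (-1) * g1 f T x) * (1 - ind T x) := by
    intro x
    by_cases hx : x ∈ T
    · have h2 := D.fB x (D.TB hx)
      unfold g1 ind
      rw [if_pos hx, h2]
      ring
    · unfold g1 ind
      rw [if_neg hx]
      ring
  unfold Wf
  rw [Finset.prod_congr rfl fun c _ => h1 (c ᵥ* X), Finset.prod_mul_distrib, Finset.prod_one_add,
    Finset.sum_mul]
  refine Finset.sum_congr rfl fun S _ => ?_
  rw [Finset.prod_mul_distrib, Finset.prod_const]
  unfold pd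
  ring

/-- the constant -/
noncomputable def KK (s : ℕ) : ℝ := 2 ^ (3 * 2 ^ s + s)

/-- **The Fourier coefficients of the product over all combinations.** -/
lemma What (D : Dat n P Z v f B T Lo) (Y : Matrix (Fin s) (Fin n) (ZMod 2)) :
    |av fun X => Wf f X * ch X Y| ≤ KK s * (P * v) ^ Y.rank := by
  classical
  have hP := D.hP
  have hv := D.hv0
  have hbest : ∀ S : Finset (Fin s → ZMod 2), ∃ N : Submodule (ZMod 2) (Fin s → ZMod 2),
      ∀ M, 4 * (ci S M).card + 5 * finrank (ZMod 2) N ≤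
      4 * (ci S N).card + 5 * finrank (ZMod 2) M := by
    intro S
    obtain ⟨N, -, h⟩ := exists_best S ⊥ 4 5
    exact ⟨N, fun M => h M bot_le⟩
  choose NN hNN using hbest
  have hexp : ∀ X : Matrix (Fin s) (Fin n) (ZMod 2), Wf f X * ch X Y =
      ∑ S ∈ ((univ : Finset (Fin s → ZMod 2)).erase 0).powerset,
      ∑ L ∈ (((univ : Finset (Fin s → ZMod 2)).erase 0) \ ci (univ.erase 0) (NN S)).powerset,
        (-1 : ℝ) ^ S.card * (-1 : ℝ) ^ L.card *
          (gd T (NN S) X * pd (ind T) L X * pd (g1 f T) S X * ch X Y) := by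
    intro X
    rw [split_f D X, Finset.sum_mul]
    refine Finset.sum_congr rfl fun S _ => ?_
    rw [split_T T (NN S) X, Finset.mul_sum, Finset.mul_sum, Finset.sum_mul]
    exact Finset.sum_congr rfl fun L _ => by ring
  rw [congrArg av (funext hexp), av_sum]
  have hcU : ((univ : Finset (Fin s → ZMod 2)).erase 0).card ≤ 2 ^ s := by
    refine (Finset.card_le_univ _).trans (le_of_eq ?_)
    rw [Fintype.card_fun, ZMod.card, Fintype.card_fin]
  have hS : ∀ S ∈ ((univ : Finset (Fin s → ZMod 2)).erase 0).powerset,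
      |av fun X => ∑ L ∈ (((univ : Finset (Fin s → ZMod 2)).erase 0) \
        ci (univ.erase 0) (NN S)).powerset, (-1 : ℝ) ^ S.card * (-1 : ℝ) ^ L.card *
          (gd T (NN S) X * pd (ind T) L X * pd (g1 f T) S X * ch X Y)| ≤
      2 ^ 2 ^ s * (2 ^ 2 ^ s * 2 ^ s * (P * v) ^ Y.rank) := by
    intro S hS
    rw [av_sum]
    refine (Finset.abs_sum_le_sum_abs _ _).trans ?_
    have hL : ∀ L ∈ (((univ : Finset (Fin s → ZMod 2)).erase 0) \
        ci (univ.erase 0) (NN S)).powerset, |av fun X => (-1 : ℝ) ^ S.card * (-1 : ℝ) ^ L.card *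
          (gd T (NN S) X * pd (ind T) L X * pd (g1 f T) S X * ch X Y)| ≤
        2 ^ 2 ^ s * 2 ^ s * (P * v) ^ Y.rank := by
      intro L _
      rw [av_mul_left, abs_mul, abs_mul, abs_pow, abs_pow, abs_neg, abs_one, one_pow, one_pow,
        one_mul, one_mul]
      refine (term D S L (NN S) (hNN S) Y).trans ?_
      refine mul_le_mul_of_nonneg_right (mul_le_mul_of_nonneg_right ?_ (by positivity))
        (by positivity)
      exact pow_le_pow_right₀ one_le_two ((Finset.card_le_card (Finset.mem_powerset.1 hS)).trans hcU)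
    refine (Finset.sum_le_sum hL).trans ?_
    rw [Finset.sum_const, nsmul_eq_mul, Finset.card_powerset]
    refine mul_le_mul_of_nonneg_right ?_ (by positivity)
    push_cast
    exact pow_le_pow_right₀ one_le_two ((Finset.card_le_card Finset.sdiff_subset).trans hcU)
  refine (Finset.abs_sum_le_sum_abs _ _).trans ((Finset.sum_le_sum hS).trans ?_)
  rw [Finset.sum_const, nsmul_eq_mul, Finset.card_powerset]
  have h1 : ((2 ^ ((univ : Finset (Fin s → ZMod 2)).erase 0).card : ℕ) : ℝ) ≤ 2 ^ 2 ^ s := by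
    push_cast
    exact pow_le_pow_right₀ one_le_two hcU
  refine (mul_le_mul_of_nonneg_right h1 (by positivity)).trans (le_of_eq ?_)
  unfold KK
  have : 3 * 2 ^ s + s = 2 ^ s + (2 ^ s + (2 ^ s + s)) := by ring
  rw [this, pow_add, pow_add, pow_add]
  ring

/-- the average of the product -/
lemma Wlow (D : Dat n P Z v f B T Lo) :
    1 - 2 ^ s * (2 * (P * Z)) ≤ av fun X : Matrix (Fin s) (Fin n) (ZMod 2) => Wf f X := by
  classical
  have hZ : 0 < Z := by linarith [D.hZ]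
  have hPZ : 0 ≤ P * Z := mul_nonneg D.hP.le hZ.le
  have hprod : ∀ (A : Finset (Fin s → ZMod 2)) (X : Matrix (Fin s) (Fin n) (ZMod 2)),
      1 - ∑ c ∈ A, |f (c ᵥ* X)| ≤ ∏ c ∈ A, (1 - f (c ᵥ* X)) ∧
        0 ≤ ∏ c ∈ A, (1 - f (c ᵥ* X)) := by
    intro A X
    have hnn : ∀ c : Fin s → ZMod 2, 0 ≤ 1 - f (c ᵥ* X) := fun c => by
      have := (abs_le.1 (D.f1 (c ᵥ* X))).2
      linarith
    refine ⟨?_, Finset.prod_nonneg fun c _ => hnn c⟩
    induction A using Finset.induction_on with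
    | empty => simp
    | insert a A ha ih =>
      rw [Finset.sum_insert ha, Finset.prod_insert ha]
      have h1 : 0 ≤ ∏ c ∈ A, (1 - f (c ᵥ* X)) := Finset.prod_nonneg fun c _ => hnn c
      have h2 : (1 - |f (a ᵥ* X)|) * ∏ c ∈ A, (1 - f (c ᵥ* X)) ≤
          (1 - f (a ᵥ* X)) * ∏ c ∈ A, (1 - f (c ᵥ* X)) := by
        refine mul_le_mul_of_nonneg_right ?_ h1
        linarith [le_abs_self (f (a ᵥ* X))]
      refine le_trans ?_ h2
      by_cases h3 : 1 - ∑ c ∈ A, |f (c ᵥ* X)| ≤ 0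
      · have h4 : 0 ≤ (1 - |f (a ᵥ* X)|) * ∏ c ∈ A, (1 - f (c ᵥ* X)) :=
          mul_nonneg (by linarith [D.f1 (a ᵥ* X)]) h1
        have := abs_nonneg (f (a ᵥ* X))
        linarith
      · push Not at h3
        have h4 : (1 - |f (a ᵥ* X)|) * (1 - ∑ c ∈ A, |f (c ᵥ* X)|) ≤
            (1 - |f (a ᵥ* X)|) * ∏ c ∈ A, (1 - f (c ᵥ* X)) :=
          mul_le_mul_of_nonneg_left ih (by linarith [D.f1 (a ᵥ* X)])
        have h5 : 0 ≤ |f (a ᵥ* X)| * ∑ c ∈ A, |f (c ᵥ* X)| :=
          mul_nonneg (abs_nonneg _) (Finset.sum_nonneg fun _ _ => abs_nonneg _)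
        nlinarith
  have hf : (av fun x => |f x|) ≤ 2 * (P * Z) := by
    have h1 : ∀ x, |f x| ≤ ind B x + P * Z := by
      intro x
      unfold ind
      split_ifs with hx
      · have := D.f1 x
        linarith
      · have := D.fo x hx
        linarith
    refine (av_mono h1).trans ?_
    rw [av_add (ind B) (fun _ => P * Z), av_const]
    have := D.cB
    have := D.PPZ
    linarith
  have hc : ∀ c ∈ (univ : Finset (Fin s → ZMod 2)).erase 0,
      (av fun X : Matrix (Fin s) (Fin n) (ZMod 2) => |f (c ᵥ* X)|) ≤ 2 * (P * Z) := by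
    intro c hc
    have hne := (Finset.mem_erase.1 hc).1
    have hli : LinearIndependent (ZMod 2) (fun j : ({c} : Finset (Fin s → ZMod 2)) =>
        (⊥ : Submodule (ZMod 2) (Fin s → ZMod 2)).mkQ (j : Fin s → ZMod 2)) := by
      rw [linearIndependent_unique_iff]
      intro h
      have h1 := (Submodule.Quotient.mk_eq_zero _).1 h
      exact hne ((Submodule.mem_bot _).1 h1)
    have h1 := tool_J (n := n) ⊥ {c} hli (Θ := fun _ => 1) (g := fun x => |f x|) (fun _ => zero_le_one)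
      (fun _ _ _ _ _ => rfl) (fun x => abs_nonneg _)
    rw [av_const, one_mul, Finset.card_singleton, pow_one] at h1
    refine le_trans (le_of_eq ?_) (h1.trans hf)
    refine congrArg av (funext fun X => ?_)
    unfold pd
    rw [Finset.prod_singleton, one_mul]
  have h1 : (av fun X : Matrix (Fin s) (Fin n) (ZMod 2) =>
      1 - ∑ c ∈ (univ : Finset (Fin s → ZMod 2)).erase 0, |f (c ᵥ* X)|) ≤
      av fun X : Matrix (Fin s) (Fin n) (ZMod 2) => Wf f X :=
    av_mono fun X => (hprod _ X).1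
  refine le_trans ?_ h1
  rw [av_sub (fun _ => (1 : ℝ)), av_const, av_sum]
  have h2 : ∑ c ∈ (univ : Finset (Fin s → ZMod 2)).erase 0,
      (av fun X : Matrix (Fin s) (Fin n) (ZMod 2) => |f (c ᵥ* X)|) ≤ 2 ^ s * (2 * (P * Z)) := by
    refine (Finset.sum_le_sum hc).trans ?_
    rw [Finset.sum_const, nsmul_eq_mul]
    refine mul_le_mul_of_nonneg_right ?_ (by positivity)
    refine (Nat.cast_le.2 (Finset.card_le_univ _)).trans (le_of_eq ?_)
    rw [Fintype.card_fun, ZMod.card, Fintype.card_fin]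
    push_cast
    rfl
  linarith

end Pool.Agent.N381.UG
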