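import Mathlib
import Pool.Agent.N381.UG.Term
import Pool.Agent.N381.LH.Pseudo

/-!
N381/UG (helper381, MP_0430e4_lc): the pseudo-code is feasible.
-/

set_option autoImplicit false
set_option linter.unusedSectionVars false

namespace Pool.Agent.N381.UG

open Finset Matrix Module
open Pool.Agent.N381.LH

variable {s n r k l d : ℕ}

variable {P Z v : ℝ} {f : (Fin n → ZMod 2) → ℝ} {B T Lo : Finset (Fin n → ZMod 2)}

lemma card_rank_le (Y : Matrix (Fin l) (Fin n) (ZMod 2)) (hr : 1 ≤ r) :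
    (univ.filter fun B : Matrix (Fin l) (Fin k) (ZMod 2) => (Bᵀ * Y).rank = r).card ≤
      (2 ^ k) ^ r * (M k Y * (2 ^ l) ^ r) := by
  classical
  have hD : ∀ b : Matrix (Fin r) (Fin k) (ZMod 2), ∃ D : Matrix (Fin k) (Fin r) (ZMod 2),
      (∃ D' : Matrix (Fin k) (Fin r) (ZMod 2), b * D' = 1) → b * D = 1 := by
    intro b
    by_cases h : ∃ D' : Matrix (Fin k) (Fin r) (ZMod 2), b * D' = 1
    · obtain ⟨D, hD⟩ := h
      exact ⟨D, fun _ => hD⟩
    · exact ⟨0, fun h' => absurd h' h⟩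
  choose D hD using hD
  have h1 : (univ.filter fun B : Matrix (Fin l) (Fin k) (ZMod 2) => (Bᵀ * Y).rank = r) ⊆
      (univ : Finset (Matrix (Fin r) (Fin k) (ZMod 2))).biUnion fun b =>
        univ.filter fun B : Matrix (Fin l) (Fin k) (ZMod 2) =>
          Bᵀ * Y = bᵀ * ((D b)ᵀ * (Bᵀ * Y)) := by
    intro B hB
    have hB' := (Finset.mem_filter.1 hB).2
    have hne : (Bᵀ * Y)ᵀ ≠ 0 := by
      intro h
      rw [← Matrix.rank_transpose, h, Matrix.rank_zero] at hB'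
      omega
    obtain ⟨s, -, b, C, ⟨D0, hD0⟩, ⟨E, hE⟩, hC⟩ := exists_factor _ hne
    have hs : s = r := by
      have a1 := Matrix.rank_mul_le_left b D0
      rw [hD0, Matrix.rank_one, Fintype.card_fin] at a1
      have a2 := Matrix.rank_mul_le_right C b
      have a3 := Matrix.rank_mul_le_right E (Bᵀ * Y)ᵀ
      have a4 := Matrix.rank_le_height b
      rw [hE] at a3
      rw [hC] at a2
      rw [Matrix.rank_transpose, hB'] at a2 a3
      omega
    subst hs
    refine Finset.mem_biUnion.2 ⟨b, Finset.mem_univ _, Finset.mem_filter.2 ⟨Finset.mem_univ _, ?_⟩⟩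
    have h2 : Bᵀ * Y = bᵀ * Cᵀ := by
      rw [← Matrix.transpose_mul, hC, Matrix.transpose_transpose]
    have h3 := hD b ⟨D0, hD0⟩
    have h4 : (D b)ᵀ * (bᵀ * Cᵀ) = Cᵀ := by
      rw [← Matrix.mul_assoc, ← Matrix.transpose_mul, h3, Matrix.transpose_one, Matrix.one_mul]
    rw [h2, h4]
  refine (Finset.card_le_card h1).trans (Finset.card_biUnion_le.trans ?_)
  refine (Finset.sum_le_sum fun b _ => count_le b (D b) Y).trans (le_of_eq ?_)
  rw [Finset.sum_const, smul_eq_mul, Finset.card_univ]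
  congr 1
  have h2 := card_mat r k
  exact_mod_cast h2

/-- the weight in coordinates -/
lemma wt_eq (b : Matrix (Fin s) (Fin k) (ZMod 2)) (C : Matrix (Fin l) (Fin s) (ZMod 2))
    (D : Matrix (Fin k) (Fin s) (ZMod 2)) (E : Matrix (Fin s) (Fin l) (ZMod 2))
    (B : Matrix (Fin l) (Fin k) (ZMod 2)) (hD : b * D = 1) (hE : E * B = b) (hC : C * b = B)
    (G : Matrix (Fin k) (Fin n) (ZMod 2)) : wt (fun x => - f x) B G = Wf f (b * G) := by
  classical
  have hinj : ∀ a a' : Fin s → ZMod 2, a ᵥ* b = a' ᵥ* b → a = a' := by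
    intro a a' h
    have h1 : (a ᵥ* b) ᵥ* D = (a' ᵥ* b) ᵥ* D := by rw [h]
    rwa [Matrix.vecMul_vecMul, Matrix.vecMul_vecMul, hD, Matrix.vecMul_one, Matrix.vecMul_one] at h1
  have h1 : (R B).erase 0 = ((univ : Finset (Fin s → ZMod 2)).erase 0).image fun a => a ᵥ* b := by
    ext x
    constructor
    · intro hx
      obtain ⟨h2, h3⟩ := Finset.mem_erase.1 hx
      obtain ⟨c, rfl⟩ := mem_R.1 h3
      refine Finset.mem_image.2 ⟨c ᵥ* C, Finset.mem_erase.2 ⟨?_, Finset.mem_univ _⟩, ?_⟩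
      · intro h4
        apply h2
        rw [← hC, ← Matrix.vecMul_vecMul, h4, Matrix.zero_vecMul]
      · rw [Matrix.vecMul_vecMul, hC]
    · intro hx
      obtain ⟨a, ha, rfl⟩ := Finset.mem_image.1 hx
      have ha0 := (Finset.mem_erase.1 ha).1
      refine Finset.mem_erase.2 ⟨fun h => ha0 (hinj a 0 (by rw [h, Matrix.zero_vecMul])),
        mem_R.2 ⟨a ᵥ* E, ?_⟩⟩
      rw [Matrix.vecMul_vecMul, hE]
  unfold wt Wf
  rw [h1, Finset.prod_image fun a _ a' _ h => hinj a a' h]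
  refine Finset.prod_congr rfl fun a _ => ?_
  rw [Matrix.vecMul_vecMul, sub_eq_add_neg]

/-- one term of the Fourier transform -/
noncomputable def EB (f : (Fin n → ZMod 2) → ℝ) (Y : Matrix (Fin l) (Fin n) (ZMod 2))
    (B : Matrix (Fin l) (Fin k) (ZMod 2)) : ℝ :=
  ∑ G : Matrix (Fin k) (Fin n) (ZMod 2), ch (B * G) Y * wt (fun x => - f x) B G

lemma wt_zero_B (u : (Fin n → ZMod 2) → ℝ) (G : Matrix (Fin k) (Fin n) (ZMod 2)) :
    wt u (0 : Matrix (Fin l) (Fin k) (ZMod 2)) G = 1 := by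
  unfold wt
  have : (R (0 : Matrix (Fin l) (Fin k) (ZMod 2))).erase 0 = ∅ := by
    rw [Finset.eq_empty_iff_forall_notMem]
    intro x hx
    obtain ⟨h2, h3⟩ := Finset.mem_erase.1 hx
    obtain ⟨c, rfl⟩ := mem_R.1 h3
    exact h2 (Matrix.vecMul_zero c)
  rw [this, Finset.prod_empty]

lemma EB_zero (Y : Matrix (Fin l) (Fin n) (ZMod 2)) :
    EB f Y (0 : Matrix (Fin l) (Fin k) (ZMod 2)) = ((2 : ℝ) ^ n) ^ k := by
  unfold EB
  simp only [Matrix.zero_mul, ch_zero_left, wt_zero_B, one_mul]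
  rw [Finset.sum_const, nsmul_eq_mul, mul_one, Finset.card_univ, card_mat]

/-- the terms in coordinates -/
lemma EB_eq (b : Matrix (Fin s) (Fin k) (ZMod 2)) (C : Matrix (Fin l) (Fin s) (ZMod 2))
    (D : Matrix (Fin k) (Fin s) (ZMod 2)) (E : Matrix (Fin s) (Fin l) (ZMod 2))
    (B : Matrix (Fin l) (Fin k) (ZMod 2)) (hD : b * D = 1) (hE : E * B = b) (hC : C * b = B)
    (Y : Matrix (Fin l) (Fin n) (ZMod 2)) :
    EB f Y B = ((2 : ℝ) ^ n) ^ k * av fun X => Wf f X * ch X (Cᵀ * Y) := by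
  classical
  have h1 := key b D hD (Bᵀ * Y) (Wf f)
  have h2 : Dᵀ * (Bᵀ * Y) = Cᵀ * Y := by
    rw [← hC, Matrix.transpose_mul, ← Matrix.mul_assoc, ← Matrix.mul_assoc, ← Matrix.transpose_mul,
      hD, Matrix.transpose_one, Matrix.one_mul]
  have h3 : Bᵀ * Y = bᵀ * (Dᵀ * (Bᵀ * Y)) := by
    rw [h2, ← hC, Matrix.transpose_mul, Matrix.mul_assoc]
  rw [if_pos h3, h2, card_mat, card_mat] at h1
  have h4 : EB f Y B = ∑ G : Matrix (Fin k) (Fin n) (ZMod 2), ch G (Bᵀ * Y) * Wf f (b * G) := by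
    unfold EB
    refine Finset.sum_congr rfl fun G _ => ?_
    rw [wt_eq b C D E B hD hE hC G, ch_mul]
  rw [← h4] at h1
  have hN : (0 : ℝ) < ((2 : ℝ) ^ n) ^ s := by positivity
  have h5 : (av fun X => Wf f X * ch X (Cᵀ * Y)) = ft (Wf f) (Cᵀ * Y) / ((2 : ℝ) ^ n) ^ s := by
    unfold av ft
    rw [card_mat]
  rw [h5, mul_div_assoc', eq_div_iff hN.ne', mul_comm]
  exact h1

lemma rank_eq (b : Matrix (Fin s) (Fin k) (ZMod 2)) (C : Matrix (Fin l) (Fin s) (ZMod 2))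
    (D : Matrix (Fin k) (Fin s) (ZMod 2)) (B : Matrix (Fin l) (Fin k) (ZMod 2)) (hD : b * D = 1)
    (hC : C * b = B) (Y : Matrix (Fin l) (Fin n) (ZMod 2)) : (Cᵀ * Y).rank = (Bᵀ * Y).rank := by
  have h2 : Dᵀ * (Bᵀ * Y) = Cᵀ * Y := by
    rw [← hC, Matrix.transpose_mul, ← Matrix.mul_assoc, ← Matrix.mul_assoc, ← Matrix.transpose_mul,
      hD, Matrix.transpose_one, Matrix.one_mul]
  have h3 : Bᵀ * Y = bᵀ * (Cᵀ * Y) := by
    rw [← hC, Matrix.transpose_mul, Matrix.mul_assoc]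
  have a1 := Matrix.rank_mul_le_right Dᵀ (Bᵀ * Y)
  have a2 := Matrix.rank_mul_le_right bᵀ (Cᵀ * Y)
  rw [h2] at a1
  rw [← h3] at a2
  omega

lemma KK_mono (h : s ≤ l) : KK s ≤ KK l := by
  unfold KK
  refine pow_le_pow_right₀ one_le_two ?_
  have := Nat.pow_le_pow_right (n := 2) (by norm_num) h
  omega

lemma KK_pos (s : ℕ) : 0 < KK s := by
  unfold KK
  positivity

lemma EB_abs (D : Dat n P Z v f B T Lo) (Y : Matrix (Fin l) (Fin n) (ZMod 2))
    (A : Matrix (Fin l) (Fin k) (ZMod 2)) :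
    |EB f Y A| ≤ ((2 : ℝ) ^ n) ^ k * (KK l * (P * v) ^ (Aᵀ * Y).rank) := by
  have hP := D.hP
  have hv := D.hv0
  by_cases hA : A = 0
  · subst hA
    rw [EB_zero, Matrix.transpose_zero, Matrix.zero_mul, Matrix.rank_zero, pow_zero, mul_one,
      abs_of_pos (by positivity)]
    refine le_mul_of_one_le_right (by positivity) ?_
    unfold KK
    exact one_le_pow₀ one_le_two
  · obtain ⟨s, hs, b, C, ⟨D0, hD0⟩, ⟨E, hE⟩, hC⟩ := exists_factor A hA
    rw [EB_eq b C D0 E A hD0 hE hC Y, abs_mul, abs_of_pos (by positivity),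
      ← rank_eq b C D0 A hD0 hC Y]
    refine mul_le_mul_of_nonneg_left ((What D (Cᵀ * Y)).trans ?_) (by positivity)
    exact mul_le_mul_of_nonneg_right (KK_mono (Finset.mem_Icc.1 hs).2) (by positivity)

lemma EB_low (D : Dat n P Z v f B T Lo) (hsm : 2 ^ l * (2 * (P * Z)) ≤ 1 / 2)
    (Y : Matrix (Fin l) (Fin n) (ZMod 2)) (A : Matrix (Fin l) (Fin k) (ZMod 2)) (hA0 : Aᵀ * Y = 0) :
    ((2 : ℝ) ^ n) ^ k / 2 ≤ EB f Y A := by
  have hP := D.hP
  have hZ : 0 < Z := by linarith [D.hZ]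
  by_cases hA : A = 0
  · subst hA
    rw [EB_zero]
    have : (0 : ℝ) < ((2 : ℝ) ^ n) ^ k := by positivity
    linarith
  · obtain ⟨s, hs, b, C, ⟨D0, hD0⟩, ⟨E, hE⟩, hC⟩ := exists_factor A hA
    have h2 : Cᵀ * Y = 0 := by
      have h3 : D0ᵀ * (Aᵀ * Y) = Cᵀ * Y := by
        rw [← hC, Matrix.transpose_mul, ← Matrix.mul_assoc, ← Matrix.mul_assoc,
          ← Matrix.transpose_mul, hD0, Matrix.transpose_one, Matrix.one_mul]
      rw [← h3, hA0, Matrix.mul_zero]
    rw [EB_eq b C D0 E A hD0 hE hC Y, h2, div_eq_mul_one_div]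
    refine mul_le_mul_of_nonneg_left ?_ (by positivity)
    simp only [ch_zero_right, mul_one]
    refine le_trans ?_ (Wlow (s := s) D)
    have h4 : (2 : ℝ) ^ s * (2 * (P * Z)) ≤ 2 ^ l * (2 * (P * Z)) := by
      refine mul_le_mul_of_nonneg_right ?_ (by positivity)
      exact pow_le_pow_right₀ one_le_two (Finset.mem_Icc.1 hs).2
    linarith

lemma f0_at_zero (D : Dat n P Z v f B T Lo) :
    f0 k (fun x => - f x) (0 : Matrix (Fin l) (Fin n) (ZMod 2)) = ((2 : ℝ) ^ n) ^ k := by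
  classical
  unfold f0
  have hf0 : f 0 = 1 := D.fB 0 (D.TB D.zT)
  have h1 : ∀ G : Matrix (Fin k) (Fin n) (ZMod 2), (∑ A : Matrix (Fin l) (Fin k) (ZMod 2),
      if A * G = 0 then wt (fun x => - f x) A G else 0) = 1 := by
    intro G
    rw [Finset.sum_eq_single 0]
    · rw [if_pos (Matrix.zero_mul G), wt_zero_B]
    · intro A _ hA
      split_ifs with h
      · obtain ⟨i, hi⟩ : ∃ i, A i ≠ 0 := by
          by_contra h
          push Not at h
          exact hA (by ext i j; exact congrFun (h i) j)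
        refine Finset.prod_eq_zero (i := Pi.single i 1 ᵥ* A) ?_ ?_
        · refine Finset.mem_erase.2 ⟨?_, mem_R.2 ⟨_, rfl⟩⟩
          rw [Matrix.single_one_vecMul]
          exact hi
        · rw [Matrix.vecMul_vecMul, h, Matrix.vecMul_zero]
          show 1 + -f 0 = 0
          rw [hf0]
          norm_num
      · rfl
    · intro h
      exact absurd (Finset.mem_univ _) h
  rw [Finset.sum_congr rfl fun G _ => h1 G, Finset.sum_const, nsmul_eq_mul, mul_one,
    Finset.card_univ, card_mat]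

/-- **The lower bound for the values, with parameters.** -/
theorem value (D : Dat n P Z v f B T Lo) (hB : ∀ x : Fin n → ZMod 2, hammingNorm x < d → x ∈ B)
    (hsm : 2 ^ l * (2 * (P * Z)) ≤ 1 / 2)
    (hx : KK l * (l * (2 ^ k * 2 ^ l * (P * v))) ≤ 1 / 4) (hx1 : 2 ^ k * 2 ^ l * (P * v) ≤ 1) :
    ∃ a : Matrix (Fin l) (Fin n) (ZMod 2) → ℝ, Fs l n d a ∧
      ((2 : ℝ) ^ k) ^ l / 2 ≤ ∑ X, a X := by
  classical
  have hP := D.hP
  have hv := D.hv0
  have hNK : (0 : ℝ) < ((2 : ℝ) ^ n) ^ k := by positivity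
  obtain ⟨u, hu⟩ : ∃ u : (Fin n → ZMod 2) → ℝ, u = fun x => - f x := ⟨_, rfl⟩
  have hu1 : ∀ x, 0 ≤ 1 + u x := fun x => by
    have := (abs_le.1 (D.f1 x)).2
    rw [hu]
    simp only
    linarith
  have hft : ∀ Y : Matrix (Fin l) (Fin n) (ZMod 2), ∑ X, f0 k u X * ch X Y =
      ∑ A : Matrix (Fin l) (Fin k) (ZMod 2), EB f Y A := by
    intro Y
    rw [f0_ft, Finset.sum_comm, hu]
    rfl
  obtain ⟨x, hxx⟩ : ∃ x : ℝ, x = 2 ^ k * 2 ^ l * (P * v) := ⟨_, rfl⟩
  rw [← hxx] at hx hx1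
  have hx0 : 0 ≤ x := by
    rw [hxx]
    positivity
  have hcount : ∀ Y : Matrix (Fin l) (Fin n) (ZMod 2),
      ∑ A ∈ univ.filter (fun A : Matrix (Fin l) (Fin k) (ZMod 2) => ¬ Aᵀ * Y = 0),
        (P * v) ^ (Aᵀ * Y).rank ≤ M k Y * (l * x) := by
    intro Y
    have h1 : ∀ A ∈ univ.filter (fun A : Matrix (Fin l) (Fin k) (ZMod 2) => ¬ Aᵀ * Y = 0),
        (Aᵀ * Y).rank ∈ Icc 1 l := by
      intro A hA
      refine Finset.mem_Icc.2 ⟨?_, (Matrix.rank_mul_le_left _ _).trans (Matrix.rank_le_width _)⟩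
      by_contra h
      have h2 : (Aᵀ * Y).rank = 0 := by omega
      refine (Finset.mem_filter.1 hA).2 ?_
      by_contra h3
      obtain ⟨s, hs, b, C, ⟨D0, hD0⟩, ⟨E, hE⟩, hC⟩ := exists_factor _ h3
      have a1 := Matrix.rank_mul_le_left b D0
      rw [hD0, Matrix.rank_one, Fintype.card_fin] at a1
      have a3 := Matrix.rank_mul_le_right E (Aᵀ * Y)
      rw [hE, h2] at a3
      have := (Finset.mem_Icc.1 hs).1
      omega
    rw [← Finset.sum_fiberwise_of_maps_to h1]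
    have h2 : ∀ r ∈ Icc 1 l, ∑ A ∈ (univ.filter (fun A : Matrix (Fin l) (Fin k) (ZMod 2) =>
        ¬ Aᵀ * Y = 0)).filter (fun A => (Aᵀ * Y).rank = r), (P * v) ^ (Aᵀ * Y).rank ≤
        M k Y * x := by
      intro r hr
      have hr1 := (Finset.mem_Icc.1 hr).1
      have h3 : ∑ A ∈ (univ.filter (fun A : Matrix (Fin l) (Fin k) (ZMod 2) =>
          ¬ Aᵀ * Y = 0)).filter (fun A => (Aᵀ * Y).rank = r), (P * v) ^ (Aᵀ * Y).rank ≤
          ((univ.filter fun A : Matrix (Fin l) (Fin k) (ZMod 2) => (Aᵀ * Y).rank = r).card : ℝ) *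
            (P * v) ^ r := by
        rw [← nsmul_eq_mul, ← Finset.sum_const]
        refine (Finset.sum_le_sum_of_subset_of_nonneg (t := univ.filter
          fun A : Matrix (Fin l) (Fin k) (ZMod 2) => (Aᵀ * Y).rank = r) ?_
          fun _ _ _ => by positivity).trans (Finset.sum_le_sum fun A hA => ?_)
        · intro A hA
          exact Finset.mem_filter.2 ⟨Finset.mem_univ _, (Finset.mem_filter.1 hA).2⟩
        · rw [(Finset.mem_filter.1 hA).2]
      refine h3.trans ?_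
      have h4 : ((univ.filter fun A : Matrix (Fin l) (Fin k) (ZMod 2) =>
          (Aᵀ * Y).rank = r).card : ℝ) ≤ (2 ^ k) ^ r * (M k Y * (2 ^ l) ^ r) := by
        exact_mod_cast card_rank_le Y hr1
      refine (mul_le_mul_of_nonneg_right h4 (by positivity)).trans ?_
      have h5 : ((2 : ℝ) ^ k) ^ r * (M k Y * (2 ^ l) ^ r) * (P * v) ^ r = M k Y * x ^ r := by
        rw [hxx, mul_pow, mul_pow]
        ring
      rw [h5]
      refine mul_le_mul_of_nonneg_left ?_ (Nat.cast_nonneg _)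
      have := pow_le_pow_of_le_one hx0 hx1 hr1
      rwa [pow_one] at this
    refine (Finset.sum_le_sum h2).trans (le_of_eq ?_)
    rw [Finset.sum_const, nsmul_eq_mul, Nat.card_Icc, Nat.add_sub_cancel]
    ring
  have hge : ∀ Y : Matrix (Fin l) (Fin n) (ZMod 2),
      0 ≤ ∑ X, f0 k u X * ch X Y := by
    intro Y
    rw [hft, ← Finset.sum_filter_add_sum_filter_not univ
      (fun A : Matrix (Fin l) (Fin k) (ZMod 2) => Aᵀ * Y = 0)]
    have h1 : ((2 : ℝ) ^ n) ^ k / 2 * M k Y ≤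
        ∑ A ∈ univ.filter (fun A : Matrix (Fin l) (Fin k) (ZMod 2) => Aᵀ * Y = 0), EB f Y A := by
      have h2 : ((2 : ℝ) ^ n) ^ k / 2 * M k Y =
          ∑ A ∈ univ.filter (fun A : Matrix (Fin l) (Fin k) (ZMod 2) => Aᵀ * Y = 0),
            ((2 : ℝ) ^ n) ^ k / 2 := by
        rw [Finset.sum_const, nsmul_eq_mul, mul_comm]
        rfl
      rw [h2]
      exact Finset.sum_le_sum fun A hA => EB_low D hsm Y A (Finset.mem_filter.1 hA).2
    have h3 : |∑ A ∈ univ.filter (fun A : Matrix (Fin l) (Fin k) (ZMod 2) => ¬ Aᵀ * Y = 0),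
        EB f Y A| ≤ ((2 : ℝ) ^ n) ^ k * (KK l * (M k Y * (l * x))) := by
      refine (Finset.abs_sum_le_sum_abs _ _).trans ((Finset.sum_le_sum fun A _ =>
        EB_abs D Y A).trans ?_)
      rw [← Finset.mul_sum, ← Finset.mul_sum]
      refine mul_le_mul_of_nonneg_left (mul_le_mul_of_nonneg_left (hcount Y) (KK_pos l).le) hNK.le
    have h4 := (abs_le.1 h3).1
    have h5 : ((2 : ℝ) ^ n) ^ k * (KK l * (M k Y * (l * x))) ≤ ((2 : ℝ) ^ n) ^ k * (M k Y * (1 / 4)) := by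
      refine mul_le_mul_of_nonneg_left ?_ hNK.le
      calc KK l * (M k Y * (l * x)) = M k Y * (KK l * (l * x)) := by ring
        _ ≤ M k Y * (1 / 4) := mul_le_mul_of_nonneg_left hx (Nat.cast_nonneg _)
    have h6 : 0 ≤ ((2 : ℝ) ^ n) ^ k * M k Y := by positivity
    linarith
  refine ⟨fun X => f0 k u X / ((2 : ℝ) ^ n) ^ k, ?_, ?_⟩
  · refine ⟨?_, fun X => ?_, fun X c h0 h1 => ?_, fun Y => ?_⟩
    · rw [hu, f0_at_zero D, div_self hNK.ne']
    · refine div_nonneg (Finset.sum_nonneg fun G _ => Finset.sum_nonneg fun A _ => ?_) hNK.le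
      split_ifs
      · exact wt_nonneg hu1 A G
      · exact le_rfl
    · have : f0 k u X = 0 := by
        refine Finset.sum_eq_zero fun G _ => Finset.sum_eq_zero fun A _ => ?_
        split_ifs with h
        · refine Finset.prod_eq_zero (i := c ᵥ* A) ?_ ?_
          · refine Finset.mem_erase.2 ⟨?_, mem_R.2 ⟨c, rfl⟩⟩
            intro h2
            rw [← h, ← Matrix.vecMul_vecMul, h2, Matrix.zero_vecMul, hammingNorm_zero] at h0
            exact lt_irrefl _ h0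
          · rw [Matrix.vecMul_vecMul, h, hu]
            simp only
            rw [D.fB _ (hB _ h1)]
            norm_num
        · rfl
      rw [this, zero_div]
    · have h2 : ∑ X, f0 k u X / ((2 : ℝ) ^ n) ^ k * ch X Y =
          (∑ X, f0 k u X * ch X Y) / ((2 : ℝ) ^ n) ^ k := by
        rw [Finset.sum_div]
        exact Finset.sum_congr rfl fun X _ => by ring
      rw [h2]
      exact div_nonneg (hge Y) hNK.le
  · have h1 := hft 0
    simp only [ch_zero_right, mul_one] at h1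
    rw [← Finset.sum_div, h1, le_div_iff₀ hNK]
    have h2 : ∑ A : Matrix (Fin l) (Fin k) (ZMod 2), ((2 : ℝ) ^ n) ^ k / 2 ≤
        ∑ A : Matrix (Fin l) (Fin k) (ZMod 2), EB f (0 : Matrix (Fin l) (Fin n) (ZMod 2)) A :=
      Finset.sum_le_sum fun A _ => EB_low D hsm 0 A (Matrix.mul_zero _)
    refine le_trans (le_of_eq ?_) h2
    rw [Finset.sum_const, nsmul_eq_mul, Finset.card_univ, card_mat]
    ring

end Pool.Agent.N381.UG
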