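import Mathlib
import Pool.Agent.N381.UG.Term

/-!
N381/UG (helper381, MP_0430e4_lc): counting subspaces, and sums over the lattice of subspaces.
-/

set_option autoImplicit false
set_option linter.unusedSectionVars false

namespace Pool.Agent.N381.UG

open Finset Matrix Module
open Pool.Agent.N381.LH

variable {s n i : ℕ}

/-- subspaces -/
abbrev Sb (s : ℕ) := Submodule (ZMod 2) (Fin s → ZMod 2)

noncomputable scoped instance instFintypeSb : Fintype (Sb s) := Fintype.ofFinite _

lemma card_V (s : ℕ) : Fintype.card (Fin s → ZMod 2) = 2 ^ s := by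
  rw [Fintype.card_fun, ZMod.card, Fintype.card_fin]

open Classical in
/-- small sets -/
noncomputable def Sm (s i : ℕ) : Finset (Finset (Fin s → ZMod 2)) :=
  univ.filter fun S => 0 ∉ S ∧ S.card ≤ i

lemma mem_Sm {S : Finset (Fin s → ZMod 2)} : S ∈ Sm s i ↔ 0 ∉ S ∧ S.card ≤ i := by
  classical
  unfold Sm
  rw [Finset.mem_filter]
  exact ⟨fun h => h.2, fun h => ⟨Finset.mem_univ _, h⟩⟩

lemma card_Sm (s i : ℕ) : (Sm s i).card ≤ (2 ^ s) ^ i := by
  classical
  have h1 : Sm s i ⊆ (univ : Finset (Fin i → Fin s → ZMod 2)).image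
      fun g => (univ.image g).erase 0 := by
    intro S hS
    obtain ⟨h0, hc⟩ := mem_Sm.1 hS
    let e : Fin S.card ≃ S := (Fintype.equivFinOfCardEq (by simp)).symm
    let g : Fin i → Fin s → ZMod 2 := fun j =>
      if h : (j : ℕ) < S.card then ((e ⟨j, h⟩ : S) : Fin s → ZMod 2) else 0
    refine Finset.mem_image.2 ⟨g, Finset.mem_univ _, ?_⟩
    ext x
    rw [Finset.mem_erase, Finset.mem_image]
    constructor
    · rintro ⟨hx, j, -, hj⟩
      by_cases h : (j : ℕ) < S.card
      · have : g j = ((e ⟨j, h⟩ : S) : Fin s → ZMod 2) := dif_pos h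
        rw [← hj, this]
        exact (e ⟨j, h⟩).2
      · have : g j = 0 := dif_neg h
        exact absurd (hj.symm.trans this) hx
    · intro hx
      refine ⟨fun h => h0 (h ▸ hx), ⟨(e.symm ⟨x, hx⟩ : Fin S.card), lt_of_lt_of_le
        (e.symm ⟨x, hx⟩).2 hc⟩, Finset.mem_univ _, ?_⟩
      have : g ⟨(e.symm ⟨x, hx⟩ : Fin S.card), lt_of_lt_of_le (e.symm ⟨x, hx⟩).2 hc⟩ =
          ((e ⟨(e.symm ⟨x, hx⟩ : Fin S.card), (e.symm ⟨x, hx⟩).2⟩ : S) : Fin s → ZMod 2) :=
        dif_pos (e.symm ⟨x, hx⟩).2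
      rw [this, Fin.eta, e.apply_symm_apply]
  refine (Finset.card_le_card h1).trans (Finset.card_image_le.trans (le_of_eq ?_))
  rw [Finset.card_univ, Fintype.card_fun, card_V, Fintype.card_fin]

lemma span_ci_univ (M : Sb s) : Submodule.span (ZMod 2)
    ((ci univ M : Finset (Fin s → ZMod 2)) : Set (Fin s → ZMod 2)) = M := by
  refine le_antisymm (Submodule.span_le.2 fun c hc => (mem_ci.1 (Finset.mem_coe.1 hc)).2) ?_
  intro c hc
  exact Submodule.subset_span (Finset.mem_coe.2 (mem_ci.2 ⟨Finset.mem_univ _, hc⟩))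

/-- a basis modulo a subspace -/
lemma exists_basis (N M : Sb s) (h : N ≤ M) : ∃ J : Finset (Fin s → ZMod 2), (∀ c ∈ J, c ∈ M) ∧
    0 ∉ J ∧ LinearIndependent (ZMod 2) (fun j : J => N.mkQ (j : Fin s → ZMod 2)) ∧
      M = N ⊔ Submodule.span (ZMod 2) (J : Set (Fin s → ZMod 2)) ∧
      finrank (ZMod 2) M = finrank (ZMod 2) N + J.card := by
  obtain ⟨J, h1, h2, h3, h4⟩ := exists_sel' N (ci univ M)
  rw [span_ci_univ, sup_eq_right.2 h] at h3 h4
  refine ⟨J, fun c hc => (mem_ci.1 (h1 hc)).2, fun h0 => ?_, h2, h3, h4⟩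
  exact h2.ne_zero ⟨0, h0⟩ (map_zero _)

lemma card_above (N : Sb s) (i : ℕ) [DecidablePred fun M : Sb s => N ≤ M ∧
    finrank (ZMod 2) M ≤ finrank (ZMod 2) N + i] :
    ((univ : Finset (Sb s)).filter fun M => N ≤ M ∧
      finrank (ZMod 2) M ≤ finrank (ZMod 2) N + i).card ≤ (2 ^ s) ^ i := by
  classical
  have h1 : ((univ : Finset (Sb s)).filter fun M => N ≤ M ∧
      finrank (ZMod 2) M ≤ finrank (ZMod 2) N + i) ⊆ (Sm s i).image fun S : Finset (Fin s → ZMod 2) =>
        N ⊔ Submodule.span (ZMod 2) (S : Set (Fin s → ZMod 2)) := by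
    intro M hM
    obtain ⟨h2, h3⟩ := (Finset.mem_filter.1 hM).2
    obtain ⟨J, -, h0, -, h4, h5⟩ := exists_basis N M h2
    exact Finset.mem_image.2 ⟨J, mem_Sm.2 ⟨h0, by omega⟩, h4.symm⟩
  exact (Finset.card_le_card h1).trans (Finset.card_image_le.trans (card_Sm s i))

/-- the common kernel -/
def kerl (l : Fin i → Fin s → ZMod 2) : Sb s where
  carrier := {x | ∀ j, x ⬝ᵥ l j = 0}
  add_mem' := by
    intro a b ha hb j
    rw [add_dotProduct, ha j, hb j, add_zero]
  zero_mem' := fun j => zero_dotProduct _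
  smul_mem' := by
    intro c a ha j
    rw [smul_dotProduct, ha j, smul_zero]

lemma card_below (N : Sb s) (i : ℕ) [DecidablePred fun M : Sb s => M ≤ N ∧
    finrank (ZMod 2) M + i = finrank (ZMod 2) N] :
    ((univ : Finset (Sb s)).filter fun M => M ≤ N ∧
      finrank (ZMod 2) M + i = finrank (ZMod 2) N).card ≤ (2 ^ s) ^ i := by
  classical
  have h1 : ((univ : Finset (Sb s)).filter fun M => M ≤ N ∧
      finrank (ZMod 2) M + i = finrank (ZMod 2) N) ⊆
      (univ : Finset (Fin i → Fin s → ZMod 2)).image fun l => N ⊓ kerl l := by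
    intro M hM
    obtain ⟨h2, h3⟩ := (Finset.mem_filter.1 hM).2
    obtain ⟨J, h6, -, h7, h4, h5⟩ := exists_basis M N h2
    have hcJ : J.card = i := by omega
    let e : Fin i ≃ J := (Fintype.equivFinOfCardEq (by simp [hcJ])).symm
    obtain ⟨l, hl1, hl2⟩ := exists_dual M (fun i => ((e i : J) : Fin s → ZMod 2))
      (h7.comp e e.injective)
    refine Finset.mem_image.2 ⟨l, Finset.mem_univ _, ?_⟩
    refine le_antisymm ?_ (le_inf h2 fun x hx j => hl1 j x hx)
    rintro x ⟨hx1, hx2⟩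
    have hr : Set.range (fun i => ((e i : J) : Fin s → ZMod 2)) = (J : Set (Fin s → ZMod 2)) := by
      ext y
      constructor
      · rintro ⟨i, rfl⟩
        exact (e i).2
      · intro hy
        refine ⟨e.symm ⟨y, hy⟩, ?_⟩
        simp only
        rw [e.apply_symm_apply]
    have h8 := coord_mem M (fun i => ((e i : J) : Fin s → ZMod 2)) l hl1 hl2 x (by
      rw [hr, ← h4]
      exact hx1)
    have h9 : ∑ i, (x ⬝ᵥ l i) • ((e i : J) : Fin s → ZMod 2) = 0 :=
      Finset.sum_eq_zero fun i _ => by rw [hx2 i, zero_smul]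
    rw [h9, sub_zero] at h8
    exact h8
  refine (Finset.card_le_card h1).trans (Finset.card_image_le.trans (le_of_eq ?_))
  rw [Finset.card_univ, Fintype.card_fun, card_V, Fintype.card_fin]

lemma geom_quarter (d : ℕ) : ∑ i ∈ Icc 1 d, ((1 : ℝ) / 4) ^ i ≤ 1 / 3 := by
  have h : ∀ d : ℕ, ∑ i ∈ Icc 1 d, ((1 : ℝ) / 4) ^ i = 1 / 3 - 1 / 3 * (1 / 4) ^ d := by
    intro d
    induction d with
    | zero => simp
    | succ d ih =>
      rw [Finset.sum_Icc_succ_top (by omega), ih]
      ring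
  rw [h]
  have : (0 : ℝ) ≤ 1 / 3 * (1 / 4) ^ d := by positivity
  linarith

open Classical in
/-- **The recursion over the lattice of subspaces.** -/
lemma rec_bound (Nb : Sb s) (D : Sb s → ℝ) (Sp : Sb s → Sb s → ℝ) (b : ℕ)
    (h1 : ∀ N, Nb ≤ N → |∑ M ∈ univ.filter (fun M : Sb s => Nb ≤ M ∧ M ≤ N), D M * Sp M N| ≤ 1)
    (h2 : ∀ N, Nb ≤ N → Sp N N = 1)
    (h3 : ∀ M N, Nb ≤ M → M ≤ N →
      |Sp M N| ≤ (((2 : ℝ) ^ s) ^ b) ^ (finrank (ZMod 2) N - finrank (ZMod 2) M)) :
    ∀ (d : ℕ) (N : Sb s), Nb ≤ N → finrank (ZMod 2) N = finrank (ZMod 2) Nb + d →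
      |D N| ≤ (((2 : ℝ) ^ s) ^ (b + 3)) ^ d := by
  intro d
  induction d using Nat.strong_induction_on with
  | _ d ih =>
  intro N hN hd
  have hmem : N ∈ univ.filter (fun M : Sb s => Nb ≤ M ∧ M ≤ N) :=
    Finset.mem_filter.2 ⟨Finset.mem_univ _, hN, le_rfl⟩
  have e1 := Finset.add_sum_erase _ (fun M => D M * Sp M N) hmem
  rw [h2 N hN, mul_one] at e1
  rcases Nat.eq_zero_or_pos d with hd0 | hd0
  · have hNN : Nb = N := Submodule.eq_of_le_of_finrank_eq hN (by omega)
    have h4 : (univ.filter (fun M : Sb s => Nb ≤ M ∧ M ≤ N)).erase N = ∅ := by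
      rw [Finset.eq_empty_iff_forall_notMem]
      intro M hM
      obtain ⟨h5, h6⟩ := Finset.mem_erase.1 hM
      obtain ⟨h7, h8⟩ := (Finset.mem_filter.1 h6).2
      exact h5 (le_antisymm h8 (hNN ▸ h7))
    rw [h4, Finset.sum_empty, add_zero] at e1
    rw [hd0, pow_zero, e1]
    exact h1 N hN
  · obtain ⟨Q, hQ⟩ : ∃ Q : ℝ, Q = 2 ^ s := ⟨_, rfl⟩
    rw [← hQ] at ih h3 ⊢
    have hs : 1 ≤ s := by
      have := finrank_le_s N
      omega
    have hQ2 : 2 ≤ Q := by
      rw [hQ]
      calc (2 : ℝ) = 2 ^ 1 := (pow_one 2).symm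
        _ ≤ 2 ^ s := pow_le_pow_right₀ one_le_two hs
    have hQ0 : 0 < Q := by linarith
    obtain ⟨κ, hκ⟩ : ∃ κ : ℝ, κ = Q ^ (b + 3) := ⟨_, rfl⟩
    rw [← hκ] at ih ⊢
    have hκ0 : 0 < κ := by rw [hκ]; positivity
    have h4 : |∑ M ∈ (univ.filter (fun M : Sb s => Nb ≤ M ∧ M ≤ N)).erase N, D M * Sp M N| ≤
        κ ^ d * (1 / 3) := by
      refine (Finset.abs_sum_le_sum_abs _ _).trans ?_
      have h5 : ∀ M ∈ (univ.filter (fun M : Sb s => Nb ≤ M ∧ M ≤ N)).erase N,
          finrank (ZMod 2) N - finrank (ZMod 2) M ∈ Icc 1 d := by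
        intro M hM
        obtain ⟨h6, h7⟩ := Finset.mem_erase.1 hM
        obtain ⟨h8, h9⟩ := (Finset.mem_filter.1 h7).2
        have h10 := Submodule.finrank_lt_finrank_of_lt (lt_of_le_of_ne h9 h6)
        have h11 := Submodule.finrank_mono h8
        exact Finset.mem_Icc.2 ⟨by omega, by omega⟩
      rw [← Finset.sum_fiberwise_of_maps_to h5]
      have h6 : ∀ j ∈ Icc 1 d, ∑ M ∈ ((univ.filter (fun M : Sb s => Nb ≤ M ∧ M ≤ N)).erase N).filter
          (fun M : Sb s => finrank (ZMod 2) N - finrank (ZMod 2) M = j), |D M * Sp M N| ≤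
          κ ^ d * (1 / 4) ^ j := by
        intro j hj
        obtain ⟨hj1, hj2⟩ := Finset.mem_Icc.1 hj
        have h7 : ∀ M ∈ ((univ.filter (fun M : Sb s => Nb ≤ M ∧ M ≤ N)).erase N).filter
            (fun M : Sb s => finrank (ZMod 2) N - finrank (ZMod 2) M = j), |D M * Sp M N| ≤
            κ ^ (d - j) * (Q ^ b) ^ j := by
          intro M hM
          obtain ⟨h8, h9⟩ := Finset.mem_filter.1 hM
          obtain ⟨h10, h11⟩ := Finset.mem_erase.1 h8
          obtain ⟨h12, h13⟩ := (Finset.mem_filter.1 h11).2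
          have h14 := Submodule.finrank_mono h12
          have h15 := Submodule.finrank_mono h13
          rw [abs_mul]
          refine mul_le_mul (ih (d - j) (by omega) M h12 (by omega)) ?_ (abs_nonneg _)
            (by positivity)
          have := h3 M N h12 h13
          rwa [h9] at this
        refine (Finset.sum_le_sum h7).trans ?_
        rw [Finset.sum_const, nsmul_eq_mul]
        have h8 : ((((univ.filter (fun M : Sb s => Nb ≤ M ∧ M ≤ N)).erase N).filter
            (fun M : Sb s => finrank (ZMod 2) N - finrank (ZMod 2) M = j)).card : ℝ) ≤ Q ^ j := by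
          have h9 : (((univ.filter (fun M : Sb s => Nb ≤ M ∧ M ≤ N)).erase N).filter
            (fun M : Sb s => finrank (ZMod 2) N - finrank (ZMod 2) M = j)).card ≤ (2 ^ s) ^ j := by
            refine (Finset.card_le_card fun M hM => ?_).trans (card_below N j)
            obtain ⟨h8, h9⟩ := Finset.mem_filter.1 hM
            obtain ⟨h10, h11⟩ := Finset.mem_erase.1 h8
            obtain ⟨h12, h13⟩ := (Finset.mem_filter.1 h11).2
            have h15 := Submodule.finrank_mono h13
            exact Finset.mem_filter.2 ⟨Finset.mem_univ _, h13, by omega⟩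
          rw [hQ]
          exact_mod_cast h9
        refine (mul_le_mul_of_nonneg_right h8 (by positivity)).trans ?_
        have h9 : κ ^ d = κ ^ (d - j) * (Q ^ (b + 3)) ^ j := by
          rw [← hκ, ← pow_add]
          congr 1
          omega
        rw [h9, mul_assoc]
        have h10 : Q ^ j * (κ ^ (d - j) * (Q ^ b) ^ j) =
            κ ^ (d - j) * ((Q ^ (b + 3)) ^ j * (1 / Q ^ 2) ^ j) := by
          rw [← mul_pow, mul_left_comm, ← mul_pow]
          congr 2
          field_simp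
          ring
        rw [h10]
        refine mul_le_mul_of_nonneg_left (mul_le_mul_of_nonneg_left ?_ (by positivity))
          (by positivity)
        refine pow_le_pow_left₀ (by positivity) ?_ j
        rw [div_le_div_iff₀ (by positivity) (by norm_num)]
        nlinarith
      refine (Finset.sum_le_sum h6).trans ?_
      rw [← Finset.mul_sum]
      exact mul_le_mul_of_nonneg_left (geom_quarter d) (by positivity)
    have h5 : (8 : ℝ) ≤ κ ^ d := by
      calc (8 : ℝ) = 2 ^ 3 := by norm_num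
        _ ≤ Q ^ 3 := pow_le_pow_left₀ (by norm_num) hQ2 3
        _ ≤ Q ^ (b + 3) := pow_le_pow_right₀ (by linarith) (by omega)
        _ = κ ^ 1 := by rw [hκ, pow_one]
        _ ≤ κ ^ d := by
          refine pow_le_pow_right₀ ?_ hd0
          rw [hκ]
          exact one_le_pow₀ (by linarith)
    have h6 := h1 N hN
    rw [← e1] at h6
    have h7 := abs_le.1 h4
    have h8 := abs_le.1 h6
    exact abs_le.2 ⟨by linarith, by linarith⟩

end Pool.Agent.N381.UG
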