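import Mathlib
import Pool.Agent.N381.UG.Sub2

/-!
N381/UG (helper381, MP_0430e4_lc): dense and sparse parts of sets of combinations.
-/

set_option autoImplicit false
set_option linter.unusedSectionVars false

namespace Pool.Agent.N381.UG

open Finset Matrix Module
open Pool.Agent.N381.LH

variable {s n i : ℕ}

/-- dense sets -/
def Dns (N : Sb s) (S : Finset (Fin s → ZMod 2)) : Prop :=
  (∀ c ∈ S, c ∈ N) ∧ ∀ M, M ≤ N → 4 * (ci S M).card + 5 * finrank (ZMod 2) N ≤
    4 * S.card + 5 * finrank (ZMod 2) M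

/-- sparse sets -/
def Spr (N : Sb s) (S : Finset (Fin s → ZMod 2)) : Prop :=
  (∀ c ∈ S, c ∉ N) ∧ ∀ M, N < M → 4 * (ci S M).card + 5 * finrank (ZMod 2) N <
    5 * finrank (ZMod 2) M

lemma ci_ci (S : Finset (Fin s → ZMod 2)) {M N : Sb s} (h : M ≤ N) : ci (ci S N) M = ci S M := by
  ext c
  rw [mem_ci, mem_ci, mem_ci]
  exact ⟨fun h1 => ⟨h1.1.1, h1.2⟩, fun h1 => ⟨⟨h1.1, h h1.2⟩, h1.2⟩⟩

lemma card_ci_sdiff (S : Finset (Fin s → ZMod 2)) {M N : Sb s} (h : N ≤ M) :
    (ci (S \ ci S N) M).card + (ci S N).card = (ci S M).card := by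
  have h1 : ci (S \ ci S N) M = ci S M \ ci S N := by
    ext c
    rw [mem_ci, Finset.mem_sdiff, Finset.mem_sdiff, mem_ci (M := M)]
    tauto
  rw [h1]
  exact Finset.card_sdiff_add_card_eq_card (ci_mono S h)

lemma ci_sup_inf (S : Finset (Fin s → ZMod 2)) (M N : Sb s) :
    (ci S M).card + (ci S N).card ≤ (ci S (M ⊔ N)).card + (ci S (M ⊓ N)).card := by
  classical
  rw [← Finset.card_union_add_card_inter]
  refine Nat.add_le_add (Finset.card_le_card ?_) (Finset.card_le_card ?_)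
  · intro c hc
    rcases Finset.mem_union.1 hc with hc | hc
    · exact ci_mono S le_sup_left hc
    · exact ci_mono S le_sup_right hc
  · intro c hc
    obtain ⟨h1, h2⟩ := Finset.mem_inter.1 hc
    exact mem_ci.2 ⟨(mem_ci.1 h1).1, (mem_ci.1 h1).2, (mem_ci.1 h2).2⟩

lemma exists_N (S : Finset (Fin s → ZMod 2)) : ∃ N : Sb s, Dns N (ci S N) ∧ Spr N (S \ ci S N) := by
  classical
  obtain ⟨N, -, h2⟩ := Set.exists_max_image (Set.univ : Set (Sb s))
    (fun M => ((s : ℤ) + 1) * (4 * (ci S M).card - 5 * finrank (ZMod 2) M) +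
      finrank (ZMod 2) M) (Set.toFinite _) ⟨⊥, Set.mem_univ _⟩
  refine ⟨N, ⟨fun c hc => (mem_ci.1 hc).2, fun M hM => ?_⟩, fun c hc => ?_, fun M hM => ?_⟩
  · rw [ci_ci S hM]
    have h3 := h2 M (Set.mem_univ _)
    have h4 := finrank_le_s N
    by_contra h5
    push Not at h5
    have h6 : (4 * (ci S N).card - 5 * finrank (ZMod 2) N : ℤ) + 1 ≤
        4 * (ci S M).card - 5 * finrank (ZMod 2) M := by
      zify at h5
      linarith
    have h7 : ((s : ℤ) + 1) * ((4 * (ci S N).card - 5 * finrank (ZMod 2) N : ℤ) + 1) ≤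
        ((s : ℤ) + 1) * (4 * (ci S M).card - 5 * finrank (ZMod 2) M) :=
      mul_le_mul_of_nonneg_left h6 (by positivity)
    have h8 : (finrank (ZMod 2) N : ℤ) ≤ s := by exact_mod_cast h4
    have h9 : (0 : ℤ) ≤ finrank (ZMod 2) M := by positivity
    rw [mul_add, mul_one] at h7
    linarith
  · intro h
    obtain ⟨h1, h2⟩ := Finset.mem_sdiff.1 hc
    exact h2 (mem_ci.2 ⟨h1, h⟩)
  · have h3 := h2 M (Set.mem_univ _)
    have h4 := Submodule.finrank_lt_finrank_of_lt hM
    have h5 := card_ci_sdiff S hM.le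
    have h6 : (4 * (ci S M).card - 5 * finrank (ZMod 2) M : ℤ) <
        4 * (ci S N).card - 5 * finrank (ZMod 2) N := by
      by_contra h7
      push Not at h7
      have h8 : ((s : ℤ) + 1) * (4 * (ci S N).card - 5 * finrank (ZMod 2) N : ℤ) ≤
          ((s : ℤ) + 1) * (4 * (ci S M).card - 5 * finrank (ZMod 2) M) :=
        mul_le_mul_of_nonneg_left h7 (by positivity)
      have h9 : (finrank (ZMod 2) N : ℤ) < finrank (ZMod 2) M := by exact_mod_cast h4
      linarith
    zify at h5 ⊢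
    linarith

lemma le_of_Dns_Spr (S : Finset (Fin s → ZMod 2)) (M N : Sb s) (h1 : Dns M (ci S M))
    (h2 : Spr N (S \ ci S N)) : M ≤ N := by
  by_contra h
  have h3 : N < M ⊔ N := lt_of_le_of_ne le_sup_right fun h4 => h (sup_eq_right.1 h4.symm)
  have h4 := h2.2 _ h3
  have h5 := h1.2 (M ⊓ N) inf_le_left
  rw [ci_ci S inf_le_left] at h5
  have h6 := card_ci_sdiff S h3.le
  have h7 := ci_sup_inf S M N
  have h8 := Submodule.finrank_sup_add_finrank_inf_eq M N
  omega

lemma uniq_N (S : Finset (Fin s → ZMod 2)) (M N : Sb s)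
    (h1 : Dns M (ci S M) ∧ Spr M (S \ ci S M)) (h2 : Dns N (ci S N) ∧ Spr N (S \ ci S N)) :
    M = N := le_antisymm (le_of_Dns_Spr S M N h1.1 h2.2) (le_of_Dns_Spr S N M h2.1 h1.2)

lemma sum_powerset_disj {α : Type*} [DecidableEq α] {A1 A2 : Finset α} (h : Disjoint A1 A2)
    (F : Finset α → ℝ) : ∑ S ∈ (A1 ∪ A2).powerset, F S =
      ∑ S1 ∈ A1.powerset, ∑ S2 ∈ A2.powerset, F (S1 ∪ S2) := by
  rw [← Finset.sum_product']
  refine Finset.sum_bij' (fun S _ => (S ∩ A1, S ∩ A2)) (fun p _ => p.1 ∪ p.2) ?_ ?_ ?_ ?_ ?_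
  · intro S _
    exact Finset.mem_product.2 ⟨Finset.mem_powerset.2 Finset.inter_subset_right,
      Finset.mem_powerset.2 Finset.inter_subset_right⟩
  · intro p hp
    obtain ⟨h1, h2⟩ := Finset.mem_product.1 hp
    exact Finset.mem_powerset.2 (Finset.union_subset_union (Finset.mem_powerset.1 h1)
      (Finset.mem_powerset.1 h2))
  · intro S hS
    simp only
    rw [← Finset.inter_union_distrib_left]
    exact Finset.inter_eq_left.2 (Finset.mem_powerset.1 hS)
  · intro p hp
    obtain ⟨h1, h2⟩ := Finset.mem_product.1 hp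
    have h3 := Finset.mem_powerset.1 h1
    have h4 := Finset.mem_powerset.1 h2
    refine Prod.ext ?_ ?_
    · simp only
      rw [Finset.union_inter_distrib_right, Finset.inter_eq_left.2 h3,
        (Finset.disjoint_iff_inter_eq_empty.1 (Finset.disjoint_of_subset_left h4 h.symm)),
        Finset.union_empty]
    · simp only
      rw [Finset.union_inter_distrib_right, Finset.inter_eq_left.2 h4,
        (Finset.disjoint_iff_inter_eq_empty.1 (Finset.disjoint_of_subset_left h3 h)),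
        Finset.empty_union]
  · intro S hS
    simp only
    rw [← Finset.inter_union_distrib_left, Finset.inter_eq_left.2 (Finset.mem_powerset.1 hS)]

open Classical in
/-- the dense part of a sum over sets -/
noncomputable def DD (x : (Fin s → ZMod 2) → ℝ) (A E : Finset (Fin s → ZMod 2)) (N : Sb s) : ℝ :=
  ∑ S1 ∈ (ci A N).powerset, if Dns N (S1 ∪ ci E N) then ∏ c ∈ S1, x c else 0

open Classical in
/-- the sparse part of a sum over sets -/
noncomputable def SS (x : (Fin s → ZMod 2) → ℝ) (A E : Finset (Fin s → ZMod 2)) (N : Sb s) : ℝ :=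
  ∑ S2 ∈ (A \ ci A N).powerset, if Spr N (S2 ∪ (E \ ci E N)) then ∏ c ∈ S2, x c else 0

/-- **The decomposition into dense and sparse parts.** -/
lemma split (A E : Finset (Fin s → ZMod 2)) (x : (Fin s → ZMod 2) → ℝ) :
    ∑ S ∈ A.powerset, ∏ c ∈ S, x c = ∑ N : Sb s, DD x A E N * SS x A E N := by
  classical
  have h1 : ∀ N : Sb s, DD x A E N * SS x A E N = ∑ S ∈ A.powerset,
      if Dns N (ci (S ∪ E) N) ∧ Spr N ((S ∪ E) \ ci (S ∪ E) N) then ∏ c ∈ S, x c else 0 := by
    intro N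
    have h2 : Disjoint (ci A N) (A \ ci A N) := Finset.disjoint_sdiff
    have h3 : ci A N ∪ (A \ ci A N) = A :=
      Finset.union_sdiff_of_subset fun c hc => (mem_ci.1 hc).1
    conv_rhs => rw [← h3]
    rw [sum_powerset_disj h2]
    unfold DD SS
    rw [Finset.sum_mul_sum]
    refine Finset.sum_congr rfl fun S1 hS1 => Finset.sum_congr rfl fun S2 hS2 => ?_
    have h4 : ∀ c ∈ S1, c ∈ N := fun c hc => (mem_ci.1 (Finset.mem_powerset.1 hS1 hc)).2
    have h5 : ∀ c ∈ S2, c ∉ N := fun c hc h => by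
      obtain ⟨h6, h7⟩ := Finset.mem_sdiff.1 (Finset.mem_powerset.1 hS2 hc)
      exact h7 (mem_ci.2 ⟨h6, h⟩)
    have h6 : ci (S1 ∪ S2 ∪ E) N = S1 ∪ ci E N := by
      ext c
      rw [mem_ci, Finset.mem_union, Finset.mem_union, Finset.mem_union, mem_ci]
      constructor
      · rintro ⟨(h | h) | h, h'⟩
        · exact Or.inl h
        · exact absurd h' (h5 c h)
        · exact Or.inr ⟨h, h'⟩
      · rintro (h | h)
        · exact ⟨Or.inl (Or.inl h), h4 c h⟩
        · exact ⟨Or.inr h.1, h.2⟩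
    have h7 : (S1 ∪ S2 ∪ E) \ (S1 ∪ ci E N) = S2 ∪ (E \ ci E N) := by
      ext c
      rw [Finset.mem_sdiff, Finset.mem_union, Finset.mem_union, Finset.mem_union,
        Finset.mem_union, Finset.mem_sdiff, mem_ci]
      constructor
      · rintro ⟨(h | h) | h, h'⟩
        · exact absurd (Or.inl h) h'
        · exact Or.inl h
        · exact Or.inr ⟨h, fun h'' => h' (Or.inr h'')⟩
      · rintro (h | h)
        · refine ⟨Or.inl (Or.inr h), ?_⟩
          rintro (h' | h')
          · exact h5 c h (h4 c h')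
          · exact h5 c h h'.2
        · refine ⟨Or.inr h.1, ?_⟩
          rintro (h' | h')
          · exact h.2 ⟨h.1, h4 c h'⟩
          · exact h.2 h'
    have hdis : Disjoint S1 S2 := Finset.disjoint_of_subset_left (Finset.mem_powerset.1 hS1)
      (Finset.disjoint_of_subset_right (Finset.mem_powerset.1 hS2) h2)
    rw [h6, h7, Finset.prod_union hdis]
    by_cases a1 : Dns N (S1 ∪ ci E N)
    · by_cases a2 : Spr N (S2 ∪ (E \ ci E N))
      · rw [if_pos a1, if_pos a2, if_pos ⟨a1, a2⟩]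
      · rw [if_pos a1, if_neg a2, mul_zero,
          if_neg (show ¬ (Dns N (S1 ∪ ci E N) ∧ Spr N (S2 ∪ (E \ ci E N))) from fun h => a2 h.2)]
    · rw [if_neg a1, zero_mul,
        if_neg (show ¬ (Dns N (S1 ∪ ci E N) ∧ Spr N (S2 ∪ (E \ ci E N))) from fun h => a1 h.1)]
  rw [Finset.sum_congr rfl fun N _ => h1 N, Finset.sum_comm]
  refine Finset.sum_congr rfl fun S _ => ?_
  obtain ⟨N0, hN0⟩ := exists_N (S ∪ E)
  rw [Finset.sum_eq_single N0]
  · rw [if_pos hN0]
  · intro N _ hN
    rw [if_neg]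
    intro h
    exact hN (uniq_N (S ∪ E) N N0 h hN0)
  · intro h
    exact absurd (Finset.mem_univ _) h

/-- **Small witnesses.** -/
lemma wit (N : Sb s) (S E : Finset (Fin s → ZMod 2)) (h : Dns N (S ∪ E)) :
    ∃ A ⊆ S, A.card ≤ 2 * finrank (ZMod 2) N ∧ Dns N (A ∪ E) := by
  classical
  obtain ⟨A, ⟨hA1, hA2⟩, hA3⟩ := Set.exists_min_image {A : Finset (Fin s → ZMod 2) | A ⊆ S ∧
    Dns N (A ∪ E)} (fun A => A.card) (Set.toFinite _) ⟨S, Finset.Subset.refl _, h⟩
  refine ⟨A, hA1, ?_, hA2⟩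
  obtain ⟨S0, hS0⟩ : ∃ S0, S0 = A ∪ E := ⟨_, rfl⟩
  rw [← hS0] at hA2
  -- removal
  have hrem : ∀ c ∈ A, ∃ M ≤ N, c ∉ M ∧ 4 * S0.card + 5 * finrank (ZMod 2) M ≤
      4 * (ci S0 M).card + 5 * finrank (ZMod 2) N + 3 := by
    intro c hc
    have hlt : (A.erase c).card < A.card := Finset.card_erase_lt_of_mem hc
    have hnd : ¬ Dns N (A.erase c ∪ E) := by
      intro h1
      have h2 := hA3 (A.erase c) ⟨(Finset.erase_subset _ _).trans hA1, h1⟩
      omega
    have hcE : c ∉ E := by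
      intro hcE
      apply hnd
      have : A.erase c ∪ E = A ∪ E := by
        ext x
        rw [Finset.mem_union, Finset.mem_union, Finset.mem_erase]
        constructor
        · rintro (h1 | h1)
          · exact Or.inl h1.2
          · exact Or.inr h1
        · rintro (h1 | h1)
          · by_cases hx : x = c
            · exact Or.inr (hx ▸ hcE)
            · exact Or.inl ⟨hx, h1⟩
          · exact Or.inr h1
      rw [this, ← hS0]
      exact hA2
    have heq : A.erase c ∪ E = S0.erase c := by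
      rw [hS0]
      ext x
      rw [Finset.mem_union, Finset.mem_erase, Finset.mem_erase, Finset.mem_union]
      constructor
      · rintro (h1 | h1)
        · exact ⟨h1.1, Or.inl h1.2⟩
        · exact ⟨fun h2 => hcE (h2 ▸ h1), Or.inr h1⟩
      · rintro ⟨h1, h2 | h2⟩
        · exact Or.inl ⟨h1, h2⟩
        · exact Or.inr h2
    rw [heq] at hnd
    have hcS0 : c ∈ S0 := by
      rw [hS0]
      exact Finset.mem_union_left _ hc
    have hS0N : ∀ x ∈ S0, x ∈ N := hA2.1
    unfold Dns at hnd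
    push Not at hnd
    obtain ⟨M, hM1, hM2⟩ := hnd fun x hx => hS0N x (Finset.mem_erase.1 hx).2
    have hcard := Finset.card_erase_add_one hcS0
    have hd := hA2.2 M hM1
    by_cases hcM : c ∈ M
    · exfalso
      have h1 : ci (S0.erase c) M = (ci S0 M).erase c := by
        ext x
        rw [mem_ci, Finset.mem_erase, Finset.mem_erase, mem_ci]
        tauto
      have h2 := Finset.card_erase_add_one (mem_ci.2 ⟨hcS0, hcM⟩)
      rw [h1] at hM2
      omega
    · refine ⟨M, hM1, hcM, ?_⟩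
      have h1 : ci (S0.erase c) M = ci S0 M := by
        ext x
        rw [mem_ci, Finset.mem_erase, mem_ci]
        constructor
        · rintro ⟨⟨h1, h2⟩, h3⟩
          exact ⟨h2, h3⟩
        · rintro ⟨h1, h2⟩
          exact ⟨⟨fun h3 => hcM (h3 ▸ h2), h1⟩, h2⟩
      rw [h1] at hM2
      omega
  obtain ⟨M, ⟨hM1, hM2⟩, hM3⟩ := Set.exists_min_image {M : Sb s | M ≤ N ∧
    4 * S0.card + 5 * finrank (ZMod 2) M + 3 * finrank (ZMod 2) M ≤
      4 * (ci S0 M).card + 5 * finrank (ZMod 2) N + 3 * finrank (ZMod 2) N}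
    (fun M => finrank (ZMod 2) M) (Set.toFinite _) ⟨N, le_rfl, by
      have : ci S0 N = S0 := by
        ext x
        rw [mem_ci]
        exact ⟨fun h => h.1, fun h => ⟨h, hA2.1 x h⟩⟩
      rw [this]⟩
  have hAM : ∀ c ∈ A, c ∉ M := by
    intro c hc hcM
    obtain ⟨M', hM'1, hM'2, hM'3⟩ := hrem c hc
    have h1 : M ⊓ M' < M := by
      refine lt_of_le_of_ne inf_le_left fun h => hM'2 ?_
      have h0 : M ≤ M' := inf_eq_left.1 h
      exact h0 hcM
    have h2 := Submodule.finrank_lt_finrank_of_lt h1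
    have h3 := ci_sup_inf S0 M M'
    have h4 := Submodule.finrank_sup_add_finrank_inf_eq M M'
    have h5 := hA2.2 (M ⊔ M') (sup_le hM1 hM'1)
    have h6 := hM3 (M ⊓ M') ⟨inf_le_left.trans hM1, by omega⟩
    exact absurd h2 (not_lt.2 h6)
  have h1 : A ⊆ S0 \ ci S0 M := by
    intro c hc
    refine Finset.mem_sdiff.2 ⟨?_, fun h => hAM c hc (mem_ci.1 h).2⟩
    rw [hS0]
    exact Finset.mem_union_left _ hc
  have h2 := Finset.card_le_card h1
  have h3 : (S0 \ ci S0 M).card + (ci S0 M).card = S0.card :=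
    Finset.card_sdiff_add_card_eq_card fun c hc => (mem_ci.1 hc).1
  omega

end Pool.Agent.N381.UG
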