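import Mathlib
import Pool.Agent.N381.UG.Split

/-!
N381/UG (helper381, MP_0430e4_lc): the bound for dense parts, summed over all sets.
-/

set_option autoImplicit false
set_option linter.unusedSectionVars false

namespace Pool.Agent.N381.UG

open Finset Matrix Module
open Pool.Agent.N381.LH

variable {s n i : ℕ}

lemma abs_prod_le_one {x : (Fin s → ZMod 2) → ℝ} (hx : ∀ c, |x c| ≤ 1)
    (S : Finset (Fin s → ZMod 2)) : |∏ c ∈ S, x c| ≤ 1 := by
  rw [Finset.abs_prod]
  exact Finset.prod_le_one (fun _ _ => abs_nonneg _) fun c _ => hx c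

open Classical in
lemma abs_sum_le_Sm {x : (Fin s → ZMod 2) → ℝ} (hx : ∀ c, |x c| ≤ 1)
    (A : Finset (Fin s → ZMod 2)) (p : Finset (Fin s → ZMod 2) → Prop) (i : ℕ)
    (h : ∀ S ⊆ A, p S → S ∈ Sm s i) :
    |∑ S ∈ A.powerset, if p S then ∏ c ∈ S, x c else 0| ≤ ((2 : ℝ) ^ s) ^ i := by
  refine (Finset.abs_sum_le_sum_abs _ _).trans ?_
  have h1 : ∀ S ∈ A.powerset, |if p S then ∏ c ∈ S, x c else 0| ≤
      if S ∈ Sm s i then (1 : ℝ) else 0 := by
    intro S hS
    by_cases hp : p S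
    · rw [if_pos hp, if_pos (h S (Finset.mem_powerset.1 hS) hp)]
      exact abs_prod_le_one hx S
    · rw [if_neg hp, abs_zero]
      split_ifs <;> norm_num
  refine (Finset.sum_le_sum h1).trans ?_
  rw [Finset.sum_ite_mem, Finset.sum_const, nsmul_eq_mul, mul_one]
  have h2 := (Finset.card_le_card (Finset.inter_subset_right (s₁ := A.powerset) (s₂ := Sm s i))).trans
    (card_Sm s i)
  exact_mod_cast h2

lemma Spr_card {M N : Sb s} (h : M ≤ N) {S : Finset (Fin s → ZMod 2)} (hS : Spr M S)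
    {S' : Finset (Fin s → ZMod 2)} (hS' : S' ⊆ S) (hN : ∀ c ∈ S', c ∈ N) :
    S' ∈ Sm s (2 * (finrank (ZMod 2) N - finrank (ZMod 2) M)) := by
  have h1 := Submodule.finrank_mono h
  refine mem_Sm.2 ⟨fun h0 => hS.1 0 (hS' h0) M.zero_mem, ?_⟩
  rcases eq_or_lt_of_le h with h2 | h2
  · have : S' = ∅ := by
      rw [Finset.eq_empty_iff_forall_notMem]
      intro c hc
      exact hS.1 c (hS' hc) (h2 ▸ hN c hc)
    rw [this, Finset.card_empty]
    omega
  · have h3 := hS.2 N h2
    have h4 : S'.card ≤ (ci S N).card := Finset.card_le_card fun c hc =>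
      mem_ci.2 ⟨hS' hc, hN c hc⟩
    omega

lemma Dns_le {M N : Sb s} {S : Finset (Fin s → ZMod 2)} (h : Dns M S) (hN : ∀ c ∈ S, c ∈ N) :
    M ≤ N := by
  have h1 := h.2 (M ⊓ N) inf_le_left
  have h2 : ci S (M ⊓ N) = S := by
    ext c
    rw [mem_ci]
    exact ⟨fun h => h.1, fun h' => ⟨h', h.1 c h', hN c h'⟩⟩
  rw [h2] at h1
  have h3 : M ⊓ N = M := Submodule.eq_of_le_of_finrank_le inf_le_left (by omega)
  exact inf_eq_left.1 h3

lemma Spr_empty (N : Sb s) : Spr N ∅ := by
  refine ⟨fun c hc => absurd hc (Finset.notMem_empty c), fun M hM => ?_⟩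
  have h1 := Submodule.finrank_lt_finrank_of_lt hM
  have h2 : ci (∅ : Finset (Fin s → ZMod 2)) M = ∅ := by
    ext c
    rw [mem_ci]
    simp
  rw [h2, Finset.card_empty]
  omega

/-- **The signed sums over dense sets are small.** -/
lemma delta_bound (A E : Finset (Fin s → ZMod 2)) (N : Sb s) :
    |DD (fun _ => -1) A E N| ≤ (((2 : ℝ) ^ s) ^ 5) ^ finrank (ZMod 2) N := by
  classical
  have hx : ∀ c : Fin s → ZMod 2, |(fun _ => (-1 : ℝ)) c| ≤ 1 := fun c => by norm_num
  refine rec_bound ⊥ (fun N => DD (fun _ => -1) A E N)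
    (fun M N => SS (fun _ => -1) (ci A N) (ci E N) M) 2 ?_ ?_ ?_ (finrank (ZMod 2) N) N bot_le
    (by rw [finrank_bot, zero_add])
  · intro N _
    have h1 := split (ci A N) (ci E N) (fun _ => (-1 : ℝ))
    have h2 : ∑ M ∈ univ.filter (fun M : Sb s => ⊥ ≤ M ∧ M ≤ N),
        DD (fun _ => -1) A E M * SS (fun _ => -1) (ci A N) (ci E N) M =
        ∑ M : Sb s, DD (fun _ => -1) (ci A N) (ci E N) M *
          SS (fun _ => -1) (ci A N) (ci E N) M := by
      rw [Finset.sum_filter]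
      refine Finset.sum_congr rfl fun M _ => ?_
      split_ifs with h
      · congr 1
        unfold DD
        rw [ci_ci A h.2, ci_ci E h.2]
      · have h3 : DD (fun _ => (-1 : ℝ)) (ci A N) (ci E N) M = 0 := by
          unfold DD
          refine Finset.sum_eq_zero fun S hS => if_neg fun h4 => h ⟨bot_le, ?_⟩
          refine Dns_le h4 fun c hc => ?_
          rcases Finset.mem_union.1 hc with hc | hc
          · exact (mem_ci.1 (mem_ci.1 (Finset.mem_powerset.1 hS hc)).1).2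
          · exact (mem_ci.1 (mem_ci.1 hc).1).2
        rw [h3, zero_mul]
    rw [h2, ← h1]
    have h3 : ∑ S ∈ (ci A N).powerset, ∏ c ∈ S, (-1 : ℝ) = ∏ c ∈ ci A N, (1 + (-1 : ℝ)) :=
      (Finset.prod_one_add _).symm
    rw [h3, Finset.abs_prod]
    refine Finset.prod_le_one (fun _ _ => abs_nonneg _) fun c _ => by norm_num
  · intro N _
    unfold SS
    rw [ci_ci A le_rfl, ci_ci E le_rfl, Finset.sdiff_self, Finset.sdiff_self,
      Finset.powerset_empty, Finset.sum_singleton, Finset.empty_union, if_pos (Spr_empty N),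
      Finset.prod_empty]
  · intro M N _ hMN
    rw [← pow_mul]
    refine abs_sum_le_Sm hx _ _ _ fun S hS hp => ?_
    refine Spr_card hMN hp (Finset.subset_union_left) fun c hc => ?_
    exact (mem_ci.1 (Finset.mem_sdiff.1 (hS hc)).1).2

variable {P Z v : ℝ} {f : (Fin n → ZMod 2) → ℝ} {B T Lo : Finset (Fin n → ZMod 2)}

/-- one dense set -/
lemma dense_one (D : Dat n P Z v f B T Lo) (A A' : Finset (Fin s → ZMod 2)) (hsub : A' ⊆ A)
    (N : Submodule (ZMod 2) (Fin s → ZMod 2)) (hA : Dns N A) :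
    av (fun X => gd T N X * pd (ind B) A' X) * (P * Z) ^ (A \ A').card ≤
      (2 * (P * v)) ^ finrank (ZMod 2) N := by
  classical
  have hP := D.hP
  have hv := D.hv0
  have hZ : 0 < Z := by linarith [D.hZ]
  obtain ⟨M0, hM0N, hM0, hch⟩ := chain D A' N
  obtain ⟨J, hJA, hli, hsp, hfr⟩ := exists_sel' M0 A'
  have hdis := disj_sel M0 A' J hli
  have hM1 : M0 ⊔ Submodule.span (ZMod 2) (A' : Set (Fin s → ZMod 2)) ≤ N :=
    sup_le hM0N (Submodule.span_le.2 fun c hc => hA.1 c (hsub hc))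
  have h3 := hch _ le_sup_left hM1
  have hci : ci A' (M0 ⊔ Submodule.span (ZMod 2) (A' : Set (Fin s → ZMod 2))) = A' := by
    ext c
    rw [mem_ci]
    exact ⟨fun h => h.1, fun h => ⟨h, Submodule.mem_sup_right (Submodule.subset_span h)⟩⟩
  rw [hci] at h3
  have h4 := hA.2 M0 hM0N
  have h5 : (ci A' M0).card ≤ (ci A M0).card := Finset.card_le_card fun c hc =>
    mem_ci.2 ⟨hsub (mem_ci.1 hc).1, (mem_ci.1 hc).2⟩
  have h6 : (A \ A').card + A'.card = A.card := Finset.card_sdiff_add_card_eq_card hsub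
  have h7 := Submodule.finrank_mono hM1
  obtain ⟨σ, hσ⟩ := Nat.exists_eq_add_of_le h7
  have hav : av (fun X => gd T N X * pd (ind B) A' X) ≤
      (2 * (P * v)) ^ finrank (ZMod 2) M0 * P ^ J.card := by
    have h8 : ∀ X : Matrix (Fin s) (Fin n) (ZMod 2), gd T N X * pd (ind B) A' X ≤
        Ph1 B T A' M0 X * pd (ind B) J X := by
      intro X
      have h9 : pd (ind B) A' X ≤ pd (ind B) (ci A' M0 ∪ J) X := by
        refine pd_le_of_subset (ind_nonneg B) (ind_le B) ?_ X
        intro c hc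
        rcases Finset.mem_union.1 hc with hc | hc
        · exact (mem_ci.1 hc).1
        · exact hJA hc
      rw [pd_union hdis] at h9
      unfold Ph1
      calc gd T N X * pd (ind B) A' X ≤ gd T M0 X * (pd (ind B) (ci A' M0) X * pd (ind B) J X) :=
            mul_le_mul (gd_mono T hM0N X) h9 (pd_nonneg (ind_nonneg B) _ _) (gd_nonneg _ _ _)
        _ = _ := by ring
    have h10 := tool_J M0 J hli (Θ := Ph1 B T A' M0) (g := ind B) (Ph1_nonneg B T A' M0)
      (Inv.ph1 B T A' M0) (ind_nonneg B)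
    refine (av_mono h8).trans (h10.trans ?_)
    refine mul_le_mul hM0 (pow_le_pow_left₀ (av_nonneg (ind_nonneg B)) D.cB _)
      (pow_nonneg (av_nonneg (ind_nonneg B)) _) (by positivity)
  have hnum := dense_num D (a := (A \ A').card) (ρ := J.card) (σ := σ) (by omega)
  have hrr : finrank (ZMod 2) N = finrank (ZMod 2) M0 + (J.card + σ) := by omega
  calc av (fun X => gd T N X * pd (ind B) A' X) * (P * Z) ^ (A \ A').card ≤
      (2 * (P * v)) ^ finrank (ZMod 2) M0 * P ^ J.card * (P * Z) ^ (A \ A').card :=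
        mul_le_mul_of_nonneg_right hav (by positivity)
    _ = (2 * (P * v)) ^ finrank (ZMod 2) M0 * ((P * Z) ^ (A \ A').card * P ^ J.card) := by ring
    _ ≤ (2 * (P * v)) ^ finrank (ZMod 2) M0 * (P * v) ^ (J.card + σ) :=
        mul_le_mul_of_nonneg_left hnum (by positivity)
    _ ≤ (2 * (P * v)) ^ finrank (ZMod 2) M0 * (2 * (P * v)) ^ (J.card + σ) := by
        refine mul_le_mul_of_nonneg_left (pow_le_pow_left₀ (by positivity) ?_ _) (by positivity)
        have : 0 < P * v := mul_pos hP hv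
        linarith
    _ = (2 * (P * v)) ^ (finrank (ZMod 2) M0 + (J.card + σ)) := (pow_add _ _ _).symm
    _ = _ := by rw [hrr]

/-- the dense part -/
noncomputable def Dn (f : (Fin n → ZMod 2) → ℝ) (T : Finset (Fin n → ZMod 2)) (N : Sb s)
    (X : Matrix (Fin s) (Fin n) (ZMod 2)) : ℝ :=
  DD (fun c => - g1 f T (c ᵥ* X)) (univ.erase 0) ∅ N

lemma Dn_inv (f : (Fin n → ZMod 2) → ℝ) (T : Finset (Fin n → ZMod 2)) (N : Sb s) :
    Inv N (Dn f T N) := by
  intro r l hl X x
  unfold Dn DD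
  refine Finset.sum_congr rfl fun S hS => ?_
  congr 1
  refine Finset.prod_congr rfl fun c hc => ?_
  show -g1 f T (c ᵥ* (X + tens l x)) = -g1 f T (c ᵥ* X)
  rw [vec_inv N l hl X x (mem_ci.1 (Finset.mem_powerset.1 hS hc)).2]

open Classical in
/-- the pointwise bound -/
lemma Dn_point (D : Dat n P Z v f B T Lo) (hη : ∀ x, x ∉ B → |f x| ≤ P * Z / 2 ^ s) (N : Sb s)
    (X : Matrix (Fin s) (Fin n) (ZMod 2)) :
    gd T N X * |Dn f T N X| ≤ (((2 : ℝ) ^ s) ^ 5) ^ finrank (ZMod 2) N *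
      ∑ E ∈ ((univ : Finset (Fin s → ZMod 2)).erase 0).powerset,
        ∑ A ∈ Sm s (2 * finrank (ZMod 2) N), (P * Z / 2 ^ s) ^ E.card *
          if Dns N (A ∪ E) then gd T N X * pd (ind B) A X else 0 := by
  have hP := D.hP
  have hZ : 0 < Z := by linarith [D.hZ]
  have hη0 : 0 ≤ P * Z / 2 ^ s := by positivity
  have hnn : ∀ E A : Finset (Fin s → ZMod 2), 0 ≤ (P * Z / 2 ^ s) ^ E.card *
      if Dns N (A ∪ E) then gd T N X * pd (ind B) A X else 0 := by
    intro E A
    refine mul_nonneg (by positivity) ?_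
    split_ifs
    · exact mul_nonneg (gd_nonneg _ _ _) (pd_nonneg (ind_nonneg B) _ _)
    · exact le_rfl
  by_cases hgd : ∀ c ∈ N, c ≠ 0 → c ᵥ* X ∉ T
  · have hg1 : gd T N X = 1 := if_pos hgd
    refine le_trans (le_of_eq (by rw [hg1, one_mul] : gd T N X * |Dn f T N X| = |Dn f T N X|)) ?_
    obtain ⟨A0, hA0⟩ : ∃ A0, A0 = (ci (univ.erase 0) N).filter fun c => c ᵥ* X ∈ B := ⟨_, rfl⟩
    obtain ⟨E0, hE0⟩ : ∃ E0, E0 = (ci (univ.erase 0) N).filter fun c => ¬ c ᵥ* X ∈ B := ⟨_, rfl⟩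
    have hdis : Disjoint A0 E0 := by
      rw [hA0, hE0]
      exact Finset.disjoint_filter_filter_not _ _ _
    have hun : A0 ∪ E0 = ci (univ.erase 0) N := by
      rw [hA0, hE0]
      exact Finset.filter_union_filter_not_eq _ _
    have hA0N : ∀ c ∈ A0, c ∈ N ∧ c ≠ 0 ∧ c ᵥ* X ∈ B := by
      intro c hc
      rw [hA0] at hc
      obtain ⟨h1, h2⟩ := Finset.mem_filter.1 hc
      exact ⟨(mem_ci.1 h1).2, (Finset.mem_erase.1 (mem_ci.1 h1).1).1, h2⟩
    have hE0N : ∀ c ∈ E0, c ∈ N ∧ c ≠ 0 ∧ c ᵥ* X ∉ B := by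
      intro c hc
      rw [hE0] at hc
      obtain ⟨h1, h2⟩ := Finset.mem_filter.1 hc
      exact ⟨(mem_ci.1 h1).2, (Finset.mem_erase.1 (mem_ci.1 h1).1).1, h2⟩
    have hxA : ∀ c ∈ A0, - g1 f T (c ᵥ* X) = -1 := by
      intro c hc
      obtain ⟨h1, h2, h3⟩ := hA0N c hc
      unfold g1 ind
      rw [if_neg (hgd c h1 h2), D.fB _ h3, sub_zero]
    have hxE : ∀ c ∈ E0, |- g1 f T (c ᵥ* X)| ≤ P * Z / 2 ^ s := by
      intro c hc
      obtain ⟨h1, h2, h3⟩ := hE0N c hc
      unfold g1 ind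
      rw [if_neg (hgd c h1 h2), sub_zero, abs_neg]
      exact hη _ h3
    have hciE : ∀ E ⊆ E0, ci E N = E := by
      intro E hE
      ext c
      rw [mem_ci]
      exact ⟨fun h => h.1, fun h => ⟨h, (hE0N c (hE h)).1⟩⟩
    have hciA : ci A0 N = A0 := by
      ext c
      rw [mem_ci]
      exact ⟨fun h => h.1, fun h => ⟨h, (hA0N c h).1⟩⟩
    have hci0 : ci (∅ : Finset (Fin s → ZMod 2)) N = ∅ := by
      ext c
      rw [mem_ci]
      simp
    have e1 : Dn f T N X = ∑ E ∈ E0.powerset, (∏ c ∈ E, - g1 f T (c ᵥ* X)) *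
        DD (fun _ => -1) A0 E N := by
      unfold Dn DD
      rw [← hun, sum_powerset_disj hdis, Finset.sum_comm, hci0]
      refine Finset.sum_congr rfl fun E hE => ?_
      rw [hciA, hciE E (Finset.mem_powerset.1 hE), Finset.mul_sum]
      refine Finset.sum_congr rfl fun S hS => ?_
      rw [Finset.union_empty]
      have h1 : Disjoint S E := Finset.disjoint_of_subset_left (Finset.mem_powerset.1 hS)
        (Finset.disjoint_of_subset_right (Finset.mem_powerset.1 hE) hdis)
      split_ifs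
      · rw [Finset.prod_union h1, mul_comm]
        congr 1
        exact Finset.prod_congr rfl fun c hc => hxA c (Finset.mem_powerset.1 hS hc)
      · rw [mul_zero]
    have e2 : ∀ E ∈ E0.powerset, |(∏ c ∈ E, - g1 f T (c ᵥ* X)) * DD (fun _ => -1) A0 E N| ≤
        (((2 : ℝ) ^ s) ^ 5) ^ finrank (ZMod 2) N * ∑ A ∈ Sm s (2 * finrank (ZMod 2) N),
          (P * Z / 2 ^ s) ^ E.card *
          if Dns N (A ∪ E) then gd T N X * pd (ind B) A X else 0 := by
      intro E hE
      have hE' := Finset.mem_powerset.1 hE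
      rw [abs_mul]
      have h1 : |∏ c ∈ E, - g1 f T (c ᵥ* X)| ≤ (P * Z / 2 ^ s) ^ E.card := by
        rw [Finset.abs_prod]
        refine (Finset.prod_le_prod (fun _ _ => abs_nonneg _) fun c hc => hxE c (hE' hc)).trans
          (le_of_eq ?_)
        rw [Finset.prod_const]
      have hR : 0 ≤ ∑ A ∈ Sm s (2 * finrank (ZMod 2) N), (P * Z / 2 ^ s) ^ E.card *
          if Dns N (A ∪ E) then gd T N X * pd (ind B) A X else 0 :=
        Finset.sum_nonneg fun A _ => hnn E A
      by_cases hex : ∃ S ⊆ A0, Dns N (S ∪ E)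
      · obtain ⟨S, hS, hSD⟩ := hex
        obtain ⟨A, hAS, hAc, hAD⟩ := wit N S E hSD
        have hAmem : A ∈ Sm s (2 * finrank (ZMod 2) N) :=
          mem_Sm.2 ⟨fun h0 => (hA0N 0 (hS (hAS h0))).2.1 rfl, hAc⟩
        have h2 := Finset.single_le_sum (f := fun A => (P * Z / 2 ^ s) ^ E.card *
          if Dns N (A ∪ E) then gd T N X * pd (ind B) A X else 0) (fun A _ => hnn E A) hAmem
        have h3 : pd (ind B) A X = 1 := by
          unfold pd ind
          exact Finset.prod_eq_one fun c hc => if_pos (hA0N c (hS (hAS hc))).2.2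
        have h4 : (P * Z / 2 ^ s) ^ E.card *
            (if Dns N (A ∪ E) then gd T N X * pd (ind B) A X else 0) =
            (P * Z / 2 ^ s) ^ E.card := by
          rw [if_pos hAD, h3, hg1, mul_one, mul_one]
        have h2' := h4.symm.le.trans h2
        calc |∏ c ∈ E, - g1 f T (c ᵥ* X)| * |DD (fun _ => -1) A0 E N| ≤
            (P * Z / 2 ^ s) ^ E.card * (((2 : ℝ) ^ s) ^ 5) ^ finrank (ZMod 2) N :=
              mul_le_mul h1 (delta_bound A0 E N) (abs_nonneg _) (by positivity)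
          _ = (((2 : ℝ) ^ s) ^ 5) ^ finrank (ZMod 2) N * (P * Z / 2 ^ s) ^ E.card := mul_comm _ _
          _ ≤ _ := mul_le_mul_of_nonneg_left h2' (by positivity)
      · have h2 : DD (fun _ => (-1 : ℝ)) A0 E N = 0 := by
          unfold DD
          refine Finset.sum_eq_zero fun S hS => if_neg fun h3 => hex ?_
          rw [hciA] at hS
          rw [hciE E hE'] at h3
          exact ⟨S, Finset.mem_powerset.1 hS, h3⟩
        rw [h2, abs_zero, mul_zero]
        exact mul_nonneg (by positivity) hR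
    rw [e1]
    refine (Finset.abs_sum_le_sum_abs _ _).trans ((Finset.sum_le_sum e2).trans ?_)
    rw [← Finset.mul_sum]
    refine mul_le_mul_of_nonneg_left ?_ (by positivity)
    refine Finset.sum_le_sum_of_subset_of_nonneg (Finset.powerset_mono.2 ?_) fun E _ _ =>
      Finset.sum_nonneg fun A _ => hnn E A
    intro c hc
    exact Finset.mem_erase.2 ⟨(hE0N c hc).2.1, Finset.mem_univ _⟩
  · have hg0 : gd T N X = 0 := if_neg hgd
    rw [hg0, zero_mul]
    refine mul_nonneg (by positivity) (Finset.sum_nonneg fun E _ => Finset.sum_nonneg fun A _ => ?_)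
    split_ifs
    · rw [zero_mul, mul_zero]
    · rw [mul_zero]

/-- **The bound for the dense part.** -/
lemma Dn_bound (D : Dat n P Z v f B T Lo) (hη : ∀ x, x ∉ B → |f x| ≤ P * Z / 2 ^ s) (N : Sb s) :
    av (fun X => gd T N X * |Dn f T N X|) ≤
      3 * (((2 : ℝ) ^ s) ^ 7 * (2 * (P * v))) ^ finrank (ZMod 2) N := by
  classical
  have hP := D.hP
  have hv := D.hv0
  have hZ : 0 < Z := by linarith [D.hZ]
  have hQ0 : (0 : ℝ) < 2 ^ s := by positivity
  refine (av_mono (Dn_point D hη N)).trans ?_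
  rw [av_mul_left, av_sum]
  obtain ⟨d, hd⟩ : ∃ d, d = finrank (ZMod 2) N := ⟨_, rfl⟩
  rw [← hd]
  have h1 : ∀ E ∈ ((univ : Finset (Fin s → ZMod 2)).erase 0).powerset,
      (av fun X => ∑ A ∈ Sm s (2 * d), (P * Z / 2 ^ s) ^ E.card *
          if Dns N (A ∪ E) then gd T N X * pd (ind B) A X else 0) ≤
        (1 / 2 ^ s) ^ E.card * ((((2 : ℝ) ^ s) ^ 2 * (2 * (P * v))) ^ d) := by
    intro E _
    rw [av_sum]
    have h2 : ∀ A ∈ Sm s (2 * d), (av fun X : Matrix (Fin s) (Fin n) (ZMod 2) =>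
        (P * Z / 2 ^ s) ^ E.card *
          if Dns N (A ∪ E) then gd T N X * pd (ind B) A X else 0) ≤
          (1 / 2 ^ s) ^ E.card * (2 * (P * v)) ^ d := by
      intro A _
      rw [av_mul_left]
      by_cases hA : Dns N (A ∪ E)
      · simp only [if_pos hA]
        have h3 := dense_one D (A ∪ E) A Finset.subset_union_left N hA
        rw [← hd] at h3
        have h4 : (P * Z) ^ E.card ≤ (P * Z) ^ ((A ∪ E) \ A).card := by
          refine pow_le_pow_of_le_one (by positivity) D.PZ1 (Finset.card_le_card ?_)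
          intro c hc
          obtain ⟨h5, h6⟩ := Finset.mem_sdiff.1 hc
          exact (Finset.mem_union.1 h5).resolve_left h6
        have h5 : 0 ≤ av fun X : Matrix (Fin s) (Fin n) (ZMod 2) => gd T N X * pd (ind B) A X :=
          av_nonneg fun X => mul_nonneg (gd_nonneg _ _ _) (pd_nonneg (ind_nonneg B) _ _)
        calc (P * Z / 2 ^ s) ^ E.card * (av fun X : Matrix (Fin s) (Fin n) (ZMod 2) =>
            gd T N X * pd (ind B) A X) =
            (1 / 2 ^ s) ^ E.card * ((av fun X : Matrix (Fin s) (Fin n) (ZMod 2) =>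
            gd T N X * pd (ind B) A X) * (P * Z) ^ E.card) := by
              rw [div_eq_mul_one_div, mul_pow]
              ring
          _ ≤ (1 / 2 ^ s) ^ E.card * ((av fun X : Matrix (Fin s) (Fin n) (ZMod 2) =>
            gd T N X * pd (ind B) A X) * (P * Z) ^ ((A ∪ E) \ A).card) :=
              mul_le_mul_of_nonneg_left (mul_le_mul_of_nonneg_left h4 h5) (by positivity)
          _ ≤ _ := mul_le_mul_of_nonneg_left h3 (by positivity)
      · simp only [if_neg hA]
        rw [av_const, mul_zero]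
        positivity
    refine (Finset.sum_le_sum h2).trans ?_
    rw [Finset.sum_const, nsmul_eq_mul]
    have h3 : ((Sm s (2 * d)).card : ℝ) ≤ (((2 : ℝ) ^ s) ^ 2) ^ d := by
      rw [← pow_mul]
      exact_mod_cast card_Sm s (2 * d)
    calc ((Sm s (2 * d)).card : ℝ) * ((1 / 2 ^ s) ^ E.card * (2 * (P * v)) ^ d) ≤
        (((2 : ℝ) ^ s) ^ 2) ^ d * ((1 / 2 ^ s) ^ E.card * (2 * (P * v)) ^ d) :=
          mul_le_mul_of_nonneg_right h3 (by positivity)
      _ = _ := by
        rw [mul_pow (((2 : ℝ) ^ s) ^ 2)]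
        ring
  have h2 : ∑ E ∈ ((univ : Finset (Fin s → ZMod 2)).erase 0).powerset,
      ((1 : ℝ) / 2 ^ s) ^ E.card ≤ 3 := by
    have h3 : ∑ E ∈ ((univ : Finset (Fin s → ZMod 2)).erase 0).powerset,
        ((1 : ℝ) / 2 ^ s) ^ E.card = ∏ c ∈ (univ : Finset (Fin s → ZMod 2)).erase 0,
          (1 + (1 : ℝ) / 2 ^ s) := by
      rw [Finset.prod_one_add]
      exact Finset.sum_congr rfl fun E _ => (Finset.prod_const _).symm
    rw [h3, Finset.prod_const]
    have h4 : ((univ : Finset (Fin s → ZMod 2)).erase 0).card ≤ 2 ^ s := by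
      refine (Finset.card_le_univ _).trans (le_of_eq ?_)
      exact card_V s
    calc (1 + (1 : ℝ) / 2 ^ s) ^ ((univ : Finset (Fin s → ZMod 2)).erase 0).card ≤
        (1 + (1 : ℝ) / 2 ^ s) ^ (2 ^ s) := by
          refine pow_le_pow_right₀ ?_ h4
          have : (0 : ℝ) ≤ 1 / 2 ^ s := by positivity
          linarith
      _ ≤ Real.exp (1 / 2 ^ s) ^ (2 ^ s) := by
          refine pow_le_pow_left₀ (by positivity) ?_ _
          have := Real.add_one_le_exp ((1 : ℝ) / 2 ^ s)
          linarith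
      _ = Real.exp 1 := by
          rw [← Real.exp_nat_mul]
          congr 1
          push_cast
          field_simp
      _ ≤ 3 := by
          have := Real.exp_one_lt_d9
          linarith
  calc (((2 : ℝ) ^ s) ^ 5) ^ d * ∑ E ∈ ((univ : Finset (Fin s → ZMod 2)).erase 0).powerset,
      (av fun X => ∑ A ∈ Sm s (2 * d), (P * Z / 2 ^ s) ^ E.card *
          if Dns N (A ∪ E) then gd T N X * pd (ind B) A X else 0) ≤
      (((2 : ℝ) ^ s) ^ 5) ^ d * ∑ E ∈ ((univ : Finset (Fin s → ZMod 2)).erase 0).powerset,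
        (1 / 2 ^ s) ^ E.card * ((((2 : ℝ) ^ s) ^ 2 * (2 * (P * v))) ^ d) :=
        mul_le_mul_of_nonneg_left (Finset.sum_le_sum h1) (by positivity)
    _ ≤ (((2 : ℝ) ^ s) ^ 5) ^ d * (3 * ((((2 : ℝ) ^ s) ^ 2 * (2 * (P * v))) ^ d)) := by
        rw [← Finset.sum_mul]
        exact mul_le_mul_of_nonneg_left (mul_le_mul_of_nonneg_right h2 (by positivity))
          (by positivity)
    _ = _ := by
        have : ((2 : ℝ) ^ s) ^ 7 * (2 * (P * v)) = ((2 : ℝ) ^ s) ^ 5 * (((2 : ℝ) ^ s) ^ 2 * (2 * (P * v))) := by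
          ring
        rw [this, mul_pow (((2 : ℝ) ^ s) ^ 5)]
        ring

end Pool.Agent.N381.UG
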