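import Mathlib
import Pool.Agent.N381.UG.Delta

/-!
N381/UG (helper381, MP_0430e4_lc): the small combinations, and one term of the expansion.
-/

set_option autoImplicit false
set_option linter.unusedSectionVars false

namespace Pool.Agent.N381.UG

open Finset Matrix Module
open Pool.Agent.N381.LH

variable {s n i : ℕ}

open Classical in
/-- the signed sum over the sets which span `N'` modulo `N` -/
noncomputable def tau (T : Finset (Fin n → ZMod 2)) (N N' : Sb s)
    (X : Matrix (Fin s) (Fin n) (ZMod 2)) : ℝ :=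
  ∑ L ∈ (((univ : Finset (Fin s → ZMod 2)).erase 0) \ ci (univ.erase 0) N).powerset,
    if N ⊔ Submodule.span (ZMod 2) (L : Set (Fin s → ZMod 2)) = N' then
      ∏ c ∈ L, - ind T (c ᵥ* X) else 0

lemma sum_tau (T : Finset (Fin n → ZMod 2)) (N : Sb s) (X : Matrix (Fin s) (Fin n) (ZMod 2)) :
    ∑ N' : Sb s, tau T N N' X =
      ∏ c ∈ ((univ : Finset (Fin s → ZMod 2)).erase 0) \ ci (univ.erase 0) N,
        (1 - ind T (c ᵥ* X)) := by
  classical
  unfold tau
  rw [Finset.sum_comm]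
  have h1 : ∀ c : Fin s → ZMod 2, 1 - ind T (c ᵥ* X) = 1 + (- ind T (c ᵥ* X)) := fun c => by ring
  rw [Finset.prod_congr rfl fun c _ => h1 c, Finset.prod_one_add]
  refine Finset.sum_congr rfl fun L _ => ?_
  rw [Finset.sum_ite_eq, if_pos (Finset.mem_univ _)]

lemma tau_zero {T : Finset (Fin n → ZMod 2)} {N N' : Sb s} (h : ¬ N ≤ N')
    (X : Matrix (Fin s) (Fin n) (ZMod 2)) : tau T N N' X = 0 := by
  classical
  unfold tau
  refine Finset.sum_eq_zero fun L _ => if_neg fun h1 => h ?_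
  rw [← h1]
  exact le_sup_left

lemma tau_inv (T : Finset (Fin n → ZMod 2)) (N N' : Sb s) : Inv N' (tau T N N' : Matrix (Fin s) (Fin n) (ZMod 2) → ℝ) := by
  classical
  intro r l hl X x
  unfold tau
  refine Finset.sum_congr rfl fun L _ => ?_
  split_ifs with h
  · refine Finset.prod_congr rfl fun c hc => ?_
    rw [vec_inv N' l hl X x]
    rw [← h]
    exact Submodule.mem_sup_right (Submodule.subset_span hc)
  · rfl

lemma tau_bound (T : Finset (Fin n → ZMod 2)) {N N' : Sb s} (h : N ≤ N')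
    (X : Matrix (Fin s) (Fin n) (ZMod 2)) :
    |tau T N N' X| ≤ (((2 : ℝ) ^ s) ^ 3) ^ (finrank (ZMod 2) N' - finrank (ZMod 2) N) := by
  classical
  have hmono := Submodule.finrank_mono h
  refine rec_bound N (fun M => tau T N M X) (fun _ _ => 1) 0 ?_ (fun _ _ => rfl) ?_
    (finrank (ZMod 2) N' - finrank (ZMod 2) N) N' h (by omega)
  · intro K hK
    obtain ⟨U0, hU0⟩ : ∃ U0, U0 = ((univ : Finset (Fin s → ZMod 2)).erase 0) \
      ci (univ.erase 0) N := ⟨_, rfl⟩
    have h1 : ∑ M ∈ univ.filter (fun M : Sb s => N ≤ M ∧ M ≤ K), tau T N M X * 1 =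
        ∑ L ∈ (ci U0 K).powerset, ∏ c ∈ L, - ind T (c ᵥ* X) := by
      have h2 : ∀ L ∈ U0.powerset, (∑ M ∈ univ.filter (fun M : Sb s => N ≤ M ∧ M ≤ K),
          if N ⊔ Submodule.span (ZMod 2) (L : Set (Fin s → ZMod 2)) = M then
            ∏ c ∈ L, - ind T (c ᵥ* X) else 0) =
          if L ∈ (ci U0 K).powerset then ∏ c ∈ L, - ind T (c ᵥ* X) else 0 := by
        intro L hL
        rw [Finset.sum_ite_eq]
        refine if_congr ?_ rfl rfl
        rw [Finset.mem_filter, Finset.mem_powerset]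
        constructor
        · rintro ⟨-, -, h3⟩ c hc
          exact mem_ci.2 ⟨Finset.mem_powerset.1 hL hc, h3 (Submodule.mem_sup_right
            (Submodule.subset_span hc))⟩
        · intro h3
          refine ⟨Finset.mem_univ _, le_sup_left, sup_le hK (Submodule.span_le.2 fun c hc => ?_)⟩
          exact (mem_ci.1 (h3 hc)).2
      simp only [mul_one]
      unfold tau
      rw [← hU0, Finset.sum_comm, Finset.sum_congr rfl h2, Finset.sum_ite_mem]
      refine Finset.sum_congr ?_ fun _ _ => rfl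
      refine Finset.inter_eq_right.2 (Finset.powerset_mono.2 fun c hc => (mem_ci.1 hc).1)
    have h3 : ∑ L ∈ (ci U0 K).powerset, ∏ c ∈ L, - ind T (c ᵥ* X) =
        ∏ c ∈ ci U0 K, (1 + - ind T (c ᵥ* X)) := (Finset.prod_one_add _).symm
    rw [h1, h3, Finset.abs_prod]
    refine Finset.prod_le_one (fun _ _ => abs_nonneg _) fun c _ => ?_
    have := ind_nonneg T (c ᵥ* X)
    have := ind_le T (c ᵥ* X)
    rw [abs_of_nonneg (by linarith)]
    linarith
  · intro M K _ _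
    rw [pow_zero, one_pow, abs_one]

open Classical in
/-- the bases of `N'` modulo `N` -/
noncomputable def Bs (N N' : Sb s) : Finset (Finset (Fin s → ZMod 2)) :=
  (Sm s (finrank (ZMod 2) N' - finrank (ZMod 2) N)).filter fun J =>
    J.card = finrank (ZMod 2) N' - finrank (ZMod 2) N ∧ (∀ c ∈ J, c ∈ N') ∧
      LinearIndependent (ZMod 2) (fun j : J => N.mkQ (j : Fin s → ZMod 2))

lemma card_Bs (N N' : Sb s) : ((Bs N N').card : ℝ) ≤
    ((2 : ℝ) ^ s) ^ (finrank (ZMod 2) N' - finrank (ZMod 2) N) := by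
  classical
  have h1 : (Bs N N').card ≤ (2 ^ s) ^ (finrank (ZMod 2) N' - finrank (ZMod 2) N) :=
    (Finset.card_le_card (Finset.filter_subset _ _)).trans (card_Sm _ _)
  exact_mod_cast h1

lemma tau_point (T : Finset (Fin n → ZMod 2)) {N N' : Sb s} (h : N ≤ N')
    (X : Matrix (Fin s) (Fin n) (ZMod 2)) :
    |tau T N N' X| ≤ (((2 : ℝ) ^ s) ^ 3) ^ (finrank (ZMod 2) N' - finrank (ZMod 2) N) *
      ∑ J ∈ Bs N N', pd (ind T) J X := by
  classical
  by_cases hex : ∃ L : Finset (Fin s → ZMod 2), N ⊔ Submodule.span (ZMod 2)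
      (L : Set (Fin s → ZMod 2)) = N' ∧ ∀ c ∈ L, c ᵥ* X ∈ T
  · obtain ⟨L, hL1, hL2⟩ := hex
    obtain ⟨J, hJ1, hJ2, -, hJ4⟩ := exists_sel' N L
    rw [hL1] at hJ4
    have hJmem : J ∈ Bs N N' := by
      unfold Bs
      refine Finset.mem_filter.2 ⟨mem_Sm.2 ⟨fun h0 => hJ2.ne_zero ⟨0, h0⟩ (map_zero _), by omega⟩,
        by omega, fun c hc => ?_, hJ2⟩
      rw [← hL1]
      exact Submodule.mem_sup_right (Submodule.subset_span (hJ1 hc))
    have h1 : pd (ind T) J X = 1 := by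
      unfold pd ind
      exact Finset.prod_eq_one fun c hc => if_pos (hL2 c (hJ1 hc))
    have h2 : 1 ≤ ∑ J ∈ Bs N N', pd (ind T) J X := by
      rw [← h1]
      exact Finset.single_le_sum (f := fun J => pd (ind T) J X)
        (fun J _ => pd_nonneg (ind_nonneg T) J X) hJmem
    exact (tau_bound T h X).trans (le_mul_of_one_le_right (by positivity) h2)
  · have h1 : tau T N N' X = 0 := by
      unfold tau
      refine Finset.sum_eq_zero fun L _ => ?_
      split_ifs with h2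
      · by_contra h3
        refine hex ⟨L, h2, fun c hc => ?_⟩
        by_contra h4
        refine h3 (Finset.prod_eq_zero hc ?_)
        unfold ind
        rw [if_neg h4, neg_zero]
      · rfl
    rw [h1, abs_zero]
    exact mul_nonneg (by positivity) (Finset.sum_nonneg fun J _ => pd_nonneg (ind_nonneg T) J X)

/-- the column space -/
def MY (Y : Matrix (Fin s) (Fin n) (ZMod 2)) : Sb s := LinearMap.range Y.mulVecLin

lemma finrank_MY (Y : Matrix (Fin s) (Fin n) (ZMod 2)) : finrank (ZMod 2) (MY Y) = Y.rank := rfl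

lemma MY_le (M : Sb s) (Y : Matrix (Fin s) (Fin n) (ZMod 2))
    (h : ∀ l : Fin s → ZMod 2, (∀ x ∈ M, x ⬝ᵥ l = 0) → l ᵥ* Y = 0) : MY Y ≤ M := by
  rintro _ ⟨u, rfl⟩
  by_contra hz
  have hli : LinearIndependent (ZMod 2) (fun _ : Fin 1 => M.mkQ (Y.mulVecLin u)) := by
    rw [linearIndependent_unique_iff]
    intro h0
    exact hz ((Submodule.Quotient.mk_eq_zero M).1 h0)
  obtain ⟨l, hl1, hl2⟩ := exists_dual M (fun _ : Fin 1 => Y.mulVecLin u) hli
  have h1 := hl2 0 0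
  rw [if_pos rfl, Matrix.mulVecLin_apply, dotProduct_comm, Matrix.dotProduct_mulVec,
    h (l 0) (hl1 0), zero_dotProduct] at h1
  exact zero_ne_one h1

variable {P Z v : ℝ} {f : (Fin n → ZMod 2) → ℝ} {B T Lo : Finset (Fin n → ZMod 2)}

/-- **One term.** -/
lemma term2 (D : Dat n P Z v f B T Lo) (hη : ∀ x, x ∉ B → |f x| ≤ P * Z / 2 ^ s) (N N1 : Sb s)
    (hNN1 : N ≤ N1) (S : Finset (Fin s → ZMod 2)) (hS : Spr N S) (M : Sb s)
    (hM : M = N1 ⊔ Submodule.span (ZMod 2) (S : Set (Fin s → ZMod 2)))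
    (Y : Matrix (Fin s) (Fin n) (ZMod 2)) :
    (¬ MY Y ≤ M → (av fun X => gd T N X * Dn f T N X * tau T N N1 X * pd (g1 f T) S X * ch X Y) = 0)
      ∧ |av fun X => gd T N X * Dn f T N X * tau T N N1 X * pd (g1 f T) S X * ch X Y| ≤
      3 * (((2 : ℝ) ^ s) ^ 7 * (2 * (P * v))) ^ finrank (ZMod 2) M := by
  classical
  have hP := D.hP
  have hv := D.hv0
  have hZ : 0 < Z := by linarith [D.hZ]
  have hfN := Submodule.finrank_mono hNN1
  have hSM : ∀ c ∈ S, c ∈ M := fun c hc => by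
    rw [hM]
    exact Submodule.mem_sup_right (Submodule.subset_span hc)
  have hN1M : N1 ≤ M := hM ▸ le_sup_left
  constructor
  · intro hMY
    obtain ⟨l, hl1, hl2⟩ : ∃ l : Fin s → ZMod 2, (∀ x ∈ M, x ⬝ᵥ l = 0) ∧ l ᵥ* Y ≠ 0 := by
      by_contra hcon
      push Not at hcon
      exact hMY (MY_le M Y hcon)
    have hinv : Inv M (fun X : Matrix (Fin s) (Fin n) (ZMod 2) =>
        gd T N X * Dn f T N X * tau T N N1 X * pd (g1 f T) S X) :=
      ((((Inv.gd T N).mono (hNN1.trans hN1M)).mul ((Dn_inv f T N).mono (hNN1.trans hN1M))).mul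
        ((tau_inv T N N1).mono hN1M)).mul (Inv.pd (g1 f T) hSM)
    exact tool_zero l _ Y hl2 (fun X x => hinv 1 (fun _ => l) (fun _ => hl1) X x)
  obtain ⟨N2, hN12, hbest⟩ := exists_best S N1 8 11
  obtain ⟨J2, hJ2, hli2, hsp2, hfr2⟩ := exists_sel' N1 (ci S N2)
  have hN2eq : N1 ⊔ Submodule.span (ZMod 2) ((ci S N2 : Finset (Fin s → ZMod 2)) :
      Set (Fin s → ZMod 2)) = N2 := by
    have h1 : N1 ⊔ Submodule.span (ZMod 2) ((ci S N2 : Finset (Fin s → ZMod 2)) :
      Set (Fin s → ZMod 2)) ≤ N2 :=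
      sup_le hN12 (Submodule.span_le.2 fun c hc => (mem_ci.1 (Finset.mem_coe.1 hc)).2)
    refine Submodule.eq_of_le_of_finrank_le h1 ?_
    have h2 := hbest _ (le_sup_left : N1 ≤ N1 ⊔ Submodule.span (ZMod 2)
      ((ci S N2 : Finset (Fin s → ZMod 2)) : Set (Fin s → ZMod 2)))
    have h3 : (ci S N2).card ≤ (ci S (N1 ⊔ Submodule.span (ZMod 2)
      ((ci S N2 : Finset (Fin s → ZMod 2)) : Set (Fin s → ZMod 2)))).card := by
      refine Finset.card_le_card fun c hc => ?_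
      exact mem_ci.2 ⟨(mem_ci.1 hc).1, Submodule.mem_sup_right (Submodule.subset_span hc)⟩
    omega
  rw [hN2eq] at hfr2
  have hciS : ci S N2 ⊆ S := fun c hc => (mem_ci.1 hc).1
  have hN2M : N2 ≤ M := by
    rw [← hN2eq, hM]
    exact sup_le_sup_left (Submodule.span_mono (by exact_mod_cast hciS)) _
  have hM2 : M = N2 ⊔ Submodule.span (ZMod 2) (S : Set (Fin s → ZMod 2)) := by
    refine le_antisymm ?_ (sup_le hN2M (Submodule.span_le.2 fun c hc => hSM c hc))
    rw [hM]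
    exact sup_le_sup_right hN12 _
  obtain ⟨J3, hJ3, hli3, -, hfr3⟩ := exists_sel' N2 S
  rw [← hM2] at hfr3
  obtain ⟨S3, hS3⟩ : ∃ S3, S3 = S \ ci S N2 := ⟨_, rfl⟩
  have hcS3 : S3.card + (ci S N2).card = S.card := by
    rw [hS3]
    exact Finset.card_sdiff_add_card_eq_card hciS
  have hdis3 := disj_sel N2 S J3 hli3
  have hJ3S : J3 ⊆ S3 := by
    intro c hc
    rw [hS3]
    exact Finset.mem_sdiff.2 ⟨hJ3 hc, fun h => Finset.disjoint_left.1 hdis3 h hc⟩
  have hciSM : ci S M = S := by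
    ext c
    rw [mem_ci]
    exact ⟨fun h => h.1, fun h => ⟨h, hSM c h⟩⟩
  have hb1 := hbest M (hN12.trans hN2M)
  rw [hciSM] at hb1
  have hcard3 : 8 * S3.card ≤ 11 * J3.card := by omega
  have hb2 := hbest N1 le_rfl
  obtain ⟨j, hj⟩ : ∃ j, j = finrank (ZMod 2) N1 - finrank (ZMod 2) N := ⟨_, rfl⟩
  have hJ210 : J2.card ≤ 10 * j := by
    rcases eq_or_lt_of_le (hNN1.trans hN12) with h | h
    · have h1 := Submodule.finrank_mono hN12
      rw [← h] at h1 hfr2
      omega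
    · have hb3 := hS.2 N2 h
      omega
  -- the Fourier step
  obtain ⟨Θ2, hΘ2⟩ : ∃ Θ2 : Matrix (Fin s) (Fin n) (ZMod 2) → ℝ,
    Θ2 = fun X => gd T N X * Dn f T N X * tau T N N1 X * pd (g1 f T) (ci S N2) X := ⟨_, rfl⟩
  have hΘ2i : Inv N2 Θ2 := by
    rw [hΘ2]
    exact ((((Inv.gd T N).mono (hNN1.trans hN12)).mul ((Dn_inv f T N).mono (hNN1.trans hN12))).mul
        ((tau_inv T N N1).mono hN12)).mul (Inv.pd (g1 f T) fun c hc => (mem_ci.1 hc).2)
  have e1 : ∀ X : Matrix (Fin s) (Fin n) (ZMod 2),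
      gd T N X * Dn f T N X * tau T N N1 X * pd (g1 f T) S X * ch X Y =
        Θ2 X * (pd (g1 f T) S3 X * ch X Y) := by
    intro X
    have h1 : S = ci S N2 ∪ S3 := by rw [hS3, Finset.union_sdiff_of_subset hciS]
    have h2 : pd (g1 f T) S X = pd (g1 f T) (ci S N2) X * pd (g1 f T) S3 X := by
      conv_lhs => rw [h1]
      rw [pd_union]
      rw [hS3]
      exact Finset.disjoint_sdiff
    rw [hΘ2, h2]
    ring
  rw [congrArg av (funext e1)]
  refine (peel D N2 S3 J3 hJ3S hli3 hcard3 Θ2 hΘ2i Y).trans ?_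
  -- the rest
  have hg0 : ∀ x : Fin n → ZMod 2, 0 ≤ |g1 f T x| := fun x => abs_nonneg _
  obtain ⟨Θ0, hΘ0⟩ : ∃ Θ0 : Matrix (Fin s) (Fin n) (ZMod 2) → ℝ,
    Θ0 = fun X => gd T N X * |Dn f T N X| := ⟨_, rfl⟩
  have hΘ0n : ∀ X, 0 ≤ Θ0 X := fun X => by
    rw [hΘ0]
    exact mul_nonneg (gd_nonneg _ _ _) (abs_nonneg _)
  have hΘ0i : Inv N Θ0 := by
    rw [hΘ0]
    refine (Inv.gd T N).mul ?_
    intro r l hl X x
    show |Dn f T N (X + tens l x)| = |Dn f T N X|
    rw [Dn_inv f T N r l hl X x]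
  have hcT : av (ind T) ^ j ≤ (P / Z ^ 40) ^ j :=
    pow_le_pow_left₀ (av_nonneg (ind_nonneg T)) D.cT _
  have hcg : (av fun x => |g1 f T x|) ^ J2.card ≤ (2 * (P * Z)) ^ J2.card :=
    pow_le_pow_left₀ (av_nonneg hg0) (g1_av D) _
  obtain ⟨Q, hQ⟩ : ∃ Q : ℝ, Q = 2 ^ s := ⟨_, rfl⟩
  have hQ1 : 1 ≤ Q := by
    rw [hQ]
    exact one_le_pow₀ one_le_two
  have hD0 := Dn_bound D hη N
  have hJJ : ∀ J ∈ Bs N N1, (av fun X => Θ0 X * pd (ind T) J X * pd (fun x => |g1 f T x|) J2 X) ≤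
      3 * (Q ^ 7 * (2 * (P * v))) ^ finrank (ZMod 2) N * (P / Z ^ 40) ^ j *
        (2 * (P * Z)) ^ J2.card := by
    intro J hJ
    obtain ⟨h1, h2, h3, h4⟩ := Finset.mem_filter.1 hJ
    obtain ⟨Θ1, hΘ1⟩ : ∃ Θ1 : Matrix (Fin s) (Fin n) (ZMod 2) → ℝ,
      Θ1 = fun X => Θ0 X * pd (ind T) J X := ⟨_, rfl⟩
    have hΘ1n : ∀ X, 0 ≤ Θ1 X := fun X => by
      rw [hΘ1]
      exact mul_nonneg (hΘ0n X) (pd_nonneg (ind_nonneg T) _ _)
    have hΘ1i : Inv N1 Θ1 := by
      rw [hΘ1]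
      exact (hΘ0i.mono hNN1).mul (Inv.pd _ h3)
    have e3 := tool_J N1 J2 hli2 hΘ1n hΘ1i hg0
    have e4 := tool_J N J h4 hΘ0n hΘ0i (ind_nonneg T)
    rw [h2, ← hj] at e4
    rw [hΘ1] at e3
    refine e3.trans ?_
    refine mul_le_mul ?_ hcg (pow_nonneg (av_nonneg hg0) _) (by positivity)
    refine e4.trans ?_
    refine mul_le_mul ?_ hcT (pow_nonneg (av_nonneg (ind_nonneg T)) _) (by positivity)
    rw [hΘ0, hQ]
    exact hD0
  have e2 : (av fun X => |Θ2 X|) ≤ (Q ^ 3) ^ j * (Q ^ j *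
      (3 * (Q ^ 7 * (2 * (P * v))) ^ finrank (ZMod 2) N * (P / Z ^ 40) ^ j *
        (2 * (P * Z)) ^ J2.card)) := by
    have h1 : ∀ X, |Θ2 X| ≤ (Q ^ 3) ^ j * ∑ J ∈ Bs N N1,
        Θ0 X * pd (ind T) J X * pd (fun x => |g1 f T x|) J2 X := by
      intro X
      have h2 : |Θ2 X| = Θ0 X * |tau T N N1 X| * pd (fun x => |g1 f T x|) (ci S N2) X := by
        rw [hΘ2, hΘ0]
        simp only
        rw [abs_mul, abs_mul, abs_mul, abs_of_nonneg (gd_nonneg _ _ _), pd_abs]
      have h3 : pd (fun x => |g1 f T x|) (ci S N2) X ≤ pd (fun x => |g1 f T x|) J2 X :=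
        pd_le_of_subset hg0 (g1_one D) hJ2 X
      have h4 := tau_point T hNN1 X
      rw [← hj, ← hQ] at h4
      rw [h2]
      calc Θ0 X * |tau T N N1 X| * pd (fun x => |g1 f T x|) (ci S N2) X ≤
          Θ0 X * ((Q ^ 3) ^ j * ∑ J ∈ Bs N N1, pd (ind T) J X) *
            pd (fun x => |g1 f T x|) J2 X := by
            refine mul_le_mul (mul_le_mul_of_nonneg_left h4 (hΘ0n X)) h3 (pd_nonneg hg0 _ _) ?_
            refine mul_nonneg (hΘ0n X) (mul_nonneg (by positivity)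
              (Finset.sum_nonneg fun J _ => pd_nonneg (ind_nonneg T) J X))
        _ = _ := by
            rw [Finset.mul_sum, Finset.mul_sum, Finset.sum_mul, Finset.mul_sum]
            exact Finset.sum_congr rfl fun J _ => by ring
    refine (av_mono h1).trans ?_
    rw [av_mul_left, av_sum]
    refine mul_le_mul_of_nonneg_left ?_ (by positivity)
    refine (Finset.sum_le_sum hJJ).trans ?_
    rw [Finset.sum_const, nsmul_eq_mul]
    refine mul_le_mul_of_nonneg_right ?_ (by positivity)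
    rw [hQ, hj]
    exact card_Bs N N1
  have hnum := term_num D hJ210
  have hfr : finrank (ZMod 2) M = finrank (ZMod 2) N + (j + J2.card) + J3.card := by omega
  have hPv0 : 0 ≤ P * v := by positivity
  rw [← hQ]
  have hQ7 : 1 ≤ Q ^ 7 := one_le_pow₀ hQ1
  calc (av fun X => |Θ2 X|) * (2 * (P * v)) ^ J3.card ≤
      (Q ^ 3) ^ j * (Q ^ j * (3 * (Q ^ 7 * (2 * (P * v))) ^ finrank (ZMod 2) N * (P / Z ^ 40) ^ j *
        (2 * (P * Z)) ^ J2.card)) * (2 * (P * v)) ^ J3.card :=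
        mul_le_mul_of_nonneg_right e2 (by positivity)
    _ = 3 * (Q ^ 7 * (2 * (P * v))) ^ finrank (ZMod 2) N * ((Q ^ 4) ^ j * 2 ^ J2.card *
      ((P / Z ^ 40) ^ j * (P * Z) ^ J2.card)) * (2 * (P * v)) ^ J3.card := by
        rw [mul_pow 2 (P * Z)]
        ring
    _ ≤ 3 * (Q ^ 7 * (2 * (P * v))) ^ finrank (ZMod 2) N * ((Q ^ 7) ^ (j + J2.card) *
      2 ^ (j + J2.card) * (P * v) ^ (j + J2.card)) * (Q ^ 7 * (2 * (P * v))) ^ J3.card := by
        refine mul_le_mul (mul_le_mul_of_nonneg_left ?_ (by positivity)) ?_ (by positivity)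
          (by positivity)
        · refine mul_le_mul ?_ hnum (by positivity) (by positivity)
          refine mul_le_mul ?_ (pow_le_pow_right₀ one_le_two (by omega)) (by positivity)
            (by positivity)
          calc (Q ^ 4) ^ j ≤ (Q ^ 7) ^ j :=
                pow_le_pow_left₀ (by positivity) (pow_le_pow_right₀ hQ1 (by norm_num)) j
            _ ≤ (Q ^ 7) ^ (j + J2.card) := pow_le_pow_right₀ hQ7 (by omega)
        · refine pow_le_pow_left₀ (by positivity) ?_ _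
          exact le_mul_of_one_le_left (by positivity) hQ7
    _ = 3 * (Q ^ 7 * (2 * (P * v))) ^ finrank (ZMod 2) M := by
        have h9 : (Q ^ 7) ^ (j + J2.card) * 2 ^ (j + J2.card) * (P * v) ^ (j + J2.card) =
            (Q ^ 7 * (2 * (P * v))) ^ (j + J2.card) := by
          rw [mul_pow, mul_pow]
          ring
        rw [h9, hfr, pow_add _ (finrank (ZMod 2) N + (j + J2.card)) J3.card,
          pow_add _ (finrank (ZMod 2) N) (j + J2.card)]
        ring

end Pool.Agent.N381.UG
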