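import Mathlib
import Pool.Agent.N381.UG.Tau

/-!
N381/UG (helper381, MP_0430e4_lc): the Fourier coefficients of the product over all combinations,
with a bound which is uniform in the number of rows.
-/

set_option autoImplicit false
set_option linter.unusedSectionVars false

namespace Pool.Agent.N381.UG

open Finset Matrix Module
open Pool.Agent.N381.LH

variable {s n i : ℕ}

variable {P Z v : ℝ} {f : (Fin n → ZMod 2) → ℝ} {B T Lo : Finset (Fin n → ZMod 2)}

lemma prod_T (T : Finset (Fin n → ZMod 2)) (N : Sb s) (X : Matrix (Fin s) (Fin n) (ZMod 2)) :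
    ∏ c ∈ (univ : Finset (Fin s → ZMod 2)).erase 0, (1 - ind T (c ᵥ* X)) =
      gd T N X * ∑ N' : Sb s, tau T N N' X := by
  classical
  have hsub : ci (univ.erase 0) N ⊆ (univ : Finset (Fin s → ZMod 2)).erase 0 :=
    fun c hc => (mem_ci.1 hc).1
  rw [← Finset.prod_sdiff hsub, sum_tau, mul_comm]
  congr 1
  unfold gd
  split_ifs with h
  · refine Finset.prod_eq_one fun c hc => ?_
    have := h c (mem_ci.1 hc).2 (Finset.mem_erase.1 (mem_ci.1 hc).1).1
    unfold ind
    rw [if_neg this, sub_zero]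
  · push Not at h
    obtain ⟨c, hc1, hc2, hc3⟩ := h
    refine Finset.prod_eq_zero (i := c) (mem_ci.2 ⟨Finset.mem_erase.2 ⟨hc2, Finset.mem_univ _⟩,
      hc1⟩) ?_
    unfold ind
    rw [if_pos hc3, sub_self]

open Classical in
lemma expand2 (D : Dat n P Z v f B T Lo) (Y X : Matrix (Fin s) (Fin n) (ZMod 2)) :
    Wf f X * ch X Y = ∑ N : Sb s, ∑ S : Finset (Fin s → ZMod 2), ∑ N' : Sb s,
      if S ⊆ (univ.erase 0) \ ci (univ.erase 0) N ∧ Spr N S then (-1 : ℝ) ^ S.card *
        (gd T N X * Dn f T N X * tau T N N' X * pd (g1 f T) S X * ch X Y) else 0 := by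
  have h1 : ∀ x, 1 - f x = (1 + - g1 f T x) * (1 - ind T x) := by
    intro x
    by_cases hx : x ∈ T
    · have h2 := D.fB x (D.TB hx)
      unfold g1 ind
      rw [if_pos hx, h2]
      ring
    · unfold g1 ind
      rw [if_neg hx]
      ring
  have h2 : Wf f X = (∑ S ∈ ((univ : Finset (Fin s → ZMod 2)).erase 0).powerset,
      ∏ c ∈ S, - g1 f T (c ᵥ* X)) *
        ∏ c ∈ (univ : Finset (Fin s → ZMod 2)).erase 0, (1 - ind T (c ᵥ* X)) := by
    unfold Wf
    rw [Finset.prod_congr rfl fun c _ => h1 (c ᵥ* X), Finset.prod_mul_distrib,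
      Finset.prod_one_add]
  have h3 := split ((univ : Finset (Fin s → ZMod 2)).erase 0) ∅ (fun c => - g1 f T (c ᵥ* X))
  have h4 : Wf f X = ∑ N : Sb s, Dn f T N X *
      SS (fun c => - g1 f T (c ᵥ* X)) (univ.erase 0) ∅ N * (gd T N X * ∑ N' : Sb s, tau T N N' X) := by
    rw [h2, h3, Finset.sum_mul]
    refine Finset.sum_congr rfl fun N _ => ?_
    rw [← prod_T T N X]
    rfl
  rw [h4, Finset.sum_mul]
  refine Finset.sum_congr rfl fun N _ => ?_
  obtain ⟨K, hK⟩ : ∃ K, K = (univ.erase 0) \ ci (univ.erase 0) N := ⟨_, rfl⟩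
  have h5 : SS (fun c => - g1 f T (c ᵥ* X)) (univ.erase 0) ∅ N =
      ∑ S : Finset (Fin s → ZMod 2), if S ⊆ K ∧ Spr N S then
        (-1 : ℝ) ^ S.card * pd (g1 f T) S X else 0 := by
    unfold SS
    rw [← hK, ← Finset.univ_inter K.powerset, ← Finset.sum_ite_mem]
    refine Finset.sum_congr rfl fun S _ => ?_
    have h6 : S ∪ ((∅ : Finset (Fin s → ZMod 2)) \ ci ∅ N) = S := by
      rw [Finset.empty_sdiff, Finset.union_empty]
    rw [h6]
    have h7 : ∏ c ∈ S, - g1 f T (c ᵥ* X) = (-1 : ℝ) ^ S.card * pd (g1 f T) S X := by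
      unfold pd
      rw [← Finset.prod_const, ← Finset.prod_mul_distrib]
      exact Finset.prod_congr rfl fun c _ => by ring
    rw [h7]
    by_cases a1 : S ⊆ K
    · by_cases a2 : Spr N S
      · rw [if_pos (Finset.mem_powerset.2 a1), if_pos a2, if_pos (⟨a1, a2⟩ : S ⊆ K ∧ Spr N S)]
      · rw [if_pos (Finset.mem_powerset.2 a1), if_neg a2,
          if_neg (show ¬ (S ⊆ K ∧ Spr N S) from fun h => a2 h.2)]
    · rw [if_neg (fun h => a1 (Finset.mem_powerset.1 h)),
        if_neg (show ¬ (S ⊆ K ∧ Spr N S) from fun h => a1 h.1)]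
  rw [h5, ← hK]
  have h8 : Dn f T N X * (∑ S : Finset (Fin s → ZMod 2), if S ⊆ K ∧ Spr N S then
        (-1 : ℝ) ^ S.card * pd (g1 f T) S X else 0) * (gd T N X * ∑ N' : Sb s, tau T N N' X) *
        ch X Y = ∑ S : Finset (Fin s → ZMod 2), ∑ N' : Sb s, (if S ⊆ K ∧ Spr N S then
        (-1 : ℝ) ^ S.card * pd (g1 f T) S X else 0) *
          (gd T N X * Dn f T N X * tau T N N' X * ch X Y) := by
    rw [← Finset.sum_mul_sum, ← Finset.sum_mul, ← Finset.mul_sum]
    ring
  rw [h8]
  refine Finset.sum_congr rfl fun S _ => Finset.sum_congr rfl fun N' _ => ?_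
  split_ifs
  · ring
  · rw [zero_mul]

open Classical in
/-- sums over the subspaces above a given one -/
lemma sum_above (Mb : Sb s) {w : ℝ} (hw : 0 ≤ w) (hQw : 2 ^ s * w ≤ 1 / 2) :
    ∑ M : Sb s, (if Mb ≤ M then w ^ finrank (ZMod 2) M else 0) ≤
      2 * w ^ finrank (ZMod 2) Mb := by
  classical
  obtain ⟨r, hr⟩ : ∃ r, r = finrank (ZMod 2) Mb := ⟨_, rfl⟩
  rw [← Finset.sum_filter, ← hr]
  have h1 : ∀ M ∈ univ.filter (fun M : Sb s => Mb ≤ M),
      finrank (ZMod 2) M - r ∈ range (s + 1) := by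
    intro M _
    have := finrank_le_s M
    exact Finset.mem_range.2 (by omega)
  rw [← Finset.sum_fiberwise_of_maps_to h1]
  have h2 : ∀ j ∈ range (s + 1), ∑ M ∈ (univ.filter (fun M : Sb s => Mb ≤ M)).filter
      (fun M : Sb s => finrank (ZMod 2) M - r = j), w ^ finrank (ZMod 2) M ≤
      w ^ r * (1 / 2) ^ j := by
    intro j _
    have h3 : ∀ M ∈ (univ.filter (fun M : Sb s => Mb ≤ M)).filter
        (fun M : Sb s => finrank (ZMod 2) M - r = j), w ^ finrank (ZMod 2) M = w ^ (r + j) := by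
      intro M hM
      obtain ⟨h4, h5⟩ := Finset.mem_filter.1 hM
      have h6 := Submodule.finrank_mono (Finset.mem_filter.1 h4).2
      congr 1
      omega
    rw [Finset.sum_congr rfl h3, Finset.sum_const, nsmul_eq_mul]
    have h4 : (((univ.filter (fun M : Sb s => Mb ≤ M)).filter
        (fun M : Sb s => finrank (ZMod 2) M - r = j)).card : ℝ) ≤ (2 ^ s) ^ j := by
      have h5 : ((univ.filter (fun M : Sb s => Mb ≤ M)).filter
        (fun M : Sb s => finrank (ZMod 2) M - r = j)).card ≤ (2 ^ s) ^ j := by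
        refine (Finset.card_le_card fun M hM => ?_).trans (card_above Mb j)
        obtain ⟨h4, h5⟩ := Finset.mem_filter.1 hM
        have h6 := (Finset.mem_filter.1 h4).2
        exact Finset.mem_filter.2 ⟨Finset.mem_univ _, h6, by omega⟩
      exact_mod_cast h5
    calc (((univ.filter (fun M : Sb s => Mb ≤ M)).filter
        (fun M : Sb s => finrank (ZMod 2) M - r = j)).card : ℝ) * w ^ (r + j) ≤
        (2 ^ s) ^ j * w ^ (r + j) := mul_le_mul_of_nonneg_right h4 (by positivity)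
      _ = w ^ r * (2 ^ s * w) ^ j := by
        rw [mul_pow, pow_add]
        ring
      _ ≤ w ^ r * (1 / 2) ^ j := by
        refine mul_le_mul_of_nonneg_left (pow_le_pow_left₀ (by positivity) hQw j) (by positivity)
  refine (Finset.sum_le_sum h2).trans ?_
  rw [← Finset.mul_sum, mul_comm 2]
  exact mul_le_mul_of_nonneg_left (sum_geometric_two_le _) (by positivity)

/-- **The Fourier coefficients of the product over all combinations.** -/
lemma What2 (D : Dat n P Z v f B T Lo) (hη : ∀ x, x ∉ B → |f x| ≤ P * Z / 2 ^ s)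
    (hQ : 2 ^ s * (((2 : ℝ) ^ s) ^ 11 * (2 * (P * v))) ≤ 1 / 2)
    (Y : Matrix (Fin s) (Fin n) (ZMod 2)) :
    |av fun X => Wf f X * ch X Y| ≤ 6 * (((2 : ℝ) ^ s) ^ 11 * (2 * (P * v))) ^ Y.rank := by
  classical
  have hP := D.hP
  have hv := D.hv0
  obtain ⟨Q, hQQ⟩ : ∃ Q : ℝ, Q = 2 ^ s := ⟨_, rfl⟩
  have hQ0 : 0 < Q := by rw [hQQ]; positivity
  obtain ⟨y, hy⟩ : ∃ y : ℝ, y = Q ^ 7 * (2 * (P * v)) := ⟨_, rfl⟩
  have hy0 : 0 ≤ y := by rw [hy]; positivity
  rw [congrArg av (funext (expand2 D Y)), av_sum]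
  obtain ⟨a, ha⟩ : ∃ a : Sb s → ℝ, a = fun M => if MY Y ≤ M then 3 * y ^ finrank (ZMod 2) M else 0 :=
    ⟨_, rfl⟩
  have ha0 : ∀ M, 0 ≤ a M := fun M => by
    rw [ha]
    simp only
    split_ifs
    · positivity
    · exact le_rfl
  obtain ⟨b, hb⟩ : ∃ b : Sb s → Sb s → ℝ, b = fun M N => if N ≤ M then 1 else 0 := ⟨_, rfl⟩
  have hb0 : ∀ M N, 0 ≤ b M N := fun M N => by
    rw [hb]
    simp only
    split_ifs <;> norm_num
  obtain ⟨c, hc⟩ : ∃ c : Sb s → Finset (Fin s → ZMod 2) → ℝ,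
    c = fun (M : Sb s) (S : Finset (Fin s → ZMod 2)) =>
      if S ∈ Sm s (2 * finrank (ZMod 2) M) then 1 else 0 := ⟨_, rfl⟩
  have hc0 : ∀ M S, 0 ≤ c M S := fun M S => by
    rw [hc]
    simp only
    split_ifs <;> norm_num
  have hterm : ∀ (N : Sb s) (S : Finset (Fin s → ZMod 2)) (N' : Sb s),
      |av fun X : Matrix (Fin s) (Fin n) (ZMod 2) =>
        if S ⊆ (univ.erase 0) \ ci (univ.erase 0) N ∧ Spr N S then (-1 : ℝ) ^ S.card *
        (gd T N X * Dn f T N X * tau T N N' X * pd (g1 f T) S X * ch X Y) else 0| ≤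
      ∑ M : Sb s, a M * (b M N * (c M S * b M N')) := by
    intro N S N'
    have hR : ∀ M : Sb s, 0 ≤ a M * (b M N * (c M S * b M N')) := fun M =>
      mul_nonneg (ha0 M) (mul_nonneg (hb0 M N) (mul_nonneg (hc0 M S) (hb0 M N')))
    have hR0 := Finset.sum_nonneg fun (M : Sb s) (_ : M ∈ univ) => hR M
    by_cases h1 : S ⊆ (univ.erase 0) \ ci (univ.erase 0) N ∧ Spr N S
    · simp only [if_pos h1]
      rw [av_mul_left, abs_mul, abs_pow, abs_neg, abs_one, one_pow, one_mul]
      by_cases h2 : N ≤ N'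
      · obtain ⟨M, hM⟩ : ∃ M, M = N' ⊔ Submodule.span (ZMod 2) (S : Set (Fin s → ZMod 2)) :=
          ⟨_, rfl⟩
        obtain ⟨h3, h4⟩ := term2 D hη N N' h2 S h1.2 M hM Y
        by_cases h5 : MY Y ≤ M
        · refine h4.trans (le_trans (le_of_eq ?_) (Finset.single_le_sum (fun M _ => hR M)
            (Finset.mem_univ M)))
          have h6 : N' ≤ M := hM ▸ le_sup_left
          have h7 : ∀ c ∈ S, c ∈ M := fun c hc => by
            rw [hM]
            exact Submodule.mem_sup_right (Submodule.subset_span hc)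
          have h8 := Spr_card (h2.trans h6) h1.2 (Finset.Subset.refl S) h7
          have h9 : S ∈ Sm s (2 * finrank (ZMod 2) M) := by
            obtain ⟨h10, h11⟩ := mem_Sm.1 h8
            exact mem_Sm.2 ⟨h10, by omega⟩
          rw [ha, hb, hc]
          simp only
          rw [if_pos h5, if_pos (h2.trans h6), if_pos h9, if_pos h6, hy, hQQ]
          ring
        · rw [h3 h5, abs_zero]
          exact hR0
      · simp only [tau_zero h2, mul_zero, zero_mul]
        rw [av_const, abs_zero]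
        exact hR0
    · simp only [if_neg h1]
      rw [av_const, abs_zero]
      exact hR0
  have hsum : |∑ N : Sb s, av fun X : Matrix (Fin s) (Fin n) (ZMod 2) =>
      ∑ S : Finset (Fin s → ZMod 2), ∑ N' : Sb s,
      if S ⊆ (univ.erase 0) \ ci (univ.erase 0) N ∧ Spr N S then (-1 : ℝ) ^ S.card *
        (gd T N X * Dn f T N X * tau T N N' X * pd (g1 f T) S X * ch X Y) else 0| ≤
      ∑ N : Sb s, ∑ S : Finset (Fin s → ZMod 2), ∑ N' : Sb s, ∑ M : Sb s,
        a M * (b M N * (c M S * b M N')) := by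
    refine (Finset.abs_sum_le_sum_abs _ _).trans (Finset.sum_le_sum fun N _ => ?_)
    rw [av_sum]
    refine (Finset.abs_sum_le_sum_abs _ _).trans (Finset.sum_le_sum fun S _ => ?_)
    rw [av_sum]
    exact (Finset.abs_sum_le_sum_abs _ _).trans (Finset.sum_le_sum fun N' _ => hterm N S N')
  refine hsum.trans ?_
  have hswap : ∑ N : Sb s, ∑ S : Finset (Fin s → ZMod 2), ∑ N' : Sb s, ∑ M : Sb s,
        a M * (b M N * (c M S * b M N')) =
      ∑ M : Sb s, a M * ((∑ N : Sb s, b M N) * ((∑ S : Finset (Fin s → ZMod 2), c M S) *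
        ∑ N' : Sb s, b M N')) := by
    have s1 : ∀ (N : Sb s) (S : Finset (Fin s → ZMod 2)), ∑ N' : Sb s, ∑ M : Sb s,
        a M * (b M N * (c M S * b M N')) = ∑ M : Sb s,
        a M * (b M N * (c M S * ∑ N' : Sb s, b M N')) := by
      intro N S
      rw [Finset.sum_comm]
      refine Finset.sum_congr rfl fun M _ => ?_
      rw [Finset.mul_sum, Finset.mul_sum, Finset.mul_sum]
    have s2 : ∀ N : Sb s, ∑ S : Finset (Fin s → ZMod 2), ∑ M : Sb s,
        a M * (b M N * (c M S * ∑ N' : Sb s, b M N')) = ∑ M : Sb s,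
        a M * (b M N * ((∑ S : Finset (Fin s → ZMod 2), c M S) * ∑ N' : Sb s, b M N')) := by
      intro N
      rw [Finset.sum_comm]
      refine Finset.sum_congr rfl fun M _ => ?_
      rw [Finset.sum_mul, Finset.mul_sum, Finset.mul_sum]
    rw [Finset.sum_congr rfl fun N _ => Finset.sum_congr rfl fun S _ => s1 N S,
      Finset.sum_congr rfl fun N _ => s2 N, Finset.sum_comm]
    refine Finset.sum_congr rfl fun M _ => ?_
    rw [← Finset.mul_sum, ← Finset.sum_mul]
  rw [hswap]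
  have hB : ∀ M : Sb s, ∑ N : Sb s, b M N ≤ Q ^ finrank (ZMod 2) M := by
    intro M
    rw [hb]
    simp only
    rw [Finset.sum_boole, hQQ]
    have h1 : (univ.filter fun N : Sb s => N ≤ M).card ≤ (2 ^ s) ^ finrank (ZMod 2) M := by
      refine (Finset.card_le_card fun N hN => ?_).trans (card_above ⊥ (finrank (ZMod 2) M))
      have h2 := (Finset.mem_filter.1 hN).2
      exact Finset.mem_filter.2 ⟨Finset.mem_univ _, bot_le, by
        have := Submodule.finrank_mono h2
        rw [finrank_bot]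
        omega⟩
    exact_mod_cast h1
  have hC : ∀ M : Sb s, ∑ S : Finset (Fin s → ZMod 2), c M S ≤ (Q ^ 2) ^ finrank (ZMod 2) M := by
    intro M
    rw [hc]
    simp only
    rw [Finset.sum_boole, hQQ, ← pow_mul, Finset.filter_mem_eq_inter, Finset.univ_inter]
    exact_mod_cast card_Sm s (2 * finrank (ZMod 2) M)
  have hfin : ∑ M : Sb s, a M * ((∑ N : Sb s, b M N) * ((∑ S : Finset (Fin s → ZMod 2), c M S) *
        ∑ N' : Sb s, b M N')) ≤
      ∑ M : Sb s, 3 * (if MY Y ≤ M then (Q ^ 4 * y) ^ finrank (ZMod 2) M else 0) := by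
    refine Finset.sum_le_sum fun M _ => ?_
    have h1 : a M * ((∑ N : Sb s, b M N) * ((∑ S : Finset (Fin s → ZMod 2), c M S) *
        ∑ N' : Sb s, b M N')) ≤ a M * (Q ^ finrank (ZMod 2) M * ((Q ^ 2) ^ finrank (ZMod 2) M *
          Q ^ finrank (ZMod 2) M)) := by
      refine mul_le_mul_of_nonneg_left ?_ (ha0 M)
      refine mul_le_mul (hB M) ?_ (mul_nonneg (Finset.sum_nonneg fun S _ => hc0 M S)
        (Finset.sum_nonneg fun N _ => hb0 M N)) (by positivity)
      exact mul_le_mul (hC M) (hB M) (Finset.sum_nonneg fun N _ => hb0 M N) (by positivity)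
    refine h1.trans (le_of_eq ?_)
    rw [ha]
    simp only
    split_ifs
    · rw [mul_pow (Q ^ 4) y]
      ring
    · ring
  refine hfin.trans ?_
  rw [← Finset.mul_sum]
  have hw : Q ^ 4 * y = Q ^ 11 * (2 * (P * v)) := by
    rw [hy]
    ring
  have h1 := sum_above (MY Y) (w := Q ^ 4 * y) (by positivity) (by
    rw [hw, hQQ]
    exact hQ)
  rw [finrank_MY] at h1
  rw [← hQQ, ← hw]
  linarith

end Pool.Agent.N381.UG
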