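import Mathlib
import Pool.Agent.N381.UG.Total
import Pool.Agent.N381.UG.Assem

/-!
N381/UG (helper381, MP_0430e4_lc): the pseudo-code is feasible, for levels up to a constant times
the length.
-/

set_option autoImplicit false
set_option linter.unusedSectionVars false

namespace Pool.Agent.N381.UG

open Finset Matrix Module
open Pool.Agent.N381.LH

variable {s n r k l d : ℕ}

variable {P Z v : ℝ} {f : (Fin n → ZMod 2) → ℝ} {B T Lo : Finset (Fin n → ZMod 2)}

lemma EB_abs2 (D : Dat n P Z v f B T Lo) (hη : ∀ x, x ∉ B → |f x| ≤ P * Z / 2 ^ l)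
    (hQ : 2 ^ l * (((2 : ℝ) ^ l) ^ 11 * (2 * (P * v))) ≤ 1 / 2)
    (Y : Matrix (Fin l) (Fin n) (ZMod 2)) (A : Matrix (Fin l) (Fin k) (ZMod 2)) :
    |EB f Y A| ≤ ((2 : ℝ) ^ n) ^ k *
      (6 * (((2 : ℝ) ^ l) ^ 11 * (2 * (P * v))) ^ (Aᵀ * Y).rank) := by
  have hP := D.hP
  have hv := D.hv0
  have hZ : 0 < Z := by linarith [D.hZ]
  by_cases hA : A = 0
  · subst hA
    rw [EB_zero, Matrix.transpose_zero, Matrix.zero_mul, Matrix.rank_zero, pow_zero, mul_one,
      abs_of_pos (by positivity)]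
    exact le_mul_of_one_le_right (by positivity) (by norm_num)
  · obtain ⟨s, hs, b, C, ⟨D0, hD0⟩, ⟨E, hE⟩, hC⟩ := exists_factor A hA
    have hsl := (Finset.mem_Icc.1 hs).2
    have h1 : (2 : ℝ) ^ s ≤ 2 ^ l := pow_le_pow_right₀ one_le_two hsl
    have h2 : ((2 : ℝ) ^ s) ^ 11 * (2 * (P * v)) ≤ ((2 : ℝ) ^ l) ^ 11 * (2 * (P * v)) :=
      mul_le_mul_of_nonneg_right (pow_le_pow_left₀ (by positivity) h1 11) (by positivity)
    rw [EB_eq b C D0 E A hD0 hE hC Y, abs_mul, abs_of_pos (by positivity),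
      ← rank_eq b C D0 A hD0 hC Y]
    refine mul_le_mul_of_nonneg_left ((What2 D (fun x hx => (hη x hx).trans ?_) ?_
      (Cᵀ * Y)).trans ?_) (by positivity)
    · exact div_le_div_of_nonneg_left (by positivity) (by positivity) h1
    · exact (mul_le_mul h1 h2 (by positivity) (by positivity)).trans hQ
    · exact mul_le_mul_of_nonneg_left (pow_le_pow_left₀ (by positivity) h2 _) (by norm_num)

/-- **The lower bound for the values, with parameters.** -/
theorem value2 (D : Dat n P Z v f B T Lo) (hB : ∀ x : Fin n → ZMod 2, hammingNorm x < d → x ∈ B)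
    (hη : ∀ x, x ∉ B → |f x| ≤ P * Z / 2 ^ l)
    (hQ : 2 ^ l * (((2 : ℝ) ^ l) ^ 11 * (2 * (P * v))) ≤ 1 / 2)
    (hsm : 2 ^ l * (2 * (P * Z)) ≤ 1 / 2)
    (hx : 6 * (l * (2 ^ k * 2 ^ l * (((2 : ℝ) ^ l) ^ 11 * (2 * (P * v))))) ≤ 1 / 4)
    (hx1 : 2 ^ k * 2 ^ l * (((2 : ℝ) ^ l) ^ 11 * (2 * (P * v))) ≤ 1) :
    ∃ a : Matrix (Fin l) (Fin n) (ZMod 2) → ℝ, Fs l n d a ∧
      ((2 : ℝ) ^ k) ^ l / 2 ≤ ∑ X, a X := by
  classical
  have hP := D.hP
  have hv := D.hv0
  have hNK : (0 : ℝ) < ((2 : ℝ) ^ n) ^ k := by positivity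
  obtain ⟨w, hw⟩ : ∃ w : ℝ, w = ((2 : ℝ) ^ l) ^ 11 * (2 * (P * v)) := ⟨_, rfl⟩
  have hw0 : 0 ≤ w := by
    rw [hw]
    positivity
  have hEB : ∀ (Y : Matrix (Fin l) (Fin n) (ZMod 2)) (A : Matrix (Fin l) (Fin k) (ZMod 2)),
      |EB f Y A| ≤ ((2 : ℝ) ^ n) ^ k * (6 * w ^ (Aᵀ * Y).rank) := fun Y A => by
    rw [hw]
    exact EB_abs2 D hη hQ Y A
  rw [← hw] at hx hx1
  obtain ⟨u, hu⟩ : ∃ u : (Fin n → ZMod 2) → ℝ, u = fun x => - f x := ⟨_, rfl⟩
  have hu1 : ∀ x, 0 ≤ 1 + u x := fun x => by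
    have := (abs_le.1 (D.f1 x)).2
    rw [hu]
    simp only
    linarith
  have hft : ∀ Y : Matrix (Fin l) (Fin n) (ZMod 2), ∑ X, f0 k u X * ch X Y =
      ∑ A : Matrix (Fin l) (Fin k) (ZMod 2), EB f Y A := by
    intro Y
    rw [f0_ft, Finset.sum_comm, hu]
    rfl
  obtain ⟨x, hxx⟩ : ∃ x : ℝ, x = 2 ^ k * 2 ^ l * w := ⟨_, rfl⟩
  rw [← hxx] at hx hx1
  have hx0 : 0 ≤ x := by
    rw [hxx]
    positivity
  have hcount : ∀ Y : Matrix (Fin l) (Fin n) (ZMod 2),
      ∑ A ∈ univ.filter (fun A : Matrix (Fin l) (Fin k) (ZMod 2) => ¬ Aᵀ * Y = 0),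
        w ^ (Aᵀ * Y).rank ≤ M k Y * (l * x) := by
    intro Y
    have h1 : ∀ A ∈ univ.filter (fun A : Matrix (Fin l) (Fin k) (ZMod 2) => ¬ Aᵀ * Y = 0),
        (Aᵀ * Y).rank ∈ Icc 1 l := by
      intro A hA
      refine Finset.mem_Icc.2 ⟨?_, (Matrix.rank_mul_le_left _ _).trans (Matrix.rank_le_width _)⟩
      by_contra h
      have h2 : (Aᵀ * Y).rank = 0 := by omega
      refine (Finset.mem_filter.1 hA).2 ?_
      by_contra h3
      obtain ⟨s, hs, b, C, ⟨D0, hD0⟩, ⟨E, hE⟩, hC⟩ := exists_factor _ h3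
      have a1 := Matrix.rank_mul_le_left b D0
      rw [hD0, Matrix.rank_one, Fintype.card_fin] at a1
      have a3 := Matrix.rank_mul_le_right E (Aᵀ * Y)
      rw [hE, h2] at a3
      have := (Finset.mem_Icc.1 hs).1
      omega
    rw [← Finset.sum_fiberwise_of_maps_to h1]
    have h2 : ∀ r ∈ Icc 1 l, ∑ A ∈ (univ.filter (fun A : Matrix (Fin l) (Fin k) (ZMod 2) =>
        ¬ Aᵀ * Y = 0)).filter (fun A => (Aᵀ * Y).rank = r), w ^ (Aᵀ * Y).rank ≤
        M k Y * x := by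
      intro r hr
      have hr1 := (Finset.mem_Icc.1 hr).1
      have h3 : ∑ A ∈ (univ.filter (fun A : Matrix (Fin l) (Fin k) (ZMod 2) =>
          ¬ Aᵀ * Y = 0)).filter (fun A => (Aᵀ * Y).rank = r), w ^ (Aᵀ * Y).rank ≤
          ((univ.filter fun A : Matrix (Fin l) (Fin k) (ZMod 2) => (Aᵀ * Y).rank = r).card : ℝ) *
            w ^ r := by
        rw [← nsmul_eq_mul, ← Finset.sum_const]
        refine (Finset.sum_le_sum_of_subset_of_nonneg (t := univ.filter
          fun A : Matrix (Fin l) (Fin k) (ZMod 2) => (Aᵀ * Y).rank = r) ?_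
          fun _ _ _ => by positivity).trans (Finset.sum_le_sum fun A hA => ?_)
        · intro A hA
          exact Finset.mem_filter.2 ⟨Finset.mem_univ _, (Finset.mem_filter.1 hA).2⟩
        · rw [(Finset.mem_filter.1 hA).2]
      refine h3.trans ?_
      have h4 : ((univ.filter fun A : Matrix (Fin l) (Fin k) (ZMod 2) =>
          (Aᵀ * Y).rank = r).card : ℝ) ≤ (2 ^ k) ^ r * (M k Y * (2 ^ l) ^ r) := by
        exact_mod_cast card_rank_le Y hr1
      refine (mul_le_mul_of_nonneg_right h4 (by positivity)).trans ?_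
      have h5 : ((2 : ℝ) ^ k) ^ r * (M k Y * (2 ^ l) ^ r) * w ^ r = M k Y * x ^ r := by
        rw [hxx, mul_pow, mul_pow]
        ring
      rw [h5]
      refine mul_le_mul_of_nonneg_left ?_ (Nat.cast_nonneg _)
      have := pow_le_pow_of_le_one hx0 hx1 hr1
      rwa [pow_one] at this
    refine (Finset.sum_le_sum h2).trans (le_of_eq ?_)
    rw [Finset.sum_const, nsmul_eq_mul, Nat.card_Icc, Nat.add_sub_cancel]
    ring
  have hge : ∀ Y : Matrix (Fin l) (Fin n) (ZMod 2),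
      0 ≤ ∑ X, f0 k u X * ch X Y := by
    intro Y
    rw [hft, ← Finset.sum_filter_add_sum_filter_not univ
      (fun A : Matrix (Fin l) (Fin k) (ZMod 2) => Aᵀ * Y = 0)]
    have h1 : ((2 : ℝ) ^ n) ^ k / 2 * M k Y ≤
        ∑ A ∈ univ.filter (fun A : Matrix (Fin l) (Fin k) (ZMod 2) => Aᵀ * Y = 0), EB f Y A := by
      have h2 : ((2 : ℝ) ^ n) ^ k / 2 * M k Y =
          ∑ A ∈ univ.filter (fun A : Matrix (Fin l) (Fin k) (ZMod 2) => Aᵀ * Y = 0),
            ((2 : ℝ) ^ n) ^ k / 2 := by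
        rw [Finset.sum_const, nsmul_eq_mul, mul_comm]
        rfl
      rw [h2]
      exact Finset.sum_le_sum fun A hA => EB_low D hsm Y A (Finset.mem_filter.1 hA).2
    have h3 : |∑ A ∈ univ.filter (fun A : Matrix (Fin l) (Fin k) (ZMod 2) => ¬ Aᵀ * Y = 0),
        EB f Y A| ≤ ((2 : ℝ) ^ n) ^ k * (6 * (M k Y * (l * x))) := by
      refine (Finset.abs_sum_le_sum_abs _ _).trans ((Finset.sum_le_sum fun A _ =>
        hEB Y A).trans ?_)
      rw [← Finset.mul_sum, ← Finset.mul_sum]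
      refine mul_le_mul_of_nonneg_left (mul_le_mul_of_nonneg_left (hcount Y) (by norm_num)) hNK.le
    have h4 := (abs_le.1 h3).1
    have h5 : ((2 : ℝ) ^ n) ^ k * (6 * (M k Y * (l * x))) ≤ ((2 : ℝ) ^ n) ^ k * (M k Y * (1 / 4)) := by
      refine mul_le_mul_of_nonneg_left ?_ hNK.le
      calc 6 * (M k Y * (l * x)) = M k Y * (6 * (l * x)) := by ring
        _ ≤ M k Y * (1 / 4) := mul_le_mul_of_nonneg_left hx (Nat.cast_nonneg _)
    have h6 : 0 ≤ ((2 : ℝ) ^ n) ^ k * M k Y := by positivity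
    linarith
  refine ⟨fun X => f0 k u X / ((2 : ℝ) ^ n) ^ k, ?_, ?_⟩
  · refine ⟨?_, fun X => ?_, fun X c h0 h1 => ?_, fun Y => ?_⟩
    · rw [hu, f0_at_zero D, div_self hNK.ne']
    · refine div_nonneg (Finset.sum_nonneg fun G _ => Finset.sum_nonneg fun A _ => ?_) hNK.le
      split_ifs
      · exact wt_nonneg hu1 A G
      · exact le_rfl
    · have : f0 k u X = 0 := by
        refine Finset.sum_eq_zero fun G _ => Finset.sum_eq_zero fun A _ => ?_
        split_ifs with h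
        · refine Finset.prod_eq_zero (i := c ᵥ* A) ?_ ?_
          · refine Finset.mem_erase.2 ⟨?_, mem_R.2 ⟨c, rfl⟩⟩
            intro h2
            rw [← h, ← Matrix.vecMul_vecMul, h2, Matrix.zero_vecMul, hammingNorm_zero] at h0
            exact lt_irrefl _ h0
          · rw [Matrix.vecMul_vecMul, h, hu]
            simp only
            rw [D.fB _ (hB _ h1)]
            norm_num
        · rfl
      rw [this, zero_div]
    · have h2 : ∑ X, f0 k u X / ((2 : ℝ) ^ n) ^ k * ch X Y =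
          (∑ X, f0 k u X * ch X Y) / ((2 : ℝ) ^ n) ^ k := by
        rw [Finset.sum_div]
        exact Finset.sum_congr rfl fun X _ => by ring
      rw [h2]
      exact div_nonneg (hge Y) hNK.le
  · have h1 := hft 0
    simp only [ch_zero_right, mul_one] at h1
    rw [← Finset.sum_div, h1, le_div_iff₀ hNK]
    have h2 : ∑ A : Matrix (Fin l) (Fin k) (ZMod 2), ((2 : ℝ) ^ n) ^ k / 2 ≤
        ∑ A : Matrix (Fin l) (Fin k) (ZMod 2), EB f (0 : Matrix (Fin l) (Fin n) (ZMod 2)) A :=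
      Finset.sum_le_sum fun A _ => EB_low D hsm 0 A (Matrix.mul_zero _)
    refine le_trans (le_of_eq ?_) h2
    rw [Finset.sum_const, nsmul_eq_mul, Finset.card_univ, card_mat]
    ring

end Pool.Agent.N381.UG
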