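import Mathlib
import Pool.Agent.N381.UG.Assem
import Pool.Agent.N381.LH.Asym

/-!
N381/UG (helper381, MP_0430e4_lc): the data for balls.
-/

set_option autoImplicit false
set_option linter.unusedSectionVars false

namespace Pool.Agent.N381.UG

open Finset Matrix Module
open Pool.Agent.N381.LH

variable {n d j₀ j₁ : ℕ}

/-- the function -/
noncomputable def ff (n d j₀ : ℕ) (x : Fin n → ZMod 2) : ℝ :=
  (if x = 0 then 1 else 0) - uu n d j₀ x

/-- the ball -/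
def Bd (n d : ℕ) : Finset (Fin n → ZMod 2) := univ.filter fun x => hammingNorm x < d

lemma mem_Bd {x : Fin n → ZMod 2} : x ∈ Bd n d ↔ hammingNorm x < d := by
  unfold Bd
  simp

lemma card_cube (n : ℕ) : (Fintype.card (Fin n → ZMod 2) : ℝ) = 2 ^ n := by
  rw [Fintype.card_fun, ZMod.card, Fintype.card_fin]
  push_cast
  rfl

lemma ff_in {x : Fin n → ZMod 2} (hx : x ∈ Bd n d) : ff n d j₀ x = 1 := by
  unfold ff
  by_cases h : x = 0
  · rw [if_pos h, h, uu_zero]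
    norm_num
  · rw [if_neg h, uu_ball (hammingNorm_pos_iff.2 h) (mem_Bd.1 hx)]
    norm_num

lemma ff_out {η : ℝ} (hη : ∀ x : Fin n → ZMod 2, |Lf n d j₀ x| ≤ η) (hd : 1 ≤ d)
    {x : Fin n → ZMod 2} (hx : x ∉ Bd n d) : |ff n d j₀ x| ≤ η := by
  have h0 : x ≠ 0 := by
    rintro rfl
    apply hx
    rw [mem_Bd, hammingNorm_zero]
    omega
  have h1 : ¬ hammingNorm x < d := fun h => hx (mem_Bd.2 h)
  unfold ff uu
  rw [if_neg h0, if_neg h0, if_neg h1, zero_sub, abs_neg]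
  exact hη x

lemma ff_hat (y : Fin n → ZMod 2) : hatv (ff n d j₀) y = (1 - hat (uu n d j₀) y) / 2 ^ n := by
  classical
  unfold hatv av
  rw [card_cube]
  congr 1
  unfold ff hat
  simp_rw [sub_mul]
  rw [Finset.sum_sub_distrib]
  congr 1
  rw [Finset.sum_eq_single 0]
  · rw [if_pos rfl, zero_dotProduct, sg_zero, one_mul]
  · intro b _ hb
    rw [if_neg hb, zero_mul]
  · intro h
    exact absurd (Finset.mem_univ _) h

lemma ball_hat (hd : 1 ≤ d) (y : Fin n → ZMod 2) :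
    hatv (ind (Bd n d)) y = (1 + bh n d y) / 2 ^ n := by
  classical
  unfold hatv av
  rw [card_cube]
  congr 1
  have h1 : ∀ x : Fin n → ZMod 2, ind (Bd n d) x * sg (x ⬝ᵥ y) =
      if x ∈ Bd n d then sg (x ⬝ᵥ y) else 0 := by
    intro x
    unfold ind
    split_ifs <;> simp
  have h2 : Bd n d = insert 0 (Bl n d) := by
    ext x
    rw [mem_Bd, Finset.mem_insert]
    unfold Bl
    rw [Finset.mem_filter]
    constructor
    · intro h
      by_cases hx : x = 0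
      · exact Or.inl hx
      · exact Or.inr ⟨Finset.mem_univ _, hammingNorm_pos_iff.2 hx, h⟩
    · rintro (rfl | h)
      · rw [hammingNorm_zero]
        omega
      · exact h.2.2
  have h0 : (0 : Fin n → ZMod 2) ∉ Bl n d := by
    intro h
    have := (Finset.mem_filter.1 h).2.1
    rw [hammingNorm_zero] at this
    exact lt_irrefl _ this
  rw [Finset.sum_congr rfl fun x _ => h1 x, Finset.sum_ite_mem, Finset.univ_inter, h2,
    Finset.sum_insert h0, zero_dotProduct, sg_zero]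
  rfl

/-- intersections of balls -/
lemma inter_le' {q : ℝ} (hq : 0 < q) (hq1 : q ≤ 1) (d : ℕ) (v : Fin n → ZMod 2) :
    ((univ.filter fun x : Fin n → ZMod 2 => x ∈ Bd n d ∧ x + v ∈ Bd n d).card : ℝ) ≤
      VV n d (q ^ 2) * (2 * q / (1 + q ^ 2)) ^ hammingNorm v := by
  have hv := wt_le v
  have h0 : (0 : ℝ) < 1 + q ^ 2 := by positivity
  have h1 : VV n d (q ^ 2) * (2 * q / (1 + q ^ 2)) ^ hammingNorm v =
      (2 * q) ^ hammingNorm v * (1 + q ^ 2) ^ (n - hammingNorm v) / q ^ (2 * d) := by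
    unfold VV
    rw [← pow_mul, div_pow]
    have : (1 + q ^ 2) ^ n = (1 + q ^ 2) ^ (n - hammingNorm v) * (1 + q ^ 2) ^ hammingNorm v := by
      rw [← pow_add, Nat.sub_add_cancel hv]
    rw [this]
    field_simp
  rw [h1, le_div_iff₀ (by positivity), ← gen_two, ← nsmul_eq_mul, ← Finset.sum_const]
  refine (Finset.sum_le_sum fun x hx => ?_).trans
    (Finset.sum_le_sum_of_subset_of_nonneg (Finset.filter_subset _ _) fun x _ _ => by positivity)
  refine pow_le_pow_of_le_one hq.le hq1 ?_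
  have h2 := mem_Bd.1 (Finset.mem_filter.1 hx).2.1
  have h3 := mem_Bd.1 (Finset.mem_filter.1 hx).2.2
  omega

lemma av_ind_Bd (m : ℕ) {w : ℝ} (hw : 0 < w) (hw1 : w ≤ 1) :
    av (ind (Bd n m)) ≤ VV n m w / 2 ^ n := by
  unfold av
  rw [card_cube]
  refine div_le_div_of_nonneg_right ?_ (by positivity)
  unfold ind
  rw [Finset.sum_boole, Finset.filter_mem_eq_inter, Finset.univ_inter]
  exact card_low_le hw hw1 m

/-- **The data for balls.** -/
lemma mkDat {q y z Z v V1 : ℝ} (hq : 0 < q) (hq1 : q ≤ 1) (hy : 0 < y) (hy1 : y ≤ 1) (hz : 0 < z)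
    (hz1 : z ≤ 1) (hV : V1 = VV n d (q ^ 2)) (hj : 1 ≤ j₁) (hjd : j₁ ≤ d) (hv0 : 0 < v)
    (hv1 : v ≤ 1) (hZ : 2 * VV n j₀ y ≤ Z) (hvZ : 1 ≤ v * Z) (hPZ : V1 / 2 ^ n * Z ^ 40 ≤ 1)
    (hfh : ((1 + (q ^ 2) ^ 2) / (1 + q ^ 2) ^ 2) ^ j₀ + 2 * (2 * VV n j₀ y * (V1 / 2 ^ n)) + 1 / V1 ≤
      v ^ 3) (hcT : VV n j₁ z * Z ^ 40 ≤ V1) (hsh : (2 * q / (1 + q ^ 2)) ^ j₁ ≤ v) :
    Dat n (V1 / 2 ^ n) Z v (ff n d j₀) (Bd n d) (Bd n j₁) (PP n j₀) := by
  classical
  have hr : 0 < q ^ 2 := by positivity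
  have hr1 : q ^ 2 ≤ 1 := pow_le_one₀ hq.le hq1
  have hV1 : 1 ≤ V1 := hV ▸ one_le_VV hr hr1 d
  have hV0 : 0 < V1 := by linarith
  have hd : 1 ≤ d := hj.trans hjd
  obtain ⟨P1, hP1⟩ : ∃ P1, P1 = VV n j₀ y := ⟨_, rfl⟩
  have hP11 : 1 ≤ P1 := hP1 ▸ one_le_VV hy hy1 j₀
  rw [← hP1] at hZ hfh
  have hZ1 : 1 ≤ Z := by linarith
  have hZ0 : 0 < Z := by linarith
  obtain ⟨P, hP⟩ : ∃ P, P = V1 / 2 ^ n := ⟨_, rfl⟩
  rw [← hP] at hPZ hfh ⊢
  have hP0 : 0 < P := by rw [hP]; positivity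
  have hPV : P * 2 ^ n = V1 := by rw [hP]; field_simp
  have hBl : ((Bl n d).card : ℝ) ≤ V1 := hV ▸ card_Bl_le hr hr1 d
  have hPP : ((PP n j₀).card : ℝ) ≤ 2 * P1 := by
    have a1 := card_PP_le n j₀
    have a2 := card_low_le (n := n) hy hy1 j₀
    rw [← hP1] at a2
    have a3 : ((PP n j₀).card : ℝ) ≤
        2 * ((univ.filter fun x : Fin n → ZMod 2 => hammingNorm x < j₀).card : ℝ) := by
      exact_mod_cast a1
    linarith
  obtain ⟨η, hη⟩ : ∃ η, η = 2 * P1 * P := ⟨_, rfl⟩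
  have hη0 : 0 ≤ η := by rw [hη]; positivity
  have hLf : ∀ x : Fin n → ZMod 2, |Lf n d j₀ x| ≤ η := by
    intro x
    refine (Lf_le d j₀ x).trans ?_
    rw [hη, hP, ← mul_div_assoc]
    refine div_le_div_of_nonneg_right ?_ (by positivity)
    exact mul_le_mul hPP hBl (Nat.cast_nonneg _) (by positivity)
  have hηZ : η ≤ P * Z := by
    rw [hη]
    calc 2 * P1 * P = P * (2 * P1) := by ring
      _ ≤ P * Z := mul_le_mul_of_nonneg_left hZ hP0.le
  have hPZ1 : P * Z ≤ 1 := by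
    refine le_trans ?_ hPZ
    exact mul_le_mul_of_nonneg_left (le_self_pow₀ hZ1 (by norm_num)) hP0.le
  have hη1 : η ≤ 1 := hηZ.trans hPZ1
  have hρ0 : 0 ≤ ((1 + (q ^ 2) ^ 2) / (1 + q ^ 2) ^ 2) ^ j₀ := by positivity
  obtain ⟨ρj, hρj⟩ : ∃ ρj, ρj = ((1 + (q ^ 2) ^ 2) / (1 + q ^ 2) ^ 2) ^ j₀ := ⟨_, rfl⟩
  rw [← hρj] at hfh hρ0
  have hbh : ∀ c : Fin n → ZMod 2, c ∉ PP n j₀ → |bh n d c| ≤ V1 * ρj := by
    intro c hc
    have h4 : ¬ (hammingNorm c < j₀ ∨ n < hammingNorm c + j₀) := fun h' =>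
      hc (Finset.mem_filter.2 ⟨Finset.mem_univ _, h'⟩)
    push Not at h4
    rw [hV, hρj]
    exact bh_le hr hr1 d j₀ c h4.1 h4.2
  have hn0 : (0 : ℝ) < 2 ^ n := by positivity
  refine ⟨hP0, hv0, hv1, hZ1, hvZ, hPZ, ?_, ?_, fun x hx => ff_in hx, ?_, ?_, ?_, ?_, ?_, ?_, ?_, ?_⟩
  · rw [mem_Bd, hammingNorm_zero]
    omega
  · intro x hx
    exact mem_Bd.2 (lt_of_lt_of_le (mem_Bd.1 hx) hjd)
  · intro x
    by_cases hx : x ∈ Bd n d
    · rw [ff_in hx, abs_one]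
    · exact (ff_out hLf hd hx).trans hη1
  · intro x hx
    exact (ff_out hLf hd hx).trans hηZ
  · intro c
    rw [ff_hat, abs_div, abs_of_pos hn0, div_le_iff₀ hn0]
    have h1 := uu_hat hLf c
    have h2 : (if c ∈ PP n j₀ then 0 else |bh n d c|) ≤ V1 * ρj := by
      split_ifs with h
      · positivity
      · exact hbh c h
    have h3 : ((Bl n d).card + 1) * η ≤ V1 * (2 * η) := by
      have : ((Bl n d).card : ℝ) + 1 ≤ 2 * V1 := by linarith
      calc ((Bl n d).card + 1) * η ≤ (2 * V1) * η := mul_le_mul_of_nonneg_right this hη0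
        _ = _ := by ring
    have h4 : |1 - hat (uu n d j₀) c| ≤ 1 + (V1 * ρj + V1 * (2 * η)) := by
      refine (abs_sub _ _).trans ?_
      rw [abs_one]
      linarith
    refine h4.trans ?_
    calc 1 + (V1 * ρj + V1 * (2 * η)) = V1 * (ρj + 2 * (2 * P1 * P) + 1 / V1) := by
          rw [hη]
          field_simp
          ring
      _ ≤ V1 * v ^ 3 := mul_le_mul_of_nonneg_left hfh hV0.le
      _ = P * v ^ 3 * 2 ^ n := by rw [← hPV]; ring
  · rw [hP, hV]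
    exact av_ind_Bd d hr hr1
  · refine (av_ind_Bd j₁ hz hz1).trans ?_
    rw [hP, div_div, div_le_div_iff₀ (by positivity) (by positivity)]
    calc VV n j₁ z * (2 ^ n * Z ^ 40) = VV n j₁ z * Z ^ 40 * 2 ^ n := by ring
      _ ≤ V1 * 2 ^ n := mul_le_mul_of_nonneg_right hcT hn0.le
  · intro w hw
    have h1 : j₁ ≤ hammingNorm w := by
      by_contra h
      exact hw (mem_Bd.2 (by omega))
    have h2 : (av fun x => ind (Bd n d) x * ind (Bd n d) (x + w)) =
        ((univ.filter fun x : Fin n → ZMod 2 => x ∈ Bd n d ∧ x + w ∈ Bd n d).card : ℝ) / 2 ^ n := by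
      unfold av
      rw [card_cube, ← Finset.sum_boole]
      congr 1
      refine Finset.sum_congr rfl fun x _ => ?_
      show (if x ∈ Bd n d then (1 : ℝ) else 0) * (if x + w ∈ Bd n d then (1 : ℝ) else 0) = _
      by_cases a1 : x ∈ Bd n d
      · by_cases a2 : x + w ∈ Bd n d
        · rw [if_pos a1, if_pos a2, if_pos ⟨a1, a2⟩, mul_one]
        · rw [if_neg a2, mul_zero,
            if_neg (show ¬ (x ∈ Bd n d ∧ x + w ∈ Bd n d) from fun h => a2 h.2)]
      · rw [if_neg a1, zero_mul,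
          if_neg (show ¬ (x ∈ Bd n d ∧ x + w ∈ Bd n d) from fun h => a1 h.1)]
    rw [h2, div_le_iff₀ hn0]
    have hθ0 : 0 ≤ 2 * q / (1 + q ^ 2) := by positivity
    have hθ1 : 2 * q / (1 + q ^ 2) ≤ 1 := by
      rw [div_le_one (by positivity)]
      nlinarith [sq_nonneg (1 - q)]
    calc ((univ.filter fun x : Fin n → ZMod 2 => x ∈ Bd n d ∧ x + w ∈ Bd n d).card : ℝ) ≤
        VV n d (q ^ 2) * (2 * q / (1 + q ^ 2)) ^ hammingNorm w := inter_le' hq hq1 d w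
      _ ≤ V1 * v := by
        rw [← hV]
        exact mul_le_mul_of_nonneg_left ((pow_le_pow_of_le_one hθ0 hθ1 h1).trans hsh) hV0.le
      _ = P * v * 2 ^ n := by rw [← hPV]; ring
  · exact hPP.trans hZ
  · intro c hc
    rw [ball_hat hd, abs_div, abs_of_pos hn0, div_le_iff₀ hn0]
    have h1 : |1 + bh n d c| ≤ 1 + V1 * ρj := by
      refine (abs_add_le _ _).trans ?_
      rw [abs_one]
      have := hbh c hc
      linarith
    refine h1.trans ?_
    have h2 : 0 ≤ 2 * (2 * P1 * P) := by positivity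
    calc 1 + V1 * ρj = V1 * (ρj + 1 / V1) := by
          field_simp
          ring
      _ ≤ V1 * v ^ 3 := mul_le_mul_of_nonneg_left (by linarith) hV0.le
      _ = P * v ^ 3 * 2 ^ n := by rw [← hPV]; ring

end Pool.Agent.N381.UG
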