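import Mathlib
import Pool.Agent.N381.UG.Asym
import Pool.Agent.N381.UG.Assem2

/-!
N381/UG (helper381, MP_0430e4_lc): asymptotics for levels up to a constant times the length.
-/

set_option autoImplicit false
set_option linter.unusedSectionVars false

namespace Pool.Agent.N381.UG

open Filter Topology
open Pool.Agent.N381.LH

lemma ff_eta {n d j₀ l : ℕ} {q y Z V1 : ℝ} (hq : 0 < q) (hq1 : q ≤ 1) (hy : 0 < y) (hy1 : y ≤ 1)
    (hV : V1 = VV n d (q ^ 2)) (hd : 1 ≤ d) (hZ : 2 * VV n j₀ y * 2 ^ l ≤ Z)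
    (x : Fin n → ZMod 2) (hx : x ∉ Bd n d) : |ff n d j₀ x| ≤ V1 / 2 ^ n * Z / 2 ^ l := by
  have hr : 0 < q ^ 2 := by positivity
  have hr1 : q ^ 2 ≤ 1 := pow_le_one₀ hq.le hq1
  have hV1 : 1 ≤ V1 := hV ▸ one_le_VV hr hr1 d
  have hBl : ((Bl n d).card : ℝ) ≤ V1 := hV ▸ card_Bl_le hr hr1 d
  have hP11 : 1 ≤ VV n j₀ y := one_le_VV hy hy1 j₀
  have hPP : ((PP n j₀).card : ℝ) ≤ 2 * VV n j₀ y := by
    have a1 := card_PP_le n j₀
    have a2 := card_low_le (n := n) hy hy1 j₀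
    have a3 : ((PP n j₀).card : ℝ) ≤
        2 * ((Finset.univ.filter fun x : Fin n → ZMod 2 => hammingNorm x < j₀).card : ℝ) := by
      exact_mod_cast a1
    linarith
  refine ff_out (fun x => (Lf_le d j₀ x).trans ?_) hd hx
  rw [le_div_iff₀ (by positivity)]
  calc (PP n j₀).card * (Bl n d).card / 2 ^ n * 2 ^ l ≤
      (2 * VV n j₀ y) * V1 / 2 ^ n * 2 ^ l := by
        refine mul_le_mul_of_nonneg_right (div_le_div_of_nonneg_right ?_ (by positivity))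
          (by positivity)
        exact mul_le_mul hPP hBl (Nat.cast_nonneg _) (by positivity)
    _ = V1 / 2 ^ n * (2 * VV n j₀ y * 2 ^ l) := by ring
    _ ≤ V1 / 2 ^ n * Z := mul_le_mul_of_nonneg_left hZ (by positivity)

/-- **The lower bound for the values of the hierarchy, for levels up to a constant times the
length.** -/
theorem lower2 {δ : ℝ} (h0 : 0 < δ) (h1 : δ < 1 / 2) : ∃ c ε : ℝ, 0 < c ∧ 0 < ε ∧
    ∀ᶠ n : ℕ in atTop, ∀ l : ℕ, 1 ≤ l → (l : ℝ) ≤ ε * n →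
      ∃ a : Matrix (Fin l) (Fin n) (ZMod 2) → ℝ, Fs l n ⌈δ * n⌉₊ a ∧
      (2 : ℝ) ^ ((1 - Real.binEntropy δ / Real.log 2 + c) * (l * n)) ≤ ∑ X, a X := by
  have hl2 : 0 < Real.log 2 := Real.log_pos (by norm_num)
  -- the ratio
  obtain ⟨r, hr⟩ : ∃ r, r = δ / (1 - δ) := ⟨_, rfl⟩
  have h1δ : 0 < 1 - δ := by linarith
  have hr0 : 0 < r := by rw [hr]; positivity
  have hr1 : r < 1 := by
    rw [hr, div_lt_one h1δ]
    linarith
  obtain ⟨q, hq⟩ : ∃ q, q = √r := ⟨_, rfl⟩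
  have hq0 : 0 < q := by rw [hq]; positivity
  have hqr : q ^ 2 = r := by rw [hq, Real.sq_sqrt hr0.le]
  have hq1 : q < 1 := by
    by_contra h
    have h1 : 1 ≤ q := not_lt.1 h
    have h2 : 1 ≤ q ^ 2 := one_le_pow₀ h1
    linarith
  obtain ⟨w, hw⟩ : ∃ w, w = (1 + r) / r ^ δ := ⟨_, rfl⟩
  have hw0 : 0 < w := by rw [hw]; positivity
  obtain ⟨g, hg⟩ : ∃ g, g = Real.log w := ⟨_, rfl⟩
  have hgH : g = Real.binEntropy δ := by
    have e1 : 1 + r = 1 / (1 - δ) := by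
      rw [hr]
      field_simp
      ring
    rw [hg, hw, Real.log_div (by positivity) (by positivity), Real.log_rpow hr0, e1, hr,
      Real.log_div one_ne_zero h1δ.ne', Real.log_div h0.ne' h1δ.ne', Real.log_one]
    unfold Real.binEntropy
    rw [Real.log_inv, Real.log_inv]
    ring
  have hg0 : 0 < g := by
    rw [hgH]
    exact Real.binEntropy_pos h0 (by linarith)
  have hg2 : g < Real.log 2 := by
    rw [hgH]
    refine Real.binEntropy_lt_log_two.2 ?_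
    norm_num
    linarith
  have hexpg : Real.exp g = w := by rw [hg, Real.exp_log hw0]
  have hw2 : w < 2 := by
    rw [← hexpg, ← Real.exp_log (by norm_num : (0 : ℝ) < 2)]
    exact Real.exp_lt_exp.2 hg2
  have hlog2 : Real.log 2 < 1 := by
    have := Real.log_two_lt_d9
    linarith
  obtain ⟨g', hg'⟩ : ∃ g', g' = Real.log 2 - g := ⟨_, rfl⟩
  have hg'0 : 0 < g' := by rw [hg']; linarith
  have hwg : w / 2 = Real.exp (-g') := by
    rw [hg', neg_sub, Real.exp_sub, hexpg, Real.exp_log (by norm_num)]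
  obtain ⟨m₀, hm₀⟩ : ∃ m₀, m₀ = min (g / 2) g' := ⟨_, rfl⟩
  have hm0 : 0 < m₀ := hm₀ ▸ lt_min (by positivity) hg'0
  have hmg : m₀ ≤ g / 2 := hm₀ ▸ min_le_left _ _
  have hmg' : m₀ ≤ g' := hm₀ ▸ min_le_right _ _
  obtain ⟨z, hz⟩ : ∃ z, z = min (g / 8) δ := ⟨_, rfl⟩
  have hz0 : 0 < z := hz ▸ lt_min (by positivity) h0
  have hzg : z ≤ g / 8 := hz ▸ min_le_left _ _
  have hzδ : z ≤ δ := hz ▸ min_le_right _ _
  have hz1 : z ≤ 1 := by linarith
  have hz2 : z ^ 2 ≤ δ := by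
    calc z ^ 2 = z * z := sq z
      _ ≤ 1 * z := mul_le_mul_of_nonneg_right hz1 hz0.le
      _ ≤ δ := by linarith
  obtain ⟨θ, hθ⟩ : ∃ θ, θ = 2 * q / (1 + q ^ 2) := ⟨_, rfl⟩
  have hθ0 : 0 < θ := by rw [hθ]; positivity
  have hθ1 : θ < 1 := by
    rw [hθ, div_lt_one (by positivity)]
    nlinarith [sq_pos_of_pos (sub_pos.2 hq1)]
  obtain ⟨ρ, hρ⟩ : ∃ ρ, ρ = (1 + (q ^ 2) ^ 2) / (1 + q ^ 2) ^ 2 := ⟨_, rfl⟩
  have hρ0 : 0 < ρ := by rw [hρ]; positivity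
  have hρ1 : ρ < 1 := by
    rw [hρ, div_lt_one (by positivity)]
    nlinarith
  obtain ⟨lr, hlr⟩ : ∃ lr, lr = -Real.log ρ := ⟨_, rfl⟩
  have hlr0 : 0 < lr := by
    have := Real.log_neg hρ0 hρ1
    rw [hlr]
    linarith
  obtain ⟨lt, hlt⟩ : ∃ lt, lt = -Real.log θ := ⟨_, rfl⟩
  have hlt0 : 0 < lt := by
    have := Real.log_neg hθ0 hθ1
    rw [hlt]
    linarith
  obtain ⟨y, hy⟩ : ∃ y, y = m₀ / 200 := ⟨_, rfl⟩
  have hy0 : 0 < y := by rw [hy]; positivity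
  have hy1 : y ≤ 1 := by rw [hy]; linarith
  obtain ⟨c, hc⟩ : ∃ c, c = min (m₀ / 200) (min (y ^ 2 * lr / 4) (z ^ 2 * lt / 2)) := ⟨_, rfl⟩
  have hc0 : 0 < c := by
    rw [hc]
    exact lt_min (by positivity) (lt_min (by positivity) (by positivity))
  have hcm : c ≤ m₀ / 200 := hc ▸ min_le_left _ _
  have hcr : c ≤ y ^ 2 * lr / 4 := hc ▸ (min_le_right _ _).trans (min_le_left _ _)
  have hct : c ≤ z ^ 2 * lt / 2 := hc ▸ (min_le_right _ _).trans (min_le_right _ _)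
  have hρy : ρ ^ (y ^ 2) = Real.exp (-(y ^ 2 * lr)) := by
    rw [Real.rpow_def_of_pos hρ0, hlr]
    congr 1
    ring
  have hθz : θ ^ (z ^ 2) = Real.exp (-(z ^ 2 * lt)) := by
    rw [Real.rpow_def_of_pos hθ0, hlt]
    congr 1
    ring
  refine ⟨c / (4 * Real.log 2), c / (52 * Real.log 2), by positivity, by positivity, ?_⟩
  obtain ⟨κ, hκ⟩ : ∃ κ, κ = Real.logb 2 (2 * Real.exp (c / 2) / w) := ⟨_, rfl⟩
  have hκ2 : (2 : ℝ) ^ κ = 2 * Real.exp (c / 2) / w := by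
    rw [hκ, Real.rpow_logb (by norm_num) (by norm_num) (by positivity)]
  have hκ0 : 0 ≤ κ := by
    rw [hκ]
    refine Real.logb_nonneg (by norm_num) ?_
    rw [le_div_iff₀ hw0]
    have : 1 ≤ Real.exp (c / 2) := Real.one_le_exp (by positivity)
    linarith
  -- sequences
  have gV := gr_VV (r := q ^ 2) (a := δ) (by positivity) (by rw [hqr]; exact hr1.le) h0.le
  have eV : (1 + q ^ 2) / (q ^ 2) ^ δ = w := by rw [hqr, hw]
  rw [eV] at gV
  have gVi : Gr (fun n : ℕ => 1 / VV n ⌈δ * n⌉₊ (q ^ 2)) (Real.exp (-g)) := by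
    refine ⟨1, zero_le_one, fun n => ?_⟩
    have a1 : 1 ≤ VV n ⌈δ * n⌉₊ (q ^ 2) := one_le_VV (by positivity) (by rw [hqr]; exact hr1.le) _
    refine ⟨by positivity, ?_⟩
    show 1 / VV n ⌈δ * n⌉₊ (q ^ 2) ≤ 1 * Real.exp (-g) ^ n
    rw [one_mul, Real.exp_neg, hexpg, inv_pow, one_div]
    refine inv_anti₀ (by positivity) ?_
    rw [hqr]
    unfold VV
    rw [hw, div_pow]
    exact div_le_div_of_nonneg_left (by positivity) (by positivity) (pow_ceil_le hr0 hr1.le n)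
  have gP : Gr (fun n : ℕ => VV n ⌈y ^ 2 * n⌉₊ y) (Real.exp (2 * y)) :=
    (gr_VV hy0 hy1 (by positivity)).mono (by positivity) (pi_le hy0)
  have gz : Gr (fun n : ℕ => VV n ⌈z ^ 2 * n⌉₊ z) (Real.exp (2 * z)) :=
    (gr_VV hz0 hz1 (by positivity)).mono (by positivity) (pi_le hz0)
  have gexp : ∀ a : ℝ, Gr (fun n : ℕ => Real.exp a ^ n) (Real.exp a) := fun a =>
    ⟨1, zero_le_one, fun n => ⟨by positivity, by rw [one_mul]⟩⟩
  have g2 : Gr (fun n : ℕ => ((2 : ℝ) ^ n)⁻¹) (1 / 2) := by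
    refine ⟨1, zero_le_one, fun n => ⟨by positivity, le_of_eq ?_⟩⟩
    rw [one_mul, one_div, inv_pow]
  have gZ : Gr (fun n : ℕ => 2 * VV n ⌈y ^ 2 * n⌉₊ y * Real.exp (2 * c) ^ n)
      (Real.exp (2 * y) * Real.exp (2 * c)) :=
    (gP.const_mul (by norm_num : (0 : ℝ) ≤ 2)).mul (gexp (2 * c))
  have gQ : Gr (fun n : ℕ => VV n ⌈δ * n⌉₊ (q ^ 2) / 2 ^ n) (Real.exp (-g')) := by
    have := gV.mul g2
    rw [← hwg]
    simpa only [div_eq_mul_inv, one_mul] using this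
  -- smallness
  have ev1 := (gQ.mul (gZ.pow 40)).ev (by positivity) (by
    rw [← Real.exp_add, ← Real.exp_nat_mul, ← Real.exp_add]
    refine Real.exp_lt_one_iff.2 ?_
    push_cast
    rw [hy]
    linarith) one_pos
  have gρ := gr_pow_ceil (a := y ^ 2) hρ0 hρ1.le (by positivity)
  rw [hρy] at gρ
  obtain ⟨bb, hbb⟩ : ∃ bb, bb = Real.exp (-(4 * c)) := ⟨_, rfl⟩
  have hbb0 : 0 < bb := by rw [hbb]; positivity
  have gsum : Gr (fun n : ℕ => ρ ^ ⌈y ^ 2 * n⌉₊ + 2 * (2 * VV n ⌈y ^ 2 * n⌉₊ y *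
      (VV n ⌈δ * n⌉₊ (q ^ 2) / 2 ^ n)) + 1 / VV n ⌈δ * n⌉₊ (q ^ 2)) bb := by
    refine ((gρ.mono (by positivity) ?_).add
      ((((gP.const_mul (by norm_num : (0 : ℝ) ≤ 2)).mul gQ).const_mul
        (by norm_num : (0 : ℝ) ≤ 2)).mono (by positivity) ?_)).add (gVi.mono (by positivity) ?_)
    · rw [hbb]
      exact Real.exp_le_exp.2 (by linarith)
    · rw [hbb, ← Real.exp_add]
      refine Real.exp_le_exp.2 ?_
      rw [hy]
      linarith
    · rw [hbb]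
      refine Real.exp_le_exp.2 ?_
      linarith
  have ev2 := (gsum.mul (gexp (3 * c))).ev (by positivity) (by
    rw [hbb, ← Real.exp_add]
    exact Real.exp_lt_one_iff.2 (by linarith)) one_pos
  have ev3 := ((gz.mul (gZ.pow 40)).mul gVi).ev (by positivity) (by
    rw [← Real.exp_add, ← Real.exp_nat_mul, ← Real.exp_add, ← Real.exp_add]
    refine Real.exp_lt_one_iff.2 ?_
    push_cast
    rw [hy]
    linarith) one_pos
  have ev4 := ((gexp c).mul (gQ.mul gZ)).ev (by positivity) (by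
    rw [← Real.exp_add, ← Real.exp_add, ← Real.exp_add]
    refine Real.exp_lt_one_iff.2 ?_
    rw [hy]
    linarith) (by norm_num : (0 : ℝ) < 1 / 4)
  have gx : Gr (fun n : ℕ => (2 : ℝ) ^ ⌊κ * n⌋₊) (2 * Real.exp (c / 2) / w) := by
    refine ⟨1, by positivity, fun n => ⟨by positivity, ?_⟩⟩
    show (2 : ℝ) ^ ⌊κ * n⌋₊ ≤ 1 * (2 * Real.exp (c / 2) / w) ^ n
    rw [one_mul, ← hκ2, ← Real.rpow_natCast, ← Real.rpow_natCast, ← Real.rpow_mul (by norm_num)]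
    exact Real.rpow_le_rpow_of_exponent_le (by norm_num) (Nat.floor_le (by positivity))
  have hxbase : Real.exp (c / 4) * (2 * Real.exp (c / 2) / w * (Real.exp (-g') * Real.exp (-c))) <
      1 := by
    rw [← hwg]
    have e1 : Real.exp (c / 4) * (2 * Real.exp (c / 2) / w * (w / 2 * Real.exp (-c))) =
        Real.exp (c / 4) * (Real.exp (c / 2) * Real.exp (-c)) := by
      field_simp
    rw [e1, ← Real.exp_add, ← Real.exp_add]
    exact Real.exp_lt_one_iff.2 (by linarith)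
  have ev5 := ((gexp (c / 4)).mul (gx.mul (gQ.mul (gexp (-c))))).ev (by positivity) hxbase
    (by norm_num : (0 : ℝ) < 1 / 48)
  filter_upwards [ev1, ev2, ev3, ev4, ev5,
    eventually_ge_atTop ⌈2 * (4 * Real.log 2) / c⌉₊, eventually_ge_atTop 1]
    with n a1 a2 a3 a4 a5 a6 a7 l hl hle
  have hlR : (1 : ℝ) ≤ l := by exact_mod_cast hl
  have hl0 : (0 : ℝ) < l := by linarith
  have hn0 : (0 : ℝ) < n := by exact_mod_cast a7
  have h2l : ((2 : ℝ) ^ l) ^ 13 ≤ Real.exp (c / 4) ^ n := by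
    rw [← pow_mul, ← Real.rpow_natCast, Real.rpow_def_of_pos (by norm_num : (0 : ℝ) < 2),
      ← Real.exp_nat_mul]
    refine Real.exp_le_exp.2 ?_
    push_cast
    calc Real.log 2 * (l * 13) ≤ Real.log 2 * (c / (52 * Real.log 2) * n * 13) := by gcongr
      _ = n * (c / 4) := by
        field_simp
        norm_num
  have h2l1 : (1 : ℝ) ≤ 2 ^ l := one_le_pow₀ one_le_two
  have h2lc : (2 : ℝ) ^ l ≤ Real.exp c ^ n := by
    calc (2 : ℝ) ^ l = ((2 : ℝ) ^ l) ^ 1 := (pow_one _).symm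
      _ ≤ ((2 : ℝ) ^ l) ^ 13 := pow_le_pow_right₀ h2l1 (by norm_num)
      _ ≤ Real.exp (c / 4) ^ n := h2l
      _ ≤ Real.exp c ^ n := pow_le_pow_left₀ (by positivity) (Real.exp_le_exp.2 (by linarith)) n
  obtain ⟨V1, hV1⟩ : ∃ V1, V1 = VV n ⌈δ * n⌉₊ (q ^ 2) := ⟨_, rfl⟩
  obtain ⟨P1, hP1⟩ : ∃ P1, P1 = VV n ⌈y ^ 2 * n⌉₊ y := ⟨_, rfl⟩
  obtain ⟨Z, hZ⟩ : ∃ Z, Z = 2 * P1 * Real.exp (2 * c) ^ n := ⟨_, rfl⟩
  obtain ⟨v, hv⟩ : ∃ v, v = Real.exp (-c) ^ n := ⟨_, rfl⟩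
  have hV11 : 1 ≤ V1 := hV1 ▸ one_le_VV (by positivity) (by rw [hqr]; exact hr1.le) _
  have hV10 : 0 < V1 := by linarith
  have hP11 : 1 ≤ P1 := hP1 ▸ one_le_VV hy0 hy1 _
  have hec : 1 ≤ Real.exp c ^ n := one_le_pow₀ (Real.one_le_exp hc0.le)
  have hec2 : Real.exp (2 * c) ^ n = Real.exp c ^ n * Real.exp c ^ n := by
    rw [← mul_pow, ← Real.exp_add]
    congr 2
    ring
  rw [← hV1, ← hP1, ← hZ] at a1
  rw [← hV1, ← hP1] at a2
  rw [← hV1, ← hP1, ← hZ] at a3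
  rw [← hV1, ← hP1, ← hZ] at a4
  rw [← hV1, ← hv] at a5
  have hv0 : 0 < v := by rw [hv]; positivity
  have hvec : v * Real.exp c ^ n = 1 := by
    rw [hv, ← mul_pow, ← Real.exp_add, neg_add_cancel, Real.exp_zero, one_pow]
  have hD : Dat n (V1 / 2 ^ n) Z v (ff n ⌈δ * n⌉₊ ⌈y ^ 2 * n⌉₊) (Bd n ⌈δ * n⌉₊)
      (Bd n ⌈z ^ 2 * n⌉₊) (PP n ⌈y ^ 2 * n⌉₊) := by
    refine mkDat hq0 hq1.le hy0 hy1 hz0 hz1 hV1 ?_ ?_ hv0 ?_ ?_ ?_ a1 ?_ ?_ ?_
    · exact Nat.one_le_ceil_iff.2 (by positivity)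
    · exact Nat.ceil_mono (mul_le_mul_of_nonneg_right hz2 hn0.le)
    · rw [hv]
      exact pow_le_one₀ (by positivity) (Real.exp_le_one_iff.2 (by linarith))
    · rw [← hP1, hZ, hec2]
      refine le_mul_of_one_le_right (by positivity) ?_
      exact one_le_mul_of_one_le_of_one_le hec hec
    · calc (1 : ℝ) ≤ 2 * P1 * Real.exp c ^ n :=
            one_le_mul_of_one_le_of_one_le (by linarith) hec
        _ = 2 * P1 * Real.exp c ^ n * (v * Real.exp c ^ n) := by rw [hvec, mul_one]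
        _ = v * Z := by rw [hZ, hec2]; ring
    · rw [← hρ, ← hP1]
      have e1 : Real.exp (3 * c) ^ n * v ^ 3 = 1 := by
        have : Real.exp (3 * c) ^ n = (Real.exp c ^ n) ^ 3 := by
          rw [← pow_mul, mul_comm n 3, pow_mul]
          congr 1
          rw [← Real.exp_nat_mul]
          norm_num
        rw [this, ← mul_pow, mul_comm, hvec, one_pow]
      have e2 : 0 < Real.exp (3 * c) ^ n := by positivity
      refine le_of_mul_le_mul_right ?_ e2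
      rw [mul_comm (v ^ 3), e1]
      exact a2
    · have e1 : VV n ⌈z ^ 2 * n⌉₊ z * Z ^ 40 * (1 / V1) * V1 = VV n ⌈z ^ 2 * n⌉₊ z * Z ^ 40 := by
        field_simp
      rw [← e1]
      calc VV n ⌈z ^ 2 * n⌉₊ z * Z ^ 40 * (1 / V1) * V1 ≤ 1 * V1 :=
            mul_le_mul_of_nonneg_right a3 hV10.le
        _ = V1 := one_mul _
    · rw [← hθ, hv]
      refine (pow_ceil_le hθ0 hθ1.le n).trans (pow_le_pow_left₀ (by positivity) ?_ n)
      rw [hθz]
      exact Real.exp_le_exp.2 (by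
        have : 0 < z ^ 2 * lt := by positivity
        linarith)
  have hZ0 : 0 < Z := by
    rw [hZ]
    positivity
  obtain ⟨K, hK⟩ : ∃ K : ℝ, K = 2 ^ ⌊κ * n⌋₊ := ⟨_, rfl⟩
  have hK1 : 1 ≤ K := by
    rw [hK]
    exact one_le_pow₀ one_le_two
  obtain ⟨p, hp⟩ : ∃ p : ℝ, p = V1 / 2 ^ n * v := ⟨_, rfl⟩
  have hp0 : 0 < p := by
    rw [hp]
    positivity
  rw [← hK, ← hp] at a5
  have hL0 : (0 : ℝ) < 2 ^ l := by positivity
  have hmain : ((2 : ℝ) ^ l) ^ 13 * (K * p) ≤ 1 / 48 := by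
    refine le_trans ?_ a5
    exact mul_le_mul_of_nonneg_right h2l (by positivity)
  have hl2l : (l : ℝ) ≤ 2 ^ l := by exact_mod_cast Nat.lt_two_pow_self.le
  have h12 : ((2 : ℝ) ^ l) ^ 12 ≤ ((2 : ℝ) ^ l) ^ 13 := pow_le_pow_right₀ h2l1 (by norm_num)
  obtain ⟨a, ha, hval⟩ := value2 (d := ⌈δ * n⌉₊) (k := ⌊κ * n⌋₊) (l := l) hD
    (fun x hx => mem_Bd.2 hx)
    (fun x hx => ff_eta hq0 hq1.le hy0 hy1 hV1 (Nat.one_le_ceil_iff.2 (by positivity)) (by
      rw [← hP1, hZ, hec2]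
      calc 2 * P1 * 2 ^ l ≤ 2 * P1 * Real.exp c ^ n :=
            mul_le_mul_of_nonneg_left h2lc (by positivity)
        _ ≤ 2 * P1 * (Real.exp c ^ n * Real.exp c ^ n) := by
            refine mul_le_mul_of_nonneg_left (le_mul_of_one_le_right (by positivity) hec)
              (by positivity)) x hx)
    (by
      rw [← hp]
      calc (2 : ℝ) ^ l * (((2 : ℝ) ^ l) ^ 11 * (2 * p)) = 2 * (((2 : ℝ) ^ l) ^ 12 * (1 * p)) := by
            ring
        _ ≤ 2 * (((2 : ℝ) ^ l) ^ 13 * (K * p)) := by gcongr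
        _ ≤ 2 * (1 / 48) := by linarith
        _ ≤ 1 / 2 := by norm_num)
    (by
      calc (2 : ℝ) ^ l * (2 * (V1 / 2 ^ n * Z)) ≤ Real.exp c ^ n * (2 * (V1 / 2 ^ n * Z)) := by gcongr
        _ = 2 * (Real.exp c ^ n * (V1 / 2 ^ n * Z)) := by ring
        _ ≤ 2 * (1 / 4) := by gcongr
        _ = 1 / 2 := by norm_num)
    (by
      rw [← hp, ← hK]
      calc 6 * (l * (K * 2 ^ l * (((2 : ℝ) ^ l) ^ 11 * (2 * p)))) ≤
          6 * (2 ^ l * (K * 2 ^ l * (((2 : ℝ) ^ l) ^ 11 * (2 * p)))) := by gcongr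
        _ = 12 * (((2 : ℝ) ^ l) ^ 13 * (K * p)) := by ring
        _ ≤ 12 * (1 / 48) := by linarith
        _ = 1 / 4 := by norm_num)
    (by
      rw [← hp, ← hK]
      calc K * 2 ^ l * (((2 : ℝ) ^ l) ^ 11 * (2 * p)) = 2 * (((2 : ℝ) ^ l) ^ 12 * (K * p)) := by
            ring
        _ ≤ 2 * (((2 : ℝ) ^ l) ^ 13 * (K * p)) := by gcongr
        _ ≤ 2 * (1 / 48) := by linarith
        _ ≤ 1 := by norm_num)
  refine ⟨a, ha, le_trans ?_ hval⟩
  -- the exponents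
  have h2 : κ * n - 1 ≤ ⌊κ * n⌋₊ := (Nat.sub_one_lt_floor _).le
  have h3 : κ = 1 - Real.binEntropy δ / Real.log 2 + c / 2 / Real.log 2 := by
    rw [hκ, Real.logb, Real.log_div (by positivity) hw0.ne', Real.log_mul (by norm_num)
      (by positivity), Real.log_exp, ← hg, hgH]
    field_simp
    ring
  have h4 : ((l : ℝ) + 1) * (4 * Real.log 2) ≤ n * (c * l) := by
    have b1 : 2 * (4 * Real.log 2) / c ≤ n := (Nat.le_ceil _).trans (by exact_mod_cast a6)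
    rw [div_le_iff₀ hc0] at b1
    calc ((l : ℝ) + 1) * (4 * Real.log 2) ≤ (l + l) * (4 * Real.log 2) := by gcongr
      _ = 2 * (4 * Real.log 2) * l := by ring
      _ ≤ n * c * l := by gcongr
      _ = _ := by ring
  have h5 : (1 - Real.binEntropy δ / Real.log 2 + c / (4 * Real.log 2)) * (l * n) ≤
      (κ * n - 1) * l - 1 := by
    have e1 : (κ * n - 1) * l - 1 - (1 - Real.binEntropy δ / Real.log 2 +
        c / (4 * Real.log 2)) * (l * n) =
        (n * (c * l) - ((l : ℝ) + 1) * (4 * Real.log 2)) / (4 * Real.log 2) := by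
      rw [h3]
      field_simp
      ring
    have e2 : 0 ≤ (n * (c * l) - ((l : ℝ) + 1) * (4 * Real.log 2)) / (4 * Real.log 2) :=
      div_nonneg (by linarith) (by positivity)
    linarith
  calc (2 : ℝ) ^ ((1 - Real.binEntropy δ / Real.log 2 + c / (4 * Real.log 2)) * (l * n)) ≤
      (2 : ℝ) ^ ((⌊κ * n⌋₊ : ℝ) * l - 1) := by
        refine Real.rpow_le_rpow_of_exponent_le (by norm_num) (h5.trans ?_)
        have : (κ * n - 1) * l ≤ ⌊κ * n⌋₊ * l := mul_le_mul_of_nonneg_right h2 hl0.le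
        linarith
    _ = ((2 : ℝ) ^ ⌊κ * n⌋₊) ^ l / 2 := by
        rw [Real.rpow_sub (by norm_num), Real.rpow_mul (by norm_num), Real.rpow_natCast,
          Real.rpow_natCast, Real.rpow_one]

end Pool.Agent.N381.UG
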